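import Mathlib

/-!
Concentration on the cube, and the pigeonhole step of the adversary.
-/

namespace Pool.Agent.P.MP_548a57_lc

open Finset

/-- Two-function inequality on the cube. -/
theorem Blow_fin (T : ℝ) (hT : 0 < T) : ∀ (n : ℕ) (C : ℝ) (F G : (Fin n → Bool) → ℝ),
    (∀ x, 0 ≤ F x) → (∀ y, 0 ≤ G y) →
    (∀ x y, F x * G y ≤ C * ∏ i, (if x i = y i then T else 1)) →
    (∑ x, F x) * (∑ y, G y) ≤ C * (2 + T + T⁻¹) ^ n := by
  intro n
  induction n with
  | zero =>
    intro C F G _ _ h
    rw [Fintype.sum_unique, Fintype.sum_unique, pow_zero]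
    refine (h _ _).trans_eq ?_
    rw [Fin.prod_univ_zero]
  | succ n ih =>
    intro C F G hF hG h
    have hs : ∀ H : (Fin (n + 1) → Bool) → ℝ, ∑ x, H x =
        ∑ x : Fin n → Bool, H (Fin.cons true x) + ∑ x : Fin n → Bool, H (Fin.cons false x) := by
      intro H
      rw [← (Fin.consEquiv fun _ : Fin (n + 1) => Bool).sum_comp, Fintype.sum_prod_type,
        Fintype.sum_bool]
      rfl
    have key : ∀ a b : Bool, (∑ x : Fin n → Bool, F (Fin.cons a x)) *
        (∑ y : Fin n → Bool, G (Fin.cons b y)) ≤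
        (C * (if a = b then T else 1)) * (2 + T + T⁻¹) ^ n := by
      intro a b
      refine ih _ _ _ (fun x => hF _) (fun y => hG _) fun x y => ?_
      have := h (Fin.cons a x) (Fin.cons b y)
      rw [Fin.prod_univ_succ] at this
      simpa [mul_assoc] using this
    rw [hs F, hs G]
    have h11 := key true true
    have h00 := key false false
    have h10 := key true false
    have h01 := key false true
    simp only [if_true, Bool.true_eq_false, Bool.false_eq_true, if_false, mul_one] at h11 h00 h10 h01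
    have ha1 : 0 ≤ ∑ x : Fin n → Bool, F (Fin.cons true x) := sum_nonneg fun x _ => hF _
    have ha0 : 0 ≤ ∑ x : Fin n → Bool, F (Fin.cons false x) := sum_nonneg fun x _ => hF _
    have hb1 : 0 ≤ ∑ x : Fin n → Bool, G (Fin.cons true x) := sum_nonneg fun x _ => hG _
    have hb0 : 0 ≤ ∑ x : Fin n → Bool, G (Fin.cons false x) := sum_nonneg fun x _ => hG _
    generalize ∑ x : Fin n → Bool, F (Fin.cons true x) = a1 at *
    generalize ∑ x : Fin n → Bool, F (Fin.cons false x) = a0 at *
    generalize ∑ x : Fin n → Bool, G (Fin.cons true x) = b1 at *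
    generalize ∑ x : Fin n → Bool, G (Fin.cons false x) = b0 at *
    rw [pow_succ, ← mul_assoc]
    rw [mul_right_comm] at h11 h00
    generalize C * (2 + T + T⁻¹) ^ n = K at *
    have hK : 0 ≤ K := (mul_nonneg ha1 hb0).trans h10
    have hpq : (a1 * b1) * (a0 * b0) ≤ K * K := by
      calc (a1 * b1) * (a0 * b0) = (a1 * b0) * (a0 * b1) := by ring
        _ ≤ K * K := mul_le_mul h10 h01 (mul_nonneg ha0 hb1) hK
    have hsum : a1 * b1 + a0 * b0 ≤ K * T + K * T⁻¹ := by
      rcases hK.eq_or_lt with h0 | h0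
      · rw [← h0] at h11 h00 ⊢
        linarith
      · have h1 : 0 ≤ (K * T - a1 * b1) * (K * T - a0 * b0) :=
          mul_nonneg (by linarith) (by linarith)
        have h2 : (K * T) * (K * T⁻¹) = K * K := by field_simp
        have h3 : (K * T) * (a1 * b1 + a0 * b0) ≤ (K * T) * (K * T + K * T⁻¹) := by
          nlinarith
        exact le_of_mul_le_mul_left h3 (mul_pos h0 hT)
    nlinarith

/-- A set of binary words any two of which agree in more than a `δ` fraction of places is small. -/
theorem blow {ι : Type} [Fintype ι] [DecidableEq ι] (A : Finset (ι → Bool)) (δ : ℝ) (hδ : 0 < δ)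
    (h : ∀ x ∈ A, ∀ y ∈ A, δ * Fintype.card ι < ((univ.filter fun i => x i = y i).card : ℝ)) :
    ((A.card : ℝ) / 2 ^ Fintype.card ι) ^ 2 ≤ Real.exp (-(δ ^ 2 * Fintype.card ι)) := by
  obtain ⟨n, ⟨e⟩⟩ : ∃ n, Nonempty (ι ≃ Fin n) := ⟨_, ⟨Fintype.equivFin ι⟩⟩
  have hn : Fintype.card ι = n := by simpa using Fintype.card_congr e
  rw [hn] at h ⊢
  let F : (Fin n → Bool) → ℝ := fun x => if (x ∘ e) ∈ A then 1 else 0
  have hF : ∀ x, 0 ≤ F x := fun x => by simp only [F]; split_ifs <;> norm_num
  have hsum : ∑ x, F x = A.card := by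
    have : ∑ x, F x = ∑ z : ι → Bool, if z ∈ A then (1 : ℝ) else 0 :=
      Fintype.sum_equiv (Equiv.arrowCongr e.symm (Equiv.refl Bool)) _ _ fun x => rfl
    rw [this]
    simp
  have key := Blow_fin (Real.exp (2 * δ)) (Real.exp_pos _) n (Real.exp (-(2 * δ * (δ * n)))) F F
    hF hF fun x y => by
      have hp : (∏ i, if x i = y i then Real.exp (2 * δ) else 1) =
          Real.exp (2 * δ * ((univ.filter fun i => (x ∘ e) i = (y ∘ e) i).card : ℝ)) := by
        rw [← e.prod_comp, prod_ite, prod_const_one, mul_one, prod_const, mul_comm (2 * δ),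
          Real.exp_nat_mul]
        rfl
      rw [hp, ← Real.exp_add]
      simp only [F]
      split_ifs with h1 h2
      · rw [mul_one]
        refine Real.one_le_exp ?_
        have := h _ h1 _ h2
        nlinarith
      all_goals simpa using (Real.exp_pos _).le
  rw [hsum] at key
  have hc : 2 + Real.exp (2 * δ) + (Real.exp (2 * δ))⁻¹ ≤ 4 * Real.exp (δ ^ 2) := by
    have h1 := Real.cosh_le_exp_half_sq δ
    have h2 : Real.cosh δ ^ 2 ≤ Real.exp (δ ^ 2) := by
      calc Real.cosh δ ^ 2 ≤ Real.exp (δ ^ 2 / 2) ^ 2 :=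
            pow_le_pow_left₀ (Real.cosh_pos δ).le h1 2
        _ = Real.exp (δ ^ 2) := by rw [← Real.exp_nat_mul]; congr 1; push_cast; ring
    have h3 := Real.cosh_two_mul δ
    have h4 := Real.cosh_sq δ
    rw [Real.cosh_eq, Real.exp_neg] at h3
    linarith
  have h5 : (2 + Real.exp (2 * δ) + (Real.exp (2 * δ))⁻¹) ^ n ≤ (4 * Real.exp (δ ^ 2)) ^ n :=
    pow_le_pow_left₀ (by positivity) hc n
  have h6 : Real.exp (-(2 * δ * (δ * n))) * (4 * Real.exp (δ ^ 2)) ^ n =
      Real.exp (-(δ ^ 2 * n)) * (2 ^ n) ^ 2 := by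
    rw [mul_pow, ← Real.exp_nat_mul, mul_left_comm, ← Real.exp_add, mul_comm, ← pow_mul,
      mul_comm n 2, pow_mul]
    congr 2
    · ring
    · norm_num
  rw [div_pow, div_le_iff₀ (by positivity), ← h6, sq]
  exact key.trans (mul_le_mul_of_nonneg_left h5 (Real.exp_pos _).le)

/-- Pigeonhole step: two inputs with the same memory state that differ almost everywhere in one
direction. -/
theorem pigeon {Dir ι St : Type} [Fintype Dir] [DecidableEq Dir] [Fintype ι] [DecidableEq ι]
    [Fintype St] (f : (Dir → ι → Bool) → St) (δ : ℝ) (hδ : 0 < δ) (s : ℕ)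
    (hSt : Fintype.card St ≤ 2 ^ s)
    (hs : 2 * (s : ℝ) < δ ^ 2 * Fintype.card ι * Fintype.card Dir) :
    ∃ (j : Dir) (X X' : Dir → ι → Bool), f X = f X' ∧
      ((univ.filter fun i => X j i = X' j i).card : ℝ) ≤ δ * Fintype.card ι := by
  classical
  by_contra hcon
  push Not at hcon
  have hne : Nonempty St := ⟨f fun _ _ => true⟩
  obtain ⟨c, hc⟩ : ∃ c : St, ((2 : ℝ) ^ Fintype.card ι) ^ Fintype.card Dir ≤
      2 ^ s * ((univ.filter fun X => f X = c).card : ℝ) := by
    by_contra hlt
    push Not at hlt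
    have h1 : ∑ c : St, (2 : ℝ) ^ s * ((univ.filter fun X => f X = c).card : ℝ) <
        ∑ _c : St, ((2 : ℝ) ^ Fintype.card ι) ^ Fintype.card Dir :=
      sum_lt_sum_of_nonempty univ_nonempty fun c _ => hlt c
    have h2 : ∑ c : St, ((univ.filter fun X => f X = c).card : ℝ) =
        ((2 : ℝ) ^ Fintype.card ι) ^ Fintype.card Dir := by
      have := card_eq_sum_card_fiberwise (s := (univ : Finset (Dir → ι → Bool)))
        (t := (univ : Finset St)) (f := f) fun _ _ => mem_coe.2 (mem_univ _)
      rw [card_univ] at this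
      simp only [Fintype.card_fun, Fintype.card_bool] at this
      exact_mod_cast this.symm
    rw [← mul_sum, h2, sum_const, card_univ, nsmul_eq_mul] at h1
    have h3 : (Fintype.card St : ℝ) ≤ 2 ^ s := by exact_mod_cast hSt
    have := lt_of_mul_lt_mul_right h1 (by positivity)
    linarith
  set S := univ.filter fun X => f X = c with hS
  have hsub : S ⊆ Fintype.piFinset fun j => S.image fun X => X j := fun X hX =>
    Fintype.mem_piFinset.2 fun j => mem_image_of_mem _ hX
  have hcard : (S.card : ℝ) ≤ ∏ j, ((S.image fun X => X j).card : ℝ) := by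
    have := card_le_card hsub
    rw [Fintype.card_piFinset] at this
    exact_mod_cast this
  have hb : ∀ j, (((S.image fun X => X j).card : ℝ) / 2 ^ Fintype.card ι) ^ 2 ≤
      Real.exp (-(δ ^ 2 * Fintype.card ι)) := fun j =>
    blow _ δ hδ fun x hx y hy => by
      obtain ⟨X, hX, rfl⟩ := mem_image.1 hx
      obtain ⟨Y, hY, rfl⟩ := mem_image.1 hy
      exact hcon j X Y ((mem_filter.1 hX).2.trans (mem_filter.1 hY).2.symm)
  have hprod := prod_le_prod (s := univ) (fun j _ => sq_nonneg _) fun j _ => hb j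
  rw [prod_pow, prod_div_distrib, prod_const, prod_const, card_univ, ← Real.exp_nat_mul] at hprod
  have h7 : ((2 : ℝ) ^ s)⁻¹ ≤
      (∏ j, ((S.image fun X => X j).card : ℝ)) / (2 ^ Fintype.card ι) ^ Fintype.card Dir := by
    rw [le_div_iff₀ (by positivity), inv_mul_le_iff₀ (by positivity)]
    exact hc.trans (mul_le_mul_of_nonneg_left hcard (by positivity))
  have h8 : Real.exp (-(s : ℝ)) ≤ ((2 : ℝ) ^ s)⁻¹ := by
    rw [Real.exp_neg]
    refine inv_anti₀ (by positivity) ?_
    calc (2 : ℝ) ^ s ≤ Real.exp 1 ^ s :=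
          pow_le_pow_left₀ (by norm_num) (by linarith [Real.add_one_le_exp (1 : ℝ)]) s
      _ = Real.exp s := by rw [← Real.exp_nat_mul, mul_one]
  have h9 := (pow_le_pow_left₀ (Real.exp_pos _).le (h8.trans h7) 2).trans hprod
  rw [← Real.exp_nat_mul, Real.exp_le_exp] at h9
  push_cast at h9
  nlinarith

end Pool.Agent.P.MP_548a57_lc
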