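import Mathlib

/-!
Abstract blueprints for the fooling pair.
-/

namespace Pool.Agent.P.MP_548a57_lc

/-- A label: a starting label and, for each phase, a tag and an effective colour. -/
abbrev Lab (k : ℕ) (Init Col : Type) : Type := Init × (Fin k → Bool × Col)

/-- The two labels have the same start, the same entries before phase `i` and the same tag
at `i`. -/
def Past {k : ℕ} {Init Col : Type} (i : Fin k) (a a' : Lab k Init Col) : Prop :=
  a.1 = a'.1 ∧ (∀ i', i' < i → a.2 i' = a'.2 i') ∧ (a.2 i).1 = (a'.2 i).1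

/-- The two labels have the same entries after phase `i`. -/
def Fut {k : ℕ} {Init Col : Type} (i : Fin k) (a b : Lab k Init Col) : Prop :=
  ∀ i', i < i' → a.2 i' = b.2 i'

/-- The combinatorial data behind the fooling pair. -/
structure Blueprint (k : ℕ) (Init Col : Type) where
  side : Init → Bool
  Eff : Fin k → Bool → Bool → (Col ≃ Col)
  P : Fin k → Lab k Init Col → Lab k Init Col → Prop
  CR : Bool → Col → Col → Prop
  Good : Lab k Init Col → Prop
  I : Finset (Lab k Init Col)
  J : Lab k Init Col → Lab k Init Col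
  P_local : ∀ i a b a' b', Past i a a' → Past i b b' → P i a b → P i a' b'
  P_side : ∀ i a b, P i a b → side a.1 ≠ side b.1
  CR_ne : ∀ X c c', CR X c c' → c ≠ c'
  ban : ∀ i a b c X X', P i a b → Fut i a b → (a.2 i).2 = Eff i (a.2 i).1 X c →
    (b.2 i).2 = Eff i (b.2 i).1 X' c → ¬ (Good a ∧ Good b)
  no : ∀ i a b c c' X X', P i a b → Fut i a b → X ≠ X' → CR X' c c' →
    (a.2 i).2 = Eff i (a.2 i).1 X c → (b.2 i).2 = Eff i (b.2 i).1 X c' → ¬ (Good a ∧ Good b)
  J_inj : Set.InjOn J I
  J_notMem : ∀ a ∈ I, J a ∉ I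
  good_I : ∀ a ∈ I, Good a ∧ Good (J a)
  link : ∀ a ∈ I, ∃ i, P i a (J a) ∧ Fut i a (J a) ∧
    ∀ X, CR X ((Eff i (a.2 i).1 X).symm (a.2 i).2) ((Eff i ((J a).2 i).1 X).symm ((J a).2 i).2)

end Pool.Agent.P.MP_548a57_lc
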