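import Pool.Agent.P.MP_548a57_lc.Tree
import Pool.Agent.P.MP_548a57_lc.Blueprint

/-!
The random walk blueprint: definitions and the basic description of the step word.
-/

namespace Pool.Agent.P.MP_548a57_lc

open Finset

noncomputable instance AdFintype (D t : ℕ) : Fintype (Ad D t) := Fintype.ofFinite _

/-- Colours: an option and a reshuffling of the future steps. -/
abbrev Cl (D : ℕ) : Type := Option Bool × Ad D 0

/-- Labels of the walk blueprint: side, starting time, and `D * M` phases. -/
abbrev WL (D M S : ℕ) : Type := Lab (D * M) (Bool × Fin S) (Cl D)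

/-- The section at time `t`, as an element of the big group. -/
noncomputable def secA {D : ℕ} (t : ℕ) (g : Ad D 0) : Ad D 0 :=
  ⟨sec t g, Ad_anti (Nat.zero_le t) (sec_mem t g)⟩

theorem secA_mem {D : ℕ} (t : ℕ) (g : Ad D 0) : (secA t g).1 ∈ Ad D t := sec_mem t g

theorem secA_zero {D : ℕ} (g : Ad D 0) : secA 0 g = g := Subtype.ext (sec_zero g)

theorem secA_mul_left {D : ℕ} (t : ℕ) (h g : Ad D 0) (hh : h.1 ∈ Ad D t) :
    secA t (h * g) = h * secA t g := Subtype.ext (sec_mul_left t h g hh)

theorem secA_mul_right {D : ℕ} (t : ℕ) (g h : Ad D 0) (hh : h.1 ∈ Ad D t) :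
    secA t (g * h) = secA t g * h := Subtype.ext (sec_mul_right t g h hh)

variable {D M S : ℕ}

/-- The reshuffling applied in phase `n`. -/
noncomputable def del (a : WL D M S) (n : ℕ) : Ad D 0 :=
  if h : n < D * M then secA (n / M) (a.2 ⟨n, h⟩).2.2 else 1

/-- The ordered product of `m` reshufflings from phase `s` on. -/
noncomputable def prodFrom (a : WL D M S) (s : ℕ) : ℕ → Ad D 0
  | 0 => 1
  | m + 1 => prodFrom a s m * del a (s + m)

/-- The product of the reshufflings before phase `i`. -/
noncomputable def Fr (a : WL D M S) (i : ℕ) : Ad D 0 := prodFrom a 0 i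

/-- The product of the reshufflings from phase `i` on. -/
noncomputable def Tl (a : WL D M S) (i : ℕ) : Ad D 0 := prodFrom a i (D * M - i)

/-- The word of zeros. -/
def zw (D : ℕ) : Str D := fun _ => false

/-- The step word of a label. -/
noncomputable def sig (a : WL D M S) : Str D := (Fr a (D * M)).1 (zw D)

/-- The provisional step word at phase `i`. -/
noncomputable def xs (a : WL D M S) (i : ℕ) : Str D := (Fr a i).1 (zw D)

/-- The frame at phase `i`. -/
noncomputable def psi (a : WL D M S) (i : ℕ) : Ad D 0 := secA (i / M) (Fr a i)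

theorem del_mem (a : WL D M S) (n : ℕ) : (del a n).1 ∈ Ad D (n / M) := by
  unfold del
  split_ifs
  · exact secA_mem _ _
  · exact Subgroup.one_mem _

theorem prodFrom_mem (a : WL D M S) (s m : ℕ) : (prodFrom a s m).1 ∈ Ad D (s / M) := by
  induction m with
  | zero => exact Subgroup.one_mem _
  | succ m ih =>
    show ((prodFrom a s m).1 * (del a (s + m)).1) ∈ _
    exact Subgroup.mul_mem _ ih
      (Ad_anti (Nat.div_le_div_right (Nat.le_add_right s m)) (del_mem a (s + m)))

theorem prodFrom_add (a : WL D M S) (s m m' : ℕ) :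
    prodFrom a s (m + m') = prodFrom a s m * prodFrom a (s + m) m' := by
  induction m' with
  | zero => simp [prodFrom]
  | succ m' ih =>
    show prodFrom a s (m + m') * del a (s + (m + m')) =
      prodFrom a s m * (prodFrom a (s + m) m' * del a (s + m + m'))
    rw [ih, mul_assoc, add_assoc]

theorem prodFrom_congr (a b : WL D M S) (s m : ℕ)
    (h : ∀ n, s ≤ n → n < s + m → del a n = del b n) : prodFrom a s m = prodFrom b s m := by
  induction m with
  | zero => rfl
  | succ m ih =>
    show prodFrom a s m * del a (s + m) = prodFrom b s m * del b (s + m)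
    rw [ih (fun n h1 h2 => h n h1 (by omega)), h (s + m) (by omega) (by omega)]

theorem del_congr (a b : WL D M S) (n : ℕ)
    (h : ∀ hn : n < D * M, (a.2 ⟨n, hn⟩).2.2 = (b.2 ⟨n, hn⟩).2.2) : del a n = del b n := by
  unfold del
  split_ifs with hn
  · rw [h hn]
  · rfl

theorem Fr_succ (a : WL D M S) (i : ℕ) : Fr a (i + 1) = Fr a i * del a i := by
  show prodFrom a 0 i * del a (0 + i) = _
  rw [zero_add]; rfl

theorem Fr_add (a : WL D M S) (i m : ℕ) : Fr a (i + m) = Fr a i * prodFrom a i m := by
  unfold Fr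
  rw [prodFrom_add, zero_add]

theorem Fr_total (a : WL D M S) (i : ℕ) (hi : i ≤ D * M) : Fr a (D * M) = Fr a i * Tl a i := by
  unfold Tl
  rw [← Fr_add, Nat.add_sub_cancel' hi]

theorem Tl_succ (a : WL D M S) (i : ℕ) (hi : i < D * M) : Tl a i = del a i * Tl a (i + 1) := by
  unfold Tl
  have : D * M - i = 1 + (D * M - (i + 1)) := by omega
  rw [this, prodFrom_add]
  have h1 : prodFrom a i 1 = del a i := by
    show (1 : Ad D 0) * del a (i + 0) = _
    simp
  rw [h1]

theorem Tl_mem (a : WL D M S) (i : ℕ) : (Tl a i).1 ∈ Ad D (i / M) := prodFrom_mem a i _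

/-- An element of `Ad D t` sends the zero word to a word that vanishes before `t`. -/
theorem zer_eq_of_mem {t : ℕ} {g : Equiv.Perm (Str D)} (hg : g ∈ Ad D t) :
    zer t (g (zw D)) = g (zw D) := by
  funext n
  unfold zer
  split_ifs with h
  · rw [hg.1 _ _ h]; rfl
  · rfl

/-- Before time `t` a word `F y`, with `y` vanishing before `t`, agrees with `F 0`. -/
theorem apply_pre (F : Ad D 0) {t : ℕ} {g : Equiv.Perm (Str D)} (hg : g ∈ Ad D t) (n : Fin D)
    (hn : n.val < t) : F.1 (g (zw D)) n = F.1 (zw D) n := by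
  have h1 : Agree 0 t (g (zw D)) (zw D) := fun m _ hm => hg.1 _ _ hm
  exact ((F.2.2 _ _ t).1 h1) n (Nat.zero_le _) hn

/-- From time `t` on, `F y` is computed by the section. -/
theorem apply_suf (F : Ad D 0) {t : ℕ} {g : Equiv.Perm (Str D)} (hg : g ∈ Ad D t) (n : Fin D)
    (hn : t ≤ n.val) : F.1 (g (zw D)) n = (secA t F).1 (g (zw D)) n := by
  show _ = secFun t F.1 _ n
  unfold secFun
  rw [if_neg (by omega), zer_eq_of_mem hg]

theorem sig_pre (a : WL D M S) (i : ℕ) (hi : i ≤ D * M) (n : Fin D) (hn : n.val < i / M) :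
    sig a n = xs a i n := by
  unfold sig xs
  rw [Fr_total a i hi]
  exact apply_pre (Fr a i) (Tl_mem a i) n hn

theorem sig_suf (a : WL D M S) (i : ℕ) (hi : i ≤ D * M) (n : Fin D) (hn : i / M ≤ n.val) :
    sig a n = (psi a i).1 ((Tl a i).1 (zw D)) n := by
  unfold sig psi
  rw [Fr_total a i hi]
  exact apply_suf (Fr a i) (Tl_mem a i) n hn

/-- The modification applied in a phase of round `t`, given the tag and the effective option. -/
noncomputable def rr (D t : ℕ) : Bool → Option Bool → Ad D 0
  | false, none => 1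
  | false, some _ => kap D t
  | true, some false => kap D t
  | true, none => 1
  | true, some true => 1

theorem rr_mem (D t : ℕ) (τ : Bool) (o : Option Bool) : (rr D t τ o).1 ∈ Ad D t := by
  rcases τ with _ | _ <;> rcases o with _ | _ | _ <;>
    first | exact Subgroup.one_mem _ | exact kap_mem D t

/-- Effective colour from the raw colour, the tag and the declared bit. -/
noncomputable def effW (D t : ℕ) (τ X : Bool) : Cl D ≃ Cl D where
  toFun c := (c.1.map (xor X), rr D t τ (c.1.map (xor X)) * c.2)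
  invFun c := (c.1.map (xor X), (rr D t τ c.1)⁻¹ * c.2)
  left_inv c := by
    rcases c with ⟨_ | o, g⟩ <;> simp
  right_inv c := by
    rcases c with ⟨_ | o, g⟩ <;> simp

/-- The link rule. -/
def linkW (K : ℤ) (i : Fin (D * M)) (a b : WL D M S) : Prop :=
  a.1.1 ≠ b.1.1 ∧ (a.2 i).1 = false ∧ (b.2 i).1 = true ∧ psi a i = 1 ∧
    psi b i = mir D (i / M) ∧ ∃ u v : ℤ, AliveW K a.1.2 (xs a i) (i / M) u ∧
      AliveW K b.1.2 (xs b i) (i / M) v ∧ u + v + 2 ≤ K

/-- The colour rule of an edge. -/
def crW (X : Bool) (c c' : Cl D) : Prop := c.1 = none ∧ c'.1 = some X ∧ c.2 = c'.2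

/-- Good labels. -/
def goodL (K : ℤ) (a : WL D M S) : Prop := GoodW K a.1.2 (sig a)

/-- The label is served as a low vertex in phase `i`. -/
def servedLow (a : WL D M S) (i : Fin (D * M)) : Prop :=
  i.val % M ≠ 0 ∧ psi a i = 1 ∧ (a.2 i).1 = false ∧ (a.2 i).2.1 = none

/-- The label is served as a high vertex in phase `i`. -/
def servedHigh (a : WL D M S) (i : Fin (D * M)) : Prop :=
  i.val % M ≠ 0 ∧ psi a i = mir D (i / M) ∧ (a.2 i).1 = true ∧ (a.2 i).2.1 = some false

end Pool.Agent.P.MP_548a57_lc
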