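import Pool.Agent.P.MP_548a57_lc.Blue

/-!
The walk blueprint: the step word is uniform, and few labels stay unserved for a whole round.
-/

namespace Pool.Agent.P.MP_548a57_lc

open Finset

variable {D M S : ℕ}

theorem bc_Fr_split (hk : 0 < D * M) (a : WL D M S) :
    Fr a (D * M) = (a.2 ⟨0, hk⟩).2.2 * Tl a 1 := by
  rw [Fr_total a 0 (Nat.zero_le _), Tl_succ a 0 hk]
  have h0 : Fr a 0 = 1 := rfl
  rw [h0, one_mul, del, dif_pos hk, Nat.zero_div, secA_zero]

open Classical in
theorem bc_fibre_le (hk : 0 < D * M) (y y' : Fin S × Str D) :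
    (univ.filter fun a : WL D M S => (a.1.2, sig a) = y).card ≤
      (univ.filter fun a : WL D M S => (a.1.2, sig a) = y').card := by
  let v : Str D := fun n => xor (y.2 n) (y'.2 n)
  let F : WL D M S → WL D M S := fun a => ((a.1.1, y'.1), Function.update a.2 ⟨0, hk⟩
    ((a.2 ⟨0, hk⟩).1, (a.2 ⟨0, hk⟩).2.1, tra v * (a.2 ⟨0, hk⟩).2.2))
  refine card_le_card_of_injOn F (fun a ha => ?_) fun a ha b hb hab => ?_
  · simp only [coe_filter, mem_univ, true_and, Set.mem_ofPred_eq] at ha ⊢
    refine Prod.ext rfl ?_
    have hT : Tl (F a) 1 = Tl a 1 := prodFrom_congr _ _ _ _ fun n h1 _ =>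
      del_congr _ _ _ fun hn => by
        simp only [F]
        rw [Function.update_of_ne (by simp only [ne_eq, Fin.mk.injEq]; omega)]
    have hs : sig (F a) = (tra v).1 (sig a) := by
      unfold sig
      rw [bc_Fr_split hk, bc_Fr_split hk, hT]
      simp [F]
    funext n
    have h2 : sig a = y.2 := congrArg Prod.snd ha
    simp only [hs, tra_apply, h2, v]
    cases y.2 n <;> cases y'.2 n <;> rfl
  · simp only [coe_filter, mem_univ, true_and, Set.mem_ofPred_eq] at ha hb
    have h1 : a.1.1 = b.1.1 := congrArg (fun x => x.1.1) hab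
    have h2 : a.1.2 = b.1.2 := (congrArg Prod.fst ha).trans (congrArg Prod.fst hb).symm
    refine Prod.ext (Prod.ext h1 h2) (funext fun n => ?_)
    have h3 := congrFun (congrArg Prod.snd hab) n
    by_cases hn : n = ⟨0, hk⟩
    · subst hn
      simp only [F, Function.update_self, Prod.mk.injEq, mul_right_inj] at h3
      exact Prod.ext h3.1 (Prod.ext h3.2.1 h3.2.2)
    · simpa only [F, Function.update_of_ne hn] using h3

/-- Change the group entry of phase `j` and the tag and the option of phase `i`. -/
noncomputable def bc_md (j i : Fin (D * M)) (a : WL D M S) (x : Ad D 0 × Bool × Option Bool) :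
    WL D M S :=
  (a.1, fun n => if n = i then (x.2.1, x.2.2, (a.2 n).2.2) else
    if n = j then ((a.2 n).1, (a.2 n).2.1, (a.2 n).2.2 * x.1) else a.2 n)

open Classical in
theorem bc_step (t r : ℕ) (ht : t < D) (hr : r + 1 < M) :
    (univ.filter fun a : WL D M S => ∀ i : Fin (D * M), i.val / M = t → i.val % M < r + 1 →
        ¬ servedLow a i).card * (6 * Fintype.card (Ad D 0) - 1) ≥
      (univ.filter fun a : WL D M S => ∀ i : Fin (D * M), i.val / M = t → i.val % M < r + 2 →
        ¬ servedLow a i).card * (6 * Fintype.card (Ad D 0)) := by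
  have hM : 0 < M := by omega
  have hlt : M * t + (r + 1) < D * M := by
    have : M * (t + 1) ≤ M * D := Nat.mul_le_mul_left _ ht
    rw [Nat.mul_comm D M]
    rw [Nat.mul_succ] at this
    omega
  let i : Fin (D * M) := ⟨M * t + (r + 1), hlt⟩
  let j : Fin (D * M) := ⟨M * t + r, by omega⟩
  have hi1 : i.val / M = t := by
    simp only [i]; rw [Nat.mul_add_div hM, Nat.div_eq_of_lt hr, add_zero]
  have hi2 : i.val % M = r + 1 := by
    simp only [i]; rw [Nat.mul_add_mod, Nat.mod_eq_of_lt hr]
  have hj1 : j.val / M = t := by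
    simp only [j]; rw [Nat.mul_add_div hM, Nat.div_eq_of_lt (by omega), add_zero]
  have hij : j ≠ i := by simp only [ne_eq, Fin.mk.injEq, i, j]; omega
  set A := univ.filter fun a : WL D M S => ∀ i : Fin (D * M), i.val / M = t → i.val % M < r + 1 →
    ¬ servedLow a i with hA
  set A' := univ.filter fun a : WL D M S => ∀ i : Fin (D * M), i.val / M = t → i.val % M < r + 2 →
    ¬ servedLow a i with hA'
  have hsplit : A'.card + (A.filter fun a => servedLow a i).card ≤ A.card := by
    rw [← card_union_of_disjoint]
    · refine card_le_card (union_subset (fun a ha => ?_) (filter_subset _ _))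
      simp only [hA, hA', mem_filter, mem_univ, true_and] at ha ⊢
      exact fun n h1 h2 => ha n h1 (by omega)
    · rw [disjoint_left]
      intro a ha hb
      simp only [hA', mem_filter, mem_univ, true_and] at ha
      exact ha i hi1 (by omega) (mem_filter.1 hb).2
  have hFr : ∀ (a : WL D M S) x (n : ℕ), n ≤ j.val → Fr (bc_md j i a x) n = Fr a n :=
    fun a x n hn => prodFrom_congr _ _ _ _ fun m _ h2 => del_congr _ _ _ fun hm => by
      have e1 : (⟨m, hm⟩ : Fin (D * M)) ≠ i := by
        simp only [ne_eq, Fin.mk.injEq, i]; simp only [j] at hn; omega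
      have e2 : (⟨m, hm⟩ : Fin (D * M)) ≠ j := by
        simp only [ne_eq, Fin.mk.injEq, j]; simp only [j] at hn; omega
      simp only [bc_md, if_neg e1, if_neg e2]
  have hpsi : ∀ (a : WL D M S) (x : Ad D 0 × Bool × Option Bool), x.1.1 ∈ Ad D t →
      psi (bc_md j i a x) i = psi a i * x.1 := by
    intro a x hx
    have e : i.val = j.val + 1 := rfl
    have hd : del (bc_md j i a x) j = del a j * x.1 := by
      unfold del
      rw [dif_pos j.2, dif_pos j.2, hj1, ← secA_mul_right _ _ _ hx]
      simp only [bc_md, Fin.eta, if_neg hij, if_true]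
    unfold psi
    rw [hi1, e, Fr_succ, Fr_succ, hFr a x _ le_rfl, hd, ← mul_assoc, secA_mul_right _ _ _ hx]
  have hcov : A ⊆ ((A.filter fun a => servedLow a i) ×ˢ univ).image
      fun p => bc_md j i p.1 p.2 := by
    intro a ha
    have hmem : (psi a i)⁻¹.1 ∈ Ad D t := by
      have := secA_mem (i.val / M) (Fr a i)
      rw [hi1] at this
      unfold psi
      rw [hi1]
      exact (Ad D t).inv_mem this
    refine mem_image.2 ⟨(bc_md j i a ((psi a i)⁻¹, false, none),
      (psi a i, (a.2 i).1, (a.2 i).2.1)), mem_product.2 ⟨mem_filter.2 ⟨?_, ?_⟩, mem_univ _⟩, ?_⟩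
    · simp only [hA, mem_filter, mem_univ, true_and] at ha ⊢
      intro n h1 h2 hs
      have hn : n.val ≤ j.val := by
        have := Nat.div_add_mod n.val M
        rw [h1] at this
        simp only [j]; omega
      have e1 : n ≠ i := by
        intro e; rw [e, hi2] at h2; omega
      refine ha n h1 h2 ⟨hs.1, ?_, ?_, ?_⟩
      · have := hs.2.1
        unfold psi at this ⊢
        rwa [hFr _ _ _ hn] at this
      · have := hs.2.2.1
        simp only [bc_md, if_neg e1] at this
        split_ifs at this <;> exact this
      · have := hs.2.2.2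
        simp only [bc_md, if_neg e1] at this
        split_ifs at this <;> exact this
    · refine ⟨by rw [hi2]; omega, ?_, by simp [bc_md], by simp [bc_md]⟩
      rw [hpsi _ _ hmem, mul_inv_cancel]
    · refine Prod.ext rfl (funext fun n => ?_)
      by_cases e1 : n = i
      · subst e1; simp [bc_md]
      · by_cases e2 : n = j
        · subst e2; simp [bc_md, e1]
        · simp [bc_md, e1, e2]
  have hle := (card_le_card hcov).trans card_image_le
  rw [card_product, card_univ, Fintype.card_prod, Fintype.card_prod, Fintype.card_option,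
    Fintype.card_bool] at hle
  have hN : 0 < Fintype.card (Ad D 0) := Fintype.card_pos
  obtain ⟨N, hN'⟩ : ∃ N, 6 * Fintype.card (Ad D 0) = N + 1 := ⟨_, (Nat.sub_add_cancel (by omega)).symm⟩
  have e : Fintype.card (Ad D 0) * (2 * (2 + 1)) = N + 1 := by omega
  rw [e] at hle
  rw [hN', Nat.add_sub_cancel]
  nlinarith

open Classical in
theorem count_sig (hk : 0 < D * M) (E : Fin S × Str D → Prop) :
    (univ.filter fun a : WL D M S => E (a.1.2, sig a)).card * (S * 2 ^ D) =
      (univ.filter E).card * Fintype.card (WL D M S) := by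
  have hc : ∀ y y' : Fin S × Str D,
      (univ.filter fun a : WL D M S => (a.1.2, sig a) = y).card =
        (univ.filter fun a : WL D M S => (a.1.2, sig a) = y').card :=
    fun y y' => le_antisymm (bc_fibre_le hk y y') (bc_fibre_le hk y' y)
  have h1 : (univ.filter fun a : WL D M S => E (a.1.2, sig a)).card =
      ∑ y ∈ univ.filter E, (univ.filter fun a : WL D M S => (a.1.2, sig a) = y).card := by
    rw [card_eq_sum_card_fiberwise (f := fun a : WL D M S => (a.1.2, sig a)) (t := univ.filter E)
      fun a ha => by simpa using ha]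
    refine sum_congr rfl fun y hy => congrArg card ?_
    ext a
    simp only [mem_filter, mem_univ, true_and, and_iff_right_iff_imp] at hy ⊢
    rintro rfl
    exact hy
  have h2 : ∀ y : Fin S × Str D, (univ.filter fun a : WL D M S => (a.1.2, sig a) = y).card *
      (S * 2 ^ D) = Fintype.card (WL D M S) := by
    intro y
    rw [← card_univ, card_eq_sum_card_fiberwise (f := fun a : WL D M S => (a.1.2, sig a))
      (s := univ) (t := univ) fun a _ => by simp, sum_congr rfl fun y' _ => hc y' y]
    simp [mul_comm]
  rw [h1, sum_mul, sum_congr rfl fun y _ => h2 y, sum_const, smul_eq_mul]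

open Classical in
theorem count_unserved (t : ℕ) (ht : t < D) :
    ((univ.filter fun a : WL D M S =>
        ∀ i : Fin (D * M), i.val / M = t → ¬ servedLow a i).card : ℝ) ≤
      (1 - 1 / (6 * (Fintype.card (Ad D 0) : ℝ))) ^ (M - 1) * Fintype.card (WL D M S) := by
  have hN : (1 : ℝ) ≤ Fintype.card (Ad D 0) := by exact_mod_cast Fintype.card_pos
  have hq : 0 ≤ 1 - 1 / (6 * (Fintype.card (Ad D 0) : ℝ)) := by
    rw [sub_nonneg, div_le_one (by positivity)]; linarith
  have key : ∀ r, r < M ∨ r = 0 → ((univ.filter fun a : WL D M S => ∀ i : Fin (D * M),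
      i.val / M = t → i.val % M < r + 1 → ¬ servedLow a i).card : ℝ) ≤
      (1 - 1 / (6 * (Fintype.card (Ad D 0) : ℝ))) ^ r * Fintype.card (WL D M S) := by
    intro r hr
    induction r with
    | zero =>
      rw [pow_zero, one_mul]
      exact_mod_cast card_le_univ _
    | succ r ih =>
      have hr' : r + 1 < M := by omega
      have h1 := bc_step (S := S) t r ht hr'
      have h2 : (1 : ℕ) ≤ 6 * Fintype.card (Ad D 0) := by
        have : 0 < Fintype.card (Ad D 0) := Fintype.card_pos
        omega
      have h3 := (Nat.cast_le (α := ℝ)).2 h1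
      rw [Nat.cast_mul, Nat.cast_mul, Nat.cast_mul, Nat.cast_sub h2] at h3
      push_cast at h3
      have h4 := ih (Or.inl (by omega))
      rw [pow_succ, mul_right_comm]
      refine le_trans ?_ (mul_le_mul_of_nonneg_right h4 hq)
      rw [one_sub_div (by positivity), ← mul_div_assoc, le_div_iff₀ (by positivity)]
      exact h3
  refine le_trans ?_ (key (M - 1) (by omega))
  refine Nat.cast_le.2 (card_le_card fun a ha => ?_)
  simp only [mem_filter, mem_univ, true_and] at ha ⊢
  exact fun i h1 _ => ha i h1

end Pool.Agent.P.MP_548a57_lc
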