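import Pool.Agent.P.MP_548a57_lc.Walk

/-!
Counting walks.
-/

namespace Pool.Agent.P.MP_548a57_lc

open Finset

/-- Rotation of a word. -/
def rot {D : ℕ} (s : Fin D) (x : Str D) : Str D :=
  haveI : NeZero D := ⟨s.pos.ne'⟩
  fun m => x (m + s)

theorem rot_injective {D : ℕ} (s : Fin D) : Function.Injective (rot s) := by
  have : NeZero D := ⟨s.pos.ne'⟩
  intro x y h
  funext m
  have := congrFun h (m - s)
  simpa [rot] using this

theorem wk_rot {D : ℕ} (s : Fin D) (x : Str D) {n : ℕ} (h : s.val + n ≤ D) :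
    wk (rot s x) 0 n = wk x s n := by
  unfold wk
  refine sum_congr rfl fun m hm => ?_
  have hm' := mem_range.1 hm
  have h1 : 0 + m < D := by omega
  have h2 : s.val + m < D := by omega
  unfold stepv
  rw [dif_pos h1, dif_pos h2]
  have : NeZero D := ⟨s.pos.ne'⟩
  have h3 : (⟨0 + m, h1⟩ : Fin D) + s = ⟨s.val + m, h2⟩ := by
    ext
    rw [Fin.val_add]
    simp only
    rw [Nat.mod_eq_of_lt (by omega)]
    omega
  simp only [rot, h3]

theorem newMin_rot {D : ℕ} (K : ℤ) (s : Fin D) (x : Str D) {t : ℕ} (ht : t < D) (a : ℤ) :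
    NewMin K s x t a ↔ s.val ≤ t ∧ NewMin K 0 (rot s x) (t - s) a := by
  unfold NewMin lev
  refine and_congr_right fun hs => ?_
  simp only [Nat.sub_zero, Nat.zero_le, true_and]
  rw [wk_rot s x (by omega)]
  refine and_congr_right fun _ => forall_congr' fun n => forall_congr' fun hn => ?_
  rw [wk_rot s x (by omega)]

theorem newMin_zero_unique {D : ℕ} {K : ℤ} {x : Str D} {n n' : ℕ} {a : ℤ}
    (h : NewMin K 0 x n a) (h' : NewMin K 0 x n' a) : n = n' := by
  obtain ⟨-, h1, h2⟩ := h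
  obtain ⟨-, h3, h4⟩ := h'
  rw [Nat.sub_zero] at h1 h2 h3 h4
  rcases lt_trichotomy n n' with h | h | h
  · have := (h4 n h).1
    omega
  · exact h
  · have := (h2 n' h).1
    omega

theorem newMin_zero_up {D : ℕ} {K : ℤ} {x : Str D} {n : ℕ} {a b : ℤ} (hab : a ≤ b)
    (hb : b ≤ K - 1) (h : NewMin K 0 x n a) : ∃ n', n' ≤ n ∧ NewMin K 0 x n' b := by
  classical
  obtain ⟨-, h1, h2⟩ := h
  rw [Nat.sub_zero] at h1 h2
  have hex : ∃ m, lev K 0 x m ≤ b := ⟨n, by omega⟩
  have h3 : Nat.find hex ≤ n := Nat.find_min' hex (by omega)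
  have h4 := Nat.find_spec hex
  have h5 : ∀ m, m < Nat.find hex → b < lev K 0 x m := fun m hm => not_le.1 (Nat.find_min hex hm)
  refine ⟨Nat.find hex, h3, Nat.zero_le _, ?_, fun m hm => ?_⟩
  · rw [Nat.sub_zero]
    generalize Nat.find hex = k at h4 h5
    cases k with
    | zero =>
      unfold lev at h4 ⊢
      rw [wk_zero] at h4 ⊢
      omega
    | succ k =>
      have h6 := h5 k (by omega)
      have h7 := le_stepv x (0 + k)
      unfold lev at h4 h6 ⊢
      rw [wk_succ] at h4 ⊢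
      omega
  · rw [Nat.sub_zero] at hm
    exact ⟨h5 m hm, (h2 m (by omega)).2⟩

open Classical in
theorem count_newMin_eq {D S : ℕ} (hSD : S ≤ D) (K : ℤ) {t : ℕ} (ht : t < S) (a : ℤ) :
    (univ.filter fun p : Fin S × Str D => NewMin K p.1 p.2 t a).card =
      (univ.filter fun x : Str D => ∃ n, n ≤ t ∧ NewMin K 0 x n a).card := by
  refine card_bij (fun p _ => rot (Fin.castLE hSD p.1) p.2) (fun p hp => ?_)
    (fun p hp q hq hpq => ?_) (fun x hx => ?_)
  · have h1 := (newMin_rot K (Fin.castLE hSD p.1) p.2 (by omega) a).1 (mem_filter.1 hp).2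
    exact mem_filter.2 ⟨mem_univ _, _, Nat.sub_le _ _, h1.2⟩
  · have h1 := (newMin_rot K (Fin.castLE hSD p.1) p.2 (by omega) a).1 (mem_filter.1 hp).2
    have h2 := (newMin_rot K (Fin.castLE hSD q.1) q.2 (by omega) a).1 (mem_filter.1 hq).2
    rw [hpq] at h1
    have h3 := newMin_zero_unique h1.2 h2.2
    have h4 := h1.1
    have h5 := h2.1
    simp only [Fin.val_castLE] at h3 h4 h5
    have h6 : p.1 = q.1 := Fin.ext (by omega)
    rw [h6] at hpq
    exact Prod.ext h6 (rot_injective _ hpq)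
  · obtain ⟨n, hn, h1⟩ := (mem_filter.1 hx).2
    let s : Fin S := ⟨t - n, by omega⟩
    obtain ⟨y, rfl⟩ := (Finite.injective_iff_surjective.1 (rot_injective (Fin.castLE hSD s))) x
    refine ⟨(s, y), mem_filter.2 ⟨mem_univ _, ?_⟩, rfl⟩
    refine (newMin_rot K (Fin.castLE hSD s) y (by omega) a).2 ⟨Nat.sub_le _ _, ?_⟩
    have h2 : t - (Fin.castLE hSD s).val = n := by
      simp only [Fin.val_castLE, s]
      omega
    rw [h2]
    exact h1

open Classical in
/-- With staggered starts, a higher level is reached for the first time at least as often. -/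
theorem count_newMin_le {D S : ℕ} (hSD : S ≤ D) (K : ℤ) {t : ℕ} (ht : t < S) {a b : ℤ}
    (hab : a ≤ b) (hb : b ≤ K - 1) :
    (univ.filter fun p : Fin S × Str D => NewMin K p.1 p.2 t a).card ≤
      (univ.filter fun p : Fin S × Str D => NewMin K p.1 p.2 t b).card := by
  rw [count_newMin_eq hSD K ht a, count_newMin_eq hSD K ht b]
  refine card_le_card fun x hx => ?_
  obtain ⟨n, hn, h1⟩ := (mem_filter.1 hx).2
  obtain ⟨n', hn', h2⟩ := newMin_zero_up hab hb h1
  exact mem_filter.2 ⟨mem_univ _, n', hn'.trans hn, h2⟩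

end Pool.Agent.P.MP_548a57_lc
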