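import Pool.Agent.P.MP_548a57_lc.BlueSafe
import Pool.Agent.P.MP_548a57_lc.WalkCount

/-!
The walk blueprint: the matching of low labels with high labels.
-/

namespace Pool.Agent.P.MP_548a57_lc

open Finset

variable {D M S : ℕ}

/-- The label has its minimum `u` in the round of phase `i`, ends well, and `i` is the first
phase of that round in which it is served as a low vertex. -/
def LowAt (K a₁ : ℤ) (a : WL D M S) (i : Fin (D * M)) (u : ℤ) : Prop :=
  Key K a.1.2 (sig a) (i / M) u ∧ 1 ≤ u ∧ u ≤ a₁ ∧ i.val / M < S ∧ servedLow a i ∧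
    ∀ i' : Fin (D * M), i' < i → i'.val / M = i.val / M → ¬ servedLow a i'

/-- The same for a high vertex. -/
def HighAt (K : ℤ) (b : WL D M S) (i : Fin (D * M)) (v : ℤ) : Prop :=
  Key K b.1.2 (sig b) (i / M) v ∧ servedHigh b i ∧
    ∀ i' : Fin (D * M), i' < i → i'.val / M = i.val / M → ¬ servedHigh b i'

/-- The partner of a label, given the new start `s'`, the translation `T` of phase `0` and the
correction `w` of the first phase `i₀` of the round. -/
noncomputable def partner (i₀ : ℕ) (i : Fin (D * M)) (a : WL D M S) (s' : Fin S)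
    (T w : Ad D 0) : WL D M S :=
  ((!a.1.1, s'), fun n =>
    if n.val = 0 then ((a.2 n).1, (a.2 n).2.1, T * (a.2 n).2.2)
    else if n.val = i₀ then ((a.2 n).1, (a.2 n).2.1, w * (a.2 n).2.2)
    else if i₀ < n.val ∧ n < i then
      (!(a.2 n).1, Equiv.swap none (some false) (a.2 n).2.1, (a.2 n).2.2)
    else if n = i then (true, some false, kap D (i / M) * (a.2 n).2.2)
    else a.2 n)

section

variable {i₀ : ℕ} {i : Fin (D * M)} (a : WL D M S) (s' : Fin S) (T w : Ad D 0)

theorem partner_zero (n : Fin (D * M)) (h : n.val = 0) :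
    (partner i₀ i a s' T w).2 n = ((a.2 n).1, (a.2 n).2.1, T * (a.2 n).2.2) := by
  simp only [partner, if_pos h]

theorem partner_first (h0 : 0 < i₀) (n : Fin (D * M)) (h : n.val = i₀) :
    (partner i₀ i a s' T w).2 n = ((a.2 n).1, (a.2 n).2.1, w * (a.2 n).2.2) := by
  simp only [partner, if_neg (show ¬ n.val = 0 by omega), if_pos h]

theorem partner_mid (n : Fin (D * M)) (h1 : i₀ < n.val) (h2 : n < i) :
    (partner i₀ i a s' T w).2 n =
      (!(a.2 n).1, Equiv.swap none (some false) (a.2 n).2.1, (a.2 n).2.2) := by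
  simp only [partner, if_neg (show ¬ n.val = 0 by omega), if_neg (show ¬ n.val = i₀ by omega),
    if_pos (And.intro h1 h2)]

theorem partner_at (h : i₀ < i.val) :
    (partner i₀ i a s' T w).2 i = (true, some false, kap D (i / M) * (a.2 i).2.2) := by
  simp only [partner, if_neg (show ¬ i.val = 0 by omega), if_neg (show ¬ i.val = i₀ by omega),
    lt_irrefl, and_false, if_false, if_true]

theorem partner_early (h : i₀ < i.val) (n : Fin (D * M)) (h1 : 0 < n.val) (h2 : n.val < i₀) :
    (partner i₀ i a s' T w).2 n = a.2 n := by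
  have h3 : ¬ n = i := fun e => by rw [e] at h2; omega
  simp only [partner, if_neg (show ¬ n.val = 0 by omega), if_neg (show ¬ n.val = i₀ by omega),
    if_neg (show ¬ (i₀ < n.val ∧ n < i) by omega), if_neg h3]

theorem partner_late (h : i₀ < i.val) (n : Fin (D * M)) (h1 : i < n) :
    (partner i₀ i a s' T w).2 n = a.2 n := by
  have h2 : i.val < n.val := h1
  have h3 : ¬ n = i := ne_of_gt h1
  have h4 : ¬ (i₀ < n.val ∧ n < i) := fun e => absurd e.2 (not_lt.2 h1.le)
  simp only [partner, if_neg (show ¬ n.val = 0 by omega), if_neg (show ¬ n.val = i₀ by omega),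
    if_neg h4, if_neg h3]

theorem Fr_one (b : WL D M S) (hk : 0 < D * M) : Fr b 1 = (b.2 ⟨0, hk⟩).2.2 := by
  rw [Fr_succ]
  unfold del
  rw [dif_pos hk, Nat.zero_div, secA_zero]
  exact one_mul _

theorem Fr_partner (h0 : 0 < i₀) (h : i₀ < i.val) :
    Fr (partner i₀ i a s' T w) i₀ = T * Fr a i₀ := by
  have hk : 0 < D * M := lt_of_le_of_lt (Nat.zero_le _) i.2
  obtain ⟨m, rfl⟩ : ∃ m, i₀ = 1 + m := ⟨i₀ - 1, by omega⟩
  rw [Fr_add, Fr_add, Fr_one _ hk, Fr_one _ hk, partner_zero a s' T w _ rfl, mul_assoc]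
  congr 2
  refine prodFrom_congr _ _ _ _ fun n h1 h2 => del_congr _ _ _ fun hn => ?_
  rw [partner_early a s' T w h ⟨n, hn⟩ h1 h2]

theorem psi_round (b : WL D M S) (t n : ℕ) (hM : 0 < M) (h1 : t * M < n) (h2 : n / M = t) :
    psi b n = secA t (Fr b (t * M)) *
      (del b (t * M) * prodFrom b (t * M + 1) (n - (t * M + 1))) := by
  have h3 : n = t * M + (1 + (n - (t * M + 1))) := by omega
  have h4 : prodFrom b (t * M) 1 = del b (t * M) := by
    show (1 : Ad D 0) * del b (t * M + 0) = _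
    simp
  have h5 : (prodFrom b (t * M) (1 + (n - (t * M + 1)))).1 ∈ Ad D t := by
    have := prodFrom_mem b (t * M) (1 + (n - (t * M + 1)))
    rwa [Nat.mul_div_cancel _ hM] at this
  unfold psi
  rw [h2]
  conv_lhs => rw [h3]
  rw [Fr_add, secA_mul_right _ _ _ h5, prodFrom_add, h4]

end

theorem psi_partner (i : Fin (D * M)) (a : WL D M S) (s' : Fin S) (T : Ad D 0) (hM : 0 < M)
    (h0 : 0 < i.val / M) (h : i.val / M * M < i.val) (n : ℕ) (h1 : i.val / M * M < n)
    (h2 : n ≤ i.val) :
    psi (partner (i / M * M) i a s' T ((secA (i / M) (T * Fr a (i / M * M)))⁻¹ * mir D (i / M) *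
      secA (i / M) (Fr a (i / M * M)))) n = mir D (i / M) * psi a n := by
  set t := i.val / M with ht
  set w := (secA t (T * Fr a (t * M)))⁻¹ * mir D t * secA t (Fr a (t * M)) with hw
  have hwm : w.1 ∈ Ad D t :=
    Subgroup.mul_mem _ (Subgroup.mul_mem _ (Subgroup.inv_mem _ (secA_mem _ _)) (mir_mem D t))
      (secA_mem _ _)
  have hn : n / M = t := by
    apply le_antisymm
    · exact Nat.div_le_div_right h2
    · exact (Nat.le_div_iff_mul_le hM).2 h1.le
  have hpos : 0 < t * M := Nat.mul_pos h0 hM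
  have hlt : t * M < D * M := lt_trans h i.2
  have hd : del (partner (t * M) i a s' T w) (t * M) = w * del a (t * M) := by
    unfold del
    rw [dif_pos hlt, dif_pos hlt, partner_first a s' T w hpos ⟨t * M, hlt⟩ rfl,
      Nat.mul_div_cancel _ hM, secA_mul_left _ _ _ hwm]
  have hp : prodFrom (partner (t * M) i a s' T w) (t * M + 1) (n - (t * M + 1)) =
      prodFrom a (t * M + 1) (n - (t * M + 1)) := by
    refine prodFrom_congr _ _ _ _ fun m h3 h4 => del_congr _ _ _ fun hm => ?_
    rw [partner_mid a s' T w ⟨m, hm⟩ h3 (show m < i.val by omega)]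
  rw [psi_round _ t n hM h1 hn, psi_round a t n hM h1 hn, Fr_partner a s' T w hpos h, hd, hp, hw]
  group

/-- The partner map for one phase and one level. -/
theorem partner_exists (hSD : S ≤ D) {K a₁ : ℤ} (hK : 2 * a₁ + 2 < K) (i : Fin (D * M))
    (u : ℤ) : ∃ J : WL D M S → WL D M S, Set.InjOn J {a | LowAt K a₁ a i u} ∧
      ∀ a, LowAt K a₁ a i u → HighAt K (J a) i (K - 2 - u) ∧ linkW K i a (J a) ∧
        Fut i a (J a) ∧ ((J a).2 i).2.2 = kap D (i / M) * (a.2 i).2.2 := by
  classical
  by_cases hne : ∃ a₀ : WL D M S, LowAt K a₁ a₀ i u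
  swap
  · exact ⟨id, Set.injOn_id _, fun a ha => absurd ⟨a, ha⟩ hne⟩
  obtain ⟨a₀, hkey₀, hu1, hu2, htS, hsv₀, -⟩ := hne
  set t := i.val / M with ht
  have hk : 0 < D * M := lt_of_le_of_lt (Nat.zero_le _) i.2
  have hM : 0 < M := Nat.pos_of_mul_pos_left hk
  have hlt : t * M < i.val := by
    have h1 := Nat.div_add_mod i.val M
    have h2 := hsv₀.1
    rw [← ht, mul_comm] at h1
    omega
  have ht0 : 0 < t := by
    by_contra h
    have h1 : t = 0 := Nat.eq_zero_of_not_pos h
    obtain ⟨h2, h3, -⟩ := hkey₀.1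
    rw [h1, Nat.zero_sub] at h3
    unfold lev at h3
    rw [wk_zero] at h3
    omega
  have hpos : 0 < t * M := Nat.mul_pos ht0 hM
  have hdiv : t * M / M = t := Nat.mul_div_cancel _ hM
  have hle : t * M ≤ D * M := (lt_trans hlt i.2).le
  -- the injection on starts and words
  have hcount := count_newMin_le hSD K htS (a := u) (b := K - 2 - u) (by omega) (by omega)
  have : Nonempty (Fin S × Str D) := ⟨(a₀.1.2, zw D)⟩
  set A₁ : Finset (Fin S × Str D) := univ.filter fun p => NewMin K p.1 p.2 t u with hA₁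
  set A₂ : Finset (Fin S × Str D) := univ.filter fun p => NewMin K p.1 p.2 t (K - 2 - u) with hA₂
  obtain ⟨h, hh1, hh2⟩ := Set.Finite.exists_injOn_of_encard_le
    (s := (A₁ : Set (Fin S × Str D))) (t := (A₂ : Set (Fin S × Str D))) (finite_toSet _)
    (by rw [Set.encard_coe_eq_coe_finsetCard, Set.encard_coe_eq_coe_finsetCard]
        exact_mod_cast hcount)
  let pa : WL D M S → Fin S × Str D := fun a => (a.1.2, xs a (t * M))
  let Ta : WL D M S → Ad D 0 := fun a => tra fun n => xor ((pa a).2 n) ((h (pa a)).2 n)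
  let wa : WL D M S → Ad D 0 := fun a =>
    (secA t (Ta a * Fr a (t * M)))⁻¹ * mir D t * secA t (Fr a (t * M))
  let J : WL D M S → WL D M S := fun a => partner (t * M) i a (h (pa a)).1 (Ta a) (wa a)
  have hpa : ∀ a, LowAt K a₁ a i u → NewMin K (pa a).1 (pa a).2 t u := by
    intro a ha
    refine newMin_congr (fun n hn => sig_pre a (t * M) hle n ?_) ha.1.1
    rwa [hdiv]
  have hmem : ∀ a, LowAt K a₁ a i u → pa a ∈ (A₁ : Set (Fin S × Str D)) :=
    fun a ha => mem_coe.2 (mem_filter.2 ⟨mem_univ _, hpa a ha⟩)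
  have hxs : ∀ a, xs (J a) (t * M) = (h (pa a)).2 := by
    intro a
    unfold xs
    rw [Fr_partner a _ _ _ hpos hlt]
    funext n
    show (Ta a).1 (xs a (t * M)) n = _
    rw [tra_apply]
    simp [pa]
  have hpsi : ∀ a n, t * M < n → n ≤ i.val → psi (J a) n = mir D t * psi a n :=
    fun a n h1 h2 => psi_partner i a _ _ hM ht0 hlt n h1 h2
  refine ⟨J, ?_, ?_⟩
  · intro a ha b hb hab
    have ha' : LowAt K a₁ a i u := ha
    have hb' : LowAt K a₁ b i u := hb
    have e1 : h (pa a) = h (pa b) := by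
      refine Prod.ext ?_ ?_
      · exact (congrArg (fun x : WL D M S => x.1.2) hab :)
      · rw [← hxs, ← hxs, hab]
    have e2 : pa a = pa b := hh2 (hmem a ha') (hmem b hb') e1
    have e3 : Ta a = Ta b := by simp only [Ta, e2]
    have e4 : ∀ n : Fin (D * M), n.val < t * M → a.2 n = b.2 n := by
      intro n hn
      have h1 : (J a).2 n = (J b).2 n := by rw [hab]
      rcases Nat.eq_zero_or_pos n.val with h0 | h0
      · simp only [J] at h1
        rw [partner_zero _ _ _ _ n h0, partner_zero _ _ _ _ n h0, e3] at h1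
        simp only [Prod.mk.injEq, mul_right_inj] at h1
        exact Prod.ext h1.1 (Prod.ext h1.2.1 h1.2.2)
      · simp only [J] at h1
        rwa [partner_early _ _ _ _ hlt n h0 hn, partner_early _ _ _ _ hlt n h0 hn] at h1
    have e5 : Fr a (t * M) = Fr b (t * M) := Fr_congr a b _ fun n hn => by rw [e4 n hn]
    have e6 : wa a = wa b := by simp only [wa, e3, e5]
    refine Prod.ext (Prod.ext ?_ (congrArg Prod.fst e2 :)) (funext fun n => ?_)
    · have h1 : (!a.1.1) = (!b.1.1) := (congrArg (fun x : WL D M S => x.1.1) hab :)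
      simpa using h1
    · have h1 : (J a).2 n = (J b).2 n := by rw [hab]
      simp only [J] at h1
      rcases lt_trichotomy n.val (t * M) with h2 | h2 | h2
      · exact e4 n h2
      · rw [partner_first _ _ _ _ hpos n h2, partner_first _ _ _ _ hpos n h2, e6] at h1
        simp only [Prod.mk.injEq, mul_right_inj] at h1
        exact Prod.ext h1.1 (Prod.ext h1.2.1 h1.2.2)
      · rcases lt_trichotomy n i with h3 | h3 | h3
        · rw [partner_mid _ _ _ _ n h2 h3, partner_mid _ _ _ _ n h2 h3] at h1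
          simp only [Prod.mk.injEq, Bool.not_inj_iff, EmbeddingLike.apply_eq_iff_eq] at h1
          exact Prod.ext h1.1 (Prod.ext h1.2.1 h1.2.2)
        · subst h3
          rw [partner_at _ _ _ _ hlt, partner_at _ _ _ _ hlt] at h1
          simp only [Prod.mk.injEq, mul_right_inj, true_and] at h1
          refine Prod.ext ?_ (Prod.ext ?_ h1)
          · rw [ha'.2.2.2.2.1.2.2.1, hb'.2.2.2.2.1.2.2.1]
          · rw [ha'.2.2.2.2.1.2.2.2, hb'.2.2.2.2.1.2.2.2]
        · rwa [partner_late _ _ _ _ hlt n h3, partner_late _ _ _ _ hlt n h3] at h1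
  · intro a ha
    have hat : (J a).2 i = (true, some false, kap D t * (a.2 i).2.2) := partner_at _ _ _ _ hlt
    have hfut : Fut i a (J a) := fun n hn => (partner_late _ _ _ _ hlt n hn).symm
    obtain ⟨⟨hnm, n₀, hn₀, hn₁⟩, -, -, -, ⟨hs1, hs2, hs3, hs4⟩, hfirst⟩ := id ha
    rw [← ht] at hnm hn₀ hn₁ hfirst
    have hpsi_i : psi (J a) i = mir D t := by rw [hpsi a i hlt le_rfl, hs2, mul_one]
    have hnm' : NewMin K (J a).1.2 (sig (J a)) t (K - 2 - u) := by
      have h1 : NewMin K (h (pa a)).1 (h (pa a)).2 t (K - 2 - u) :=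
        (mem_filter.1 (mem_coe.1 (hh1 (hmem a ha)))).2
      rw [← hxs] at h1
      refine newMin_congr (fun n hn => (sig_pre (J a) (t * M) hle n ?_).symm) h1
      rwa [hdiv]
    have hT : Tl a (i + 1) = Tl (J a) (i + 1) := Tl_congr _ _ _ fun n hn => by rw [hfut n hn]
    have hw1 : ∀ n, wk (sig a) t n =
        wk ((secA t (a.2 i).2.2 * Tl a (i + 1)).1 (zw D)) t n := by
      intro n
      rw [wk_sig a i 1 (a.2 i).2.2 (Subgroup.one_mem _) (one_mul _).symm, hs2]
      rfl
    have hw2 : ∀ n, n ≤ n₀ → wk (sig (J a)) t n = wk (sig a) t n := by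
      intro n hn
      rw [wk_sig (J a) i (kap D t) (a.2 i).2.2 (kap_mem D t) (by rw [hat]), hpsi_i, wk_mir, ← hT,
        kap_eq t _ n₀ (fun n' hn' => by rw [← hw1]; exact hn₁ n' hn') n hn, neg_neg, hw1]
    have huse : Useful K (sig (J a)) t (K - 2 - u) := by
      obtain ⟨m, hm, hm'⟩ := wk_ivt_up (sig a) t n₀ (K - (K - 2 - u)) (by omega) (by omega)
      exact ⟨m, by rw [hw2 m hm, hm'], fun n' hn' => by
        rw [hw2 n' (hn'.trans hm)]; exact hn₁ n' (hn'.trans hm)⟩
    refine ⟨⟨⟨hnm', huse⟩, ⟨hs1, hpsi_i, by rw [hat], by rw [hat]⟩, ?_⟩, ?_, hfut, by rw [hat]⟩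
    · intro n hn hnt hsv
      have h1 : t * M ≤ n.val := by
        have := Nat.div_mul_le_self n.val M
        rwa [hnt] at this
      rcases h1.eq_or_lt with h2 | h2
      · apply hsv.1
        rw [← h2]
        exact Nat.mul_mod_left _ _
      · apply hfirst n hn hnt
        obtain ⟨h3, h4, h5, h6⟩ := hsv
        have h7 : (J a).2 n = _ := partner_mid a _ _ _ n h2 hn
        rw [h7] at h5 h6
        rw [hpsi a n h2 (le_of_lt hn), hnt, ← ht] at h4
        refine ⟨h3, by simpa using h4, by simpa using h5, ?_⟩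
        simpa [Equiv.swap_apply_eq_iff] using h6
    · refine ⟨?_, hs3, by rw [hat], hs2, hpsi_i, u, K - 2 - u, ?_, ?_, by omega⟩
      · show a.1.1 ≠ !a.1.1
        simp
      · exact aliveW_congr (fun n hn => sig_pre a i i.2.le n hn) (newMin_alive (by omega) hnm)
      · exact aliveW_congr (fun n hn => sig_pre (J a) i i.2.le n hn)
          (newMin_alive (by omega) hnm')

end Pool.Agent.P.MP_548a57_lc
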