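import Pool.Agent.P.MP_548a57_lc.Walk

/-!
Almost as many walks have a low minimum and end well as there are walks that do not end well.
-/

namespace Pool.Agent.P.MP_548a57_lc

open Finset

namespace Est

/-- The walk started at time `s` on level `K - 1` and stopped on the levels `L` and `K`. -/
def pos {D : ℕ} (L K : ℤ) (s : ℕ) (x : Str D) : ℕ → ℤ
  | 0 => K - 1
  | n + 1 => if L < pos L K s x n ∧ pos L K s x n < K then pos L K s x n + stepv x (s + n)
      else pos L K s x n

/-- Change the letter number `m`. -/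
def flip {D : ℕ} (m : Fin D) (x : Str D) : Str D := Function.update x m (!x m)

theorem flip_flip {D : ℕ} (m : Fin D) (x : Str D) : flip m (flip m x) = x := by
  funext i
  by_cases h : i = m
  · subst h; simp [flip]
  · simp [flip, h]

theorem stepv_flip_self {D : ℕ} (m : Fin D) (x : Str D) :
    stepv (flip m x) m = - stepv x m := by
  unfold stepv
  rw [dif_pos m.2, dif_pos m.2]
  cases h : x m <;> simp [flip, h]

theorem stepv_flip_ne {D : ℕ} (m : Fin D) (x : Str D) (n : ℕ) (h : n ≠ m) :
    stepv (flip m x) n = stepv x n := by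
  unfold stepv
  by_cases hn : n < D
  · rw [dif_pos hn, dif_pos hn]
    have : (⟨n, hn⟩ : Fin D) ≠ m := fun e => h (congrArg Fin.val e)
    simp [flip, this]
  · rw [dif_neg hn, dif_neg hn]

theorem stepv_sq {D : ℕ} (x : Str D) (n : ℕ) (h : n < D) : stepv x n * stepv x n = 1 := by
  unfold stepv
  rw [dif_pos h]
  split_ifs <;> norm_num

theorem sum_step {D : ℕ} (m : Fin D) (c : Str D → ℤ) (hc : ∀ x, c (flip m x) = c x) :
    ∑ x, c x * stepv x m = 0 := by
  have h : ∑ x, c x * stepv x m = ∑ x, c (flip m x) * stepv (flip m x) m :=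
    (Equiv.sum_comp (Function.Involutive.toPerm (flip m) (flip_flip m))
      (fun x => c x * stepv x m)).symm
  simp only [hc, stepv_flip_self, mul_neg, sum_neg_distrib] at h
  omega

theorem pos_flip {D : ℕ} (L K : ℤ) (s : ℕ) (m : Fin D) (x : Str D) (n : ℕ) (h : s + n ≤ m) :
    pos L K s (flip m x) n = pos L K s x n := by
  induction n with
  | zero => rfl
  | succ n ih =>
    simp only [pos]
    rw [ih (by omega), stepv_flip_ne m x (s + n) (by omega)]

theorem pos_mem {D : ℕ} {L K : ℤ} (hL : L < K) (s : ℕ) (x : Str D) (n : ℕ) :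
    L ≤ pos L K s x n ∧ pos L K s x n ≤ K := by
  induction n with
  | zero => simp only [pos]; omega
  | succ n ih =>
    have h1 := stepv_le x (s + n)
    have h2 := le_stepv x (s + n)
    simp only [pos]
    split_ifs with h
    · omega
    · exact ih

/-- The indicator of the walk not being stopped yet. -/
def al {D : ℕ} (L K : ℤ) (s : ℕ) (x : Str D) (n : ℕ) : ℤ :=
  if L < pos L K s x n ∧ pos L K s x n < K then 1 else 0

theorem pos_succ {D : ℕ} (L K : ℤ) (s : ℕ) (x : Str D) (n : ℕ) :
    pos L K s x (n + 1) = pos L K s x n + al L K s x n * stepv x (s + n) := by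
  simp only [pos, al]
  split_ifs <;> simp

theorem al_succ_le {D : ℕ} (L K : ℤ) (s : ℕ) (x : Str D) (n : ℕ) :
    al L K s x (n + 1) ≤ al L K s x n := by
  by_cases h : L < pos L K s x n ∧ pos L K s x n < K
  · have : al L K s x n = 1 := by simp [al, h]
    rw [this]; unfold al; split_ifs <;> norm_num
  · have h2 : pos L K s x (n + 1) = pos L K s x n := by simp only [pos]; rw [if_neg h]
    simp [al, h2]

theorem sum_pos {D : ℕ} (L K : ℤ) (s n : ℕ) (h : s + n ≤ D) :
    ∑ x : Str D, (K - pos L K s x n) = 2 ^ D := by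
  induction n with
  | zero => simp [pos]
  | succ n ih =>
    have h0 := sum_step (⟨s + n, by omega⟩ : Fin D) (fun x => al L K s x n) (fun x => by
      simp only [al]; rw [pos_flip L K s _ x n le_rfl])
    rw [← ih (by omega), ← sub_zero (∑ x : Str D, (K - pos L K s x n)), ← h0, ← sum_sub_distrib]
    refine sum_congr rfl fun x _ => ?_
    rw [pos_succ]; ring

theorem sum_quad {D : ℕ} {L K : ℤ} (s n : ℕ) (h : s + n ≤ D) :
    ∑ x : Str D, ((pos L K s x n - L) * (K - pos L K s x n) + n * al L K s x n) ≤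
      (K - 1 - L) * 2 ^ D := by
  induction n with
  | zero =>
    simp [pos]
    exact le_of_eq (by ring)
  | succ n ih =>
    have h0 := sum_step (⟨s + n, by omega⟩ : Fin D)
      (fun x => al L K s x n * (K + L - 2 * pos L K s x n)) (fun x => by
        simp only [al]; rw [pos_flip L K s _ x n le_rfl])
    refine le_trans ?_ (ih (by omega))
    rw [← add_zero (∑ x : Str D, ((pos L K s x n - L) * (K - pos L K s x n) + n * al L K s x n)),
      ← h0, ← sum_add_distrib]
    refine sum_le_sum fun x _ => ?_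
    have h1 := stepv_sq x (s + n) (by omega)
    have h2 := al_succ_le L K s x n
    have h3 : al L K s x n * al L K s x n = al L K s x n := by unfold al; split_ifs <;> norm_num
    have h4 : ((n : ℤ) + 1) * al L K s x (n + 1) ≤ ((n : ℤ) + 1) * al L K s x n :=
      mul_le_mul_of_nonneg_left h2 (by positivity)
    have h5 : (pos L K s x (n + 1) - L) * (K - pos L K s x (n + 1)) =
        (pos L K s x n - L) * (K - pos L K s x n) +
          al L K s x n * (K + L - 2 * pos L K s x n) * stepv x (s + n) - al L K s x n := by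
      rw [pos_succ]
      linear_combination (-(stepv x (s + n) * stepv x (s + n))) * h3 - al L K s x n * h1
    push_cast
    rw [h5]
    linarith

/-- Lower bound for the number of walks that do not reach `K`. -/
theorem card_lower {D : ℕ} {L K : ℤ} (hL : L < K) (s n : ℕ) (h : s + n ≤ D) :
    (2 : ℤ) ^ D ≤ (K - L) * ((univ.filter fun x : Str D => pos L K s x n ≠ K).card : ℤ) := by
  rw [← sum_pos L K s n h, card_eq_sum_ones, sum_filter]
  push_cast
  rw [mul_sum]
  refine sum_le_sum fun x _ => ?_
  have := pos_mem hL s x n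
  split_ifs with h1
  · omega
  · omega

/-- Upper bound for the number of walks that do not reach `K`. -/
theorem card_upper {D : ℕ} {K : ℤ} (hK : 0 < K) (s n : ℕ) (h : s + n ≤ D) :
    n * K * ((univ.filter fun x : Str D => pos 0 K s x n ≠ K).card : ℤ) ≤
      (n + K * K) * 2 ^ D := by
  have h1 := sum_pos 0 K s n h
  have h2 := sum_quad (L := 0) (K := K) s n h
  have h3 : ∑ x : Str D, (n : ℤ) * al 0 K s x n ≤ K * 2 ^ D := by
    refine le_trans (sum_le_sum fun x _ => ?_) (h2.trans ?_)
    · have := pos_mem hK s x n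
      have : 0 ≤ (pos 0 K s x n - 0) * (K - pos 0 K s x n) :=
        mul_nonneg (by omega) (by omega)
      linarith
    · have : (0 : ℤ) ≤ 2 ^ D := by positivity
      nlinarith
  have h4 : n * K * ((univ.filter fun x : Str D => pos 0 K s x n ≠ K).card : ℤ) ≤
      n * ∑ x : Str D, (K - pos 0 K s x n) + K * ∑ x : Str D, (n : ℤ) * al 0 K s x n := by
    rw [card_eq_sum_ones, sum_filter]
    push_cast
    rw [mul_sum, mul_sum, mul_sum, ← sum_add_distrib]
    refine sum_le_sum fun x _ => ?_
    have hm := pos_mem hK s x n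
    have hn : (0 : ℤ) ≤ n := by positivity
    unfold al
    split_ifs with a b b
    · nlinarith [mul_nonneg hn (show 0 ≤ K - pos 0 K s x n by omega)]
    · have : pos 0 K s x n = 0 := by omega
      rw [this]; simp
    · omega
    · nlinarith [mul_nonneg hn (show 0 ≤ K - pos 0 K s x n by omega)]
  rw [h1] at h4
  nlinarith [mul_le_mul_of_nonneg_left h3 hK.le]

theorem pos_spec {D : ℕ} (L K : ℤ) (s : ℕ) (x : Str D) (n : ℕ) :
    ∃ m, m ≤ n ∧ pos L K s x n = lev K s x m ∧
      (∀ m', m' < m → L < lev K s x m' ∧ lev K s x m' < K) ∧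
      (m = n ∨ ¬ (L < lev K s x m ∧ lev K s x m < K)) := by
  induction n with
  | zero => exact ⟨0, le_rfl, by simp [pos, lev, wk_zero], by simp, Or.inl rfl⟩
  | succ n ih =>
    obtain ⟨m, hm, e, h1, h2⟩ := ih
    by_cases h : L < lev K s x m ∧ lev K s x m < K
    · have hmn : m = n := h2.resolve_right (not_not.2 h)
      subst hmn
      refine ⟨m + 1, le_rfl, ?_, fun m' hm' => ?_, Or.inl rfl⟩
      · simp only [pos]
        rw [e, if_pos h]
        simp only [lev, wk_succ]; ring
      · rcases Nat.lt_succ_iff_lt_or_eq.1 hm' with h3 | h3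
        · exact h1 m' h3
        · rw [h3]; exact h
    · refine ⟨m, by omega, ?_, h1, Or.inr h⟩
      simp only [pos]
      rw [e, if_neg h]

theorem good_of_pos {D : ℕ} {K : ℤ} {s : ℕ} {x : Str D} {n : ℕ} (h : pos 0 K s x n = K) :
    GoodW K s x := by
  obtain ⟨m, -, e, h1, -⟩ := pos_spec 0 K s x n
  exact ⟨m, e ▸ h, fun n' hn' => (h1 n' hn').1⟩

theorem keyLow_of_pos {D : ℕ} {K a₁ : ℤ} {S s : ℕ} {x : Str D} {n : ℕ} (hS : s + n ≤ S)
    (h : pos 0 K s x n = K) (h' : pos a₁ K s x n ≠ K) : KeyLow K a₁ S s x := by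
  obtain ⟨m0, hm0, e0, h0, -⟩ := pos_spec 0 K s x n
  obtain ⟨m1, hm1, e1, h1, h2⟩ := pos_spec a₁ K s x n
  rw [e0] at h
  rw [e1] at h'
  have hlt : m1 < m0 := by
    rcases lt_trichotomy m1 m0 with a | a | a
    · exact a
    · exact absurd (a ▸ h) h'
    · have := (h1 m0 a).2; omega
  have hlow : lev K s x m1 ≤ a₁ := by
    have h3 := (h0 m1 hlt).2
    rcases h2 with h2 | h2
    · omega
    · by_contra hc
      exact h2 ⟨by omega, h3⟩
  obtain ⟨u, hu, hmin⟩ := exists_min_image (range m0) (fun m => lev K s x m)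
    ⟨m1, mem_range.2 hlt⟩
  have hex : ∃ t, lev K s x t = lev K s x u := ⟨u, rfl⟩
  have ht := Nat.find_spec hex
  have htu : Nat.find hex ≤ u := Nat.find_min' hex rfl
  have hu' := mem_range.1 hu
  have hua := h0 u hu'
  have hlev : ∀ n', wk x (s + Nat.find hex) n' = lev K s x (Nat.find hex + n') - lev K s x u := by
    intro n'
    have h3 : lev K s x (Nat.find hex + n') =
        lev K s x (Nat.find hex) + wk x (s + Nat.find hex) n' := by
      simp only [lev, wk_add]; ring
    omega
  refine ⟨s + Nat.find hex, lev K s x u, by omega, by omega,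
    (hmin m1 (mem_range.2 hlt)).trans hlow, ⟨by omega, ?_, fun n' hn' => ?_⟩,
    m0 - Nat.find hex, ?_, fun n' hn' => ?_⟩
  · rw [Nat.add_sub_cancel_left]; exact ht
  · rw [Nat.add_sub_cancel_left] at hn'
    have h3 := Nat.find_min hex hn'
    have h4 := hmin n' (mem_range.2 (by omega))
    have h5 := (h0 n' (by omega)).2
    exact ⟨lt_of_le_of_ne h4 (Ne.symm h3), h5⟩
  · rw [hlev, show Nat.find hex + (m0 - Nat.find hex) = m0 by omega, h]
  · rw [hlev]
    rcases eq_or_lt_of_le (show Nat.find hex + n' ≤ m0 by omega) with h3 | h3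
    · rw [h3, h]; omega
    · have := hmin _ (mem_range.2 h3)
      omega

theorem card_prod {S D : ℕ} (P : Fin S → Str D → Prop) [∀ s x, Decidable (P s x)] :
    ((univ.filter fun p : Fin S × Str D => P p.1 p.2).card : ℝ) =
      ∑ s : Fin S, ((univ.filter fun x : Str D => P s x).card : ℝ) := by
  simp only [card_filter]
  push_cast
  rw [Fintype.sum_prod_type]

end Est

open Classical in
theorem walk_est (ε : ℝ) (hε : 0 < ε) :
    ∃ (K a₁ : ℤ) (D S : ℕ) (β : ℝ), 0 < S ∧ S ≤ D ∧ 1 ≤ a₁ ∧ 2 * a₁ + 2 < K ∧ 0 < β ∧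
      ((univ.filter fun p : Fin S × Str D => ¬ GoodW K p.1 p.2).card : ℝ) ≤ β * (S * 2 ^ D) ∧
      (1 - ε) * β * (S * 2 ^ D) ≤
        ((univ.filter fun p : Fin S × Str D => KeyLow K a₁ S p.1 p.2).card : ℝ) := by
  obtain ⟨N, hN⟩ := exists_nat_gt (7 / ε)
  have hN0 : (0 : ℝ) < N := lt_trans (by positivity) hN
  have hN1 : 0 < N := by exact_mod_cast hN0
  have hNe : 7 < ε * N := by rw [div_lt_iff₀ hε] at hN; linarith
  obtain ⟨k, hk⟩ : ∃ k : ℕ, k = 2 * N + 4 := ⟨_, rfl⟩
  obtain ⟨T, hT⟩ : ∃ T : ℕ, T = N * (k * k) := ⟨_, rfl⟩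
  have hk0 : 0 < k := by omega
  have hT0 : 0 < T := by rw [hT]; positivity
  obtain ⟨S, hS⟩ : ∃ S : ℕ, S = T * N := ⟨_, rfl⟩
  have hTS : T ≤ S := by rw [hS]; exact Nat.le_mul_of_pos_right _ hN1
  have hkR : (k : ℝ) = 2 * N + 4 := by rw [hk]; push_cast; ring
  have hkR0 : (0 : ℝ) < k := by exact_mod_cast hk0
  have hup : ∀ s : Fin S, ((univ.filter fun x : Str (S + T) => Est.pos 0 k s x T ≠ k).card : ℝ) ≤
      (N + 1) / (N * k) * 2 ^ (S + T) := by
    intro s
    have h1 := Est.card_upper (D := S + T) (K := k) (by exact_mod_cast hk0) s T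
      (by have := s.2; omega)
    have h2 : (T : ℝ) * k *
        ((univ.filter fun x : Str (S + T) => Est.pos 0 k s x T ≠ k).card : ℝ) ≤
        (T + k * k) * 2 ^ (S + T) := by exact_mod_cast h1
    have h3 : (T : ℝ) = N * (k * k) := by rw [hT]; push_cast; ring
    rw [div_mul_eq_mul_div, le_div_iff₀ (by positivity)]
    refine le_of_mul_le_mul_left ?_ (show (0 : ℝ) < k * k by positivity)
    rw [h3] at h2
    linarith
  refine ⟨k, N, S + T, S, (N + 1) / (N * k), by omega, by omega, by omega, by omega,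
    by positivity, ?_, ?_⟩
  · rw [Est.card_prod (fun s x => ¬ GoodW k (s : Fin S).val (x : Str (S + T)))]
    refine le_trans (sum_le_sum fun s _ => le_trans ?_ (hup s)) ?_
    · exact_mod_cast card_le_card fun x hx => by
        simp only [mem_filter, mem_univ, true_and] at hx ⊢
        exact fun h => hx (Est.good_of_pos h)
    · simp only [sum_const, card_univ, Fintype.card_fin, nsmul_eq_mul]
      exact le_of_eq (by ring)
  · rw [Est.card_prod (fun s x => KeyLow k N S (s : Fin S).val (x : Str (S + T)))]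
    have hlow : ∀ s : Fin S, s.val + T ≤ S →
        (1 / (N + 4) - (N + 1) / (N * k)) * (2 : ℝ) ^ (S + T) ≤
          ((univ.filter fun x : Str (S + T) => KeyLow k N S s x).card : ℝ) := by
      intro s hs
      have h1 := Est.card_lower (D := S + T) (L := N) (K := k) (by omega) s T (by omega)
      have h2 : (2 : ℝ) ^ (S + T) ≤ (k - N) *
          ((univ.filter fun x : Str (S + T) => Est.pos N k s x T ≠ k).card : ℝ) := by
        exact_mod_cast h1
      have h3 : (univ.filter fun x : Str (S + T) => Est.pos N k s x T ≠ k).card ≤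
          (univ.filter fun x : Str (S + T) => KeyLow k N S s x).card +
            (univ.filter fun x : Str (S + T) => Est.pos 0 k s x T ≠ k).card := by
        refine le_trans (card_le_card fun x hx => ?_) (card_union_le _ _)
        simp only [mem_filter, mem_univ, true_and, mem_union] at hx ⊢
        by_cases h : Est.pos 0 k s x T = k
        · exact Or.inl (Est.keyLow_of_pos hs h hx)
        · exact Or.inr h
      have h4 : ((univ.filter fun x : Str (S + T) => Est.pos N k s x T ≠ k).card : ℝ) ≤
          ((univ.filter fun x : Str (S + T) => KeyLow k N S s x).card : ℝ) +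
            ((univ.filter fun x : Str (S + T) => Est.pos 0 k s x T ≠ k).card : ℝ) := by
        exact_mod_cast h3
      have h5 : 1 / (N + 4) * (2 : ℝ) ^ (S + T) ≤
          ((univ.filter fun x : Str (S + T) => Est.pos N k s x T ≠ k).card : ℝ) := by
        rw [one_div, inv_mul_le_iff₀ (by positivity)]
        rw [show (k : ℝ) - N = N + 4 by rw [hkR]; ring] at h2
        exact h2
      have h6 := hup s
      linarith
    have hcard : (univ.filter fun s : Fin S => s.val < S - T).card = S - T := by
      rw [Fin.card_filter_val_lt]; omega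
    have hsum : ((S : ℝ) - T) * ((1 / (N + 4) - (N + 1) / (N * k)) * (2 : ℝ) ^ (S + T)) ≤
        ∑ s : Fin S, ((univ.filter fun x : Str (S + T) => KeyLow k N S s x).card : ℝ) := by
      refine le_trans ?_ (sum_le_sum_of_subset_of_nonneg
        (filter_subset (fun s : Fin S => s.val < S - T) univ) fun _ _ _ => by positivity)
      refine le_trans (le_of_eq ?_) (sum_le_sum fun s hs => hlow s (by
        have := (mem_filter.1 hs).2; omega))
      rw [sum_const, hcard, nsmul_eq_mul, Nat.cast_sub hTS]
    refine le_trans ?_ hsum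
    have hSR : (S : ℝ) = T * N := by rw [hS]; push_cast; ring
    have hTR : (0 : ℝ) < T := by exact_mod_cast hT0
    have key : (1 - ε) * ((N + 1) / (N * k)) * N ≤
        ((N : ℝ) - 1) * (1 / (N + 4) - (N + 1) / (N * k)) := by
      have e1 : (1 - ε) * (((N : ℝ) + 1) / (N * k)) * N = (1 - ε) * (N + 1) * (N * (N + 4)) /
          (N * (N + 4) * k) := by field_simp
      have e2 : ((N : ℝ) - 1) * (1 / (N + 4) - (N + 1) / (N * k)) =
          (N - 1) * (N * N - N - 4) / (N * (N + 4) * k) := by
        field_simp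
        rw [hkR]; ring
      rw [e1, e2]
      refine div_le_div_of_nonneg_right ?_ (by positivity)
      have h1 : 7 * ((N + 1) * (N + 4)) ≤ ε * N * (((N : ℝ) + 1) * (N + 4)) :=
        mul_le_mul_of_nonneg_right hNe.le (by positivity)
      nlinarith
    have h2 : (0 : ℝ) < T * 2 ^ (S + T) := by positivity
    calc (1 - ε) * ((N + 1) / (N * k)) * ((S : ℝ) * 2 ^ (S + T))
        = ((1 - ε) * ((N + 1) / (N * k)) * N) * (T * 2 ^ (S + T)) := by
          rw [show (S : ℝ) * 2 ^ (S + T) = T * N * 2 ^ (S + T) by rw [← hSR]]; ring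
      _ ≤ (((N : ℝ) - 1) * (1 / (N + 4) - (N + 1) / (N * k))) * (T * 2 ^ (S + T)) :=
          mul_le_mul_of_nonneg_right key h2.le
      _ = _ := by
          rw [show (S : ℝ) - T = T * (N - 1) by rw [hSR]; ring]; ring

end Pool.Agent.P.MP_548a57_lc
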