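import Pool.Agent.P.MP_548a57_lc.BlueSafe
import Pool.Agent.P.MP_548a57_lc.BlueCount
import Pool.Agent.P.MP_548a57_lc.BlueJ
import Pool.Agent.P.MP_548a57_lc.WalkEst

/-!
Blueprints of value close to one exist.
-/

namespace Pool.Agent.P.MP_548a57_lc

open Finset

theorem highAt_unique {D M S : ℕ} {K : ℤ} {b : WL D M S} {i i' : Fin (D * M)} {v v' : ℤ}
    (h : HighAt K b i v) (h' : HighAt K b i' v') : i = i' ∧ v = v' := by
  obtain ⟨h1, h2⟩ := key_unique h.1 h'.1
  refine ⟨?_, h2⟩
  rcases lt_trichotomy i i' with hl | hl | hl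
  · exact absurd h.2.1 (h'.2.2 i hl h1)
  · exact hl
  · exact absurd h'.2.1 (h.2.2 i' hl h1.symm)

open Classical in
theorem blueprint_exists (ε : ℝ) (hε : 0 < ε) :
    ∃ (D M S : ℕ) (B : Blueprint (D * M) (Bool × Fin S) (Cl D)) (β : ℝ),
      0 < D * M ∧ 0 < S ∧ 0 < β ∧
      ((univ.filter fun a => ¬ B.Good a).card : ℝ) ≤ β * Fintype.card (WL D M S) ∧
      (1 - ε) * β * Fintype.card (WL D M S) ≤ B.I.card := by
  obtain ⟨K, a₁, D, S, β, hS, hSD, ha₁, hK, hβ, hbad, hlow⟩ := walk_est (ε / 2) (by positivity)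
  have hA : (1 : ℝ) ≤ Fintype.card (Ad D 0) := by exact_mod_cast Fintype.card_pos
  set ρ : ℝ := 1 - 1 / (6 * (Fintype.card (Ad D 0) : ℝ)) with hρ
  have hρ1 : ρ < 1 := by
    have : 0 < 1 / (6 * (Fintype.card (Ad D 0) : ℝ)) := by positivity
    linarith
  have hSR : (0 : ℝ) < S := by exact_mod_cast hS
  obtain ⟨m, hm⟩ := exists_pow_lt_of_lt_one (x := ε / 2 * β / S) (by positivity) hρ1
  set M : ℕ := m + 1 with hM
  have hk : 0 < D * M := Nat.mul_pos (by omega) (by omega)
  have hK0 : 0 < K := by omega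
  choose Jf hJinj hJ using fun (i : Fin (D * M)) (u : ℤ) => partner_exists (M := M) hSD hK i u
  let I : Finset (WL D M S) := univ.filter fun a => ∃ p : Fin (D * M) × ℤ, LowAt K a₁ a p.1 p.2
  let J : WL D M S → WL D M S := fun a =>
    if h : ∃ p : Fin (D * M) × ℤ, LowAt K a₁ a p.1 p.2 then Jf h.choose.1 h.choose.2 a else a
  have hI : ∀ a ∈ I, ∃ i u, LowAt K a₁ a i u ∧ J a = Jf i u a := by
    intro a ha
    have h := (mem_filter.1 ha).2
    exact ⟨h.choose.1, h.choose.2, h.choose_spec, dif_pos h⟩
  let B : Blueprint (D * M) (Bool × Fin S) (Cl D) :=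
    { side := fun x => x.1
      Eff := fun i τ X => effW D (i / M) τ X
      P := linkW K
      CR := crW
      Good := goodL K
      I := I
      J := J
      P_local := linkW_local K
      P_side := fun i a b h => h.1
      CR_ne := fun X c c' h e => by
        have h1 := h.1
        rw [e, h.2.1] at h1
        exact absurd h1 (by simp)
      ban := linkW_ban hK0
      no := linkW_no hK0
      J_inj := by
        intro a ha b hb hab
        obtain ⟨i, u, h1, h2⟩ := hI a ha
        obtain ⟨i', u', h3, h4⟩ := hI b hb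
        have h5 := (hJ i u a h1).1
        have h6 := (hJ i' u' b h3).1
        rw [← h2, hab] at h5
        rw [← h4] at h6
        obtain ⟨rfl, h7⟩ := highAt_unique h5 h6
        obtain rfl : u = u' := by omega
        exact hJinj i u h1 h3 (by rw [← h2, ← h4, hab])
      J_notMem := by
        intro a ha hb
        obtain ⟨i, u, h1, h2⟩ := hI a ha
        obtain ⟨i', u', h3, -⟩ := hI _ hb
        have h5 := (hJ i u a h1).1
        rw [← h2] at h5
        have h6 := (key_unique h5.1 h3.1).2
        have h7 := h1.2.2.1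
        have h8 := h3.2.2.1
        omega
      good_I := by
        intro a ha
        obtain ⟨i, u, h1, h2⟩ := hI a ha
        have h5 := (hJ i u a h1).1
        rw [← h2] at h5
        have h7 := h1.2.2.1
        exact ⟨key_good h1.2.1 h1.1, key_good (by omega) h5.1⟩
      link := by
        intro a ha
        obtain ⟨i, u, h1, h2⟩ := hI a ha
        obtain ⟨h3, h4, h5, h6⟩ := hJ i u a h1
        rw [← h2] at h3 h4 h5 h6
        refine ⟨i, h4, h5, fun X => ?_⟩
        obtain ⟨-, -, h7, h8⟩ := h1.2.2.2.2.1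
        obtain ⟨-, -, h9, h10⟩ := h3.2.1
        refine ⟨?_, ?_, ?_⟩
        · show ((a.2 i).2.1).map (xor X) = none
          rw [h8]; rfl
        · show (((J a).2 i).2.1).map (xor X) = some X
          rw [h10]; simp
        · show (rr D (i / M) (a.2 i).1 (a.2 i).2.1)⁻¹ * (a.2 i).2.2 =
            (rr D (i / M) ((J a).2 i).1 ((J a).2 i).2.1)⁻¹ * ((J a).2 i).2.2
          rw [h7, h8, h9, h10, h6]
          simp [rr] }
  have hpos : (0 : ℝ) < S * 2 ^ D := by positivity
  have hN : (0 : ℝ) ≤ Fintype.card (WL D M S) := Nat.cast_nonneg _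
  refine ⟨D, M, S, B, β, hk, hS, hβ, ?_, ?_⟩
  · have h1 := count_sig (M := M) hk fun p : Fin S × Str D => ¬ GoodW K p.1 p.2
    have h2 : ((univ.filter fun a : WL D M S => ¬ B.Good a).card : ℝ) * (S * 2 ^ D) =
        ((univ.filter fun p : Fin S × Str D => ¬ GoodW K p.1 p.2).card : ℝ) *
          Fintype.card (WL D M S) := by
      have h3 : (univ.filter fun a : WL D M S => ¬ B.Good a).card * (S * 2 ^ D) =
          (univ.filter fun p : Fin S × Str D => ¬ GoodW K p.1 p.2).card *
            Fintype.card (WL D M S) := by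
        convert h1 using 3
        · ext a
          simp only [mem_filter, mem_univ, true_and]
          rfl
        · ext p
          simp only [mem_filter]
      exact_mod_cast h3
    refine le_of_mul_le_mul_right ?_ hpos
    rw [h2]
    calc _ ≤ β * (S * 2 ^ D) * Fintype.card (WL D M S) := mul_le_mul_of_nonneg_right hbad hN
      _ = _ := by ring
  · have h1 := count_sig (M := M) hk fun p : Fin S × Str D => KeyLow K a₁ S p.1 p.2
    have h2 := congrArg (Nat.cast (R := ℝ)) h1
    push_cast at h2
    set L : Finset (WL D M S) := univ.filter fun a => KeyLow K a₁ S a.1.2 (sig a) with hL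
    have h3 : (1 - ε / 2) * β * Fintype.card (WL D M S) ≤ L.card := by
      refine le_of_mul_le_mul_right ?_ hpos
      calc _ = (1 - ε / 2) * β * (S * 2 ^ D) * Fintype.card (WL D M S) := by ring
        _ ≤ _ := mul_le_mul_of_nonneg_right hlow hN
        _ = _ := by convert h2.symm
    have h4 : L ⊆ I ∪ (range S).biUnion fun t => univ.filter fun a : WL D M S =>
        ∀ i : Fin (D * M), i.val / M = t → ¬ servedLow a i := by
      intro a ha
      obtain ⟨t, u, ht, hu1, hu2, hkey⟩ := (mem_filter.1 ha).2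
      by_cases hs : ∃ i : Fin (D * M), i.val / M = t ∧ servedLow a i
      · obtain ⟨i, hi, hmin⟩ := exists_min_image
          (univ.filter fun i : Fin (D * M) => i.val / M = t ∧ servedLow a i) id
          (by obtain ⟨i, hi⟩ := hs; exact ⟨i, mem_filter.2 ⟨mem_univ _, hi⟩⟩)
        obtain ⟨hi1, hi2⟩ := (mem_filter.1 hi).2
        refine mem_union_left _ (mem_filter.2 ⟨mem_univ _, (i, u), ?_⟩)
        refine ⟨by rw [hi1]; exact hkey, hu1, hu2, by rw [hi1]; exact ht, hi2, ?_⟩
        intro i' hlt he hsv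
        exact absurd (hmin i' (mem_filter.2 ⟨mem_univ _, he.trans hi1, hsv⟩)) (not_le.2 hlt)
      · refine mem_union_right _ (mem_biUnion.2 ⟨t, mem_range.2 ht, mem_filter.2 ⟨mem_univ _, ?_⟩⟩)
        intro i hi hsv
        exact hs ⟨i, hi, hsv⟩
    have h5 := (Nat.cast_le (α := ℝ)).2 ((card_le_card h4).trans ((card_union_le _ _).trans
      (Nat.add_le_add_left card_biUnion_le _)))
    push_cast at h5
    have h6 : ∑ t ∈ range S, ((univ.filter fun a : WL D M S =>
        ∀ i : Fin (D * M), i.val / M = t → ¬ servedLow a i).card : ℝ) ≤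
        ∑ _t ∈ range S, ρ ^ m * Fintype.card (WL D M S) := by
      refine sum_le_sum fun t ht => ?_
      have := count_unserved (D := D) (M := M) (S := S) t (lt_of_lt_of_le (mem_range.1 ht) hSD)
      rw [hM, Nat.add_sub_cancel] at this
      convert this
    rw [sum_const, card_range, nsmul_eq_mul] at h6
    have h7 : (S : ℝ) * ρ ^ m ≤ ε / 2 * β := by
      rw [lt_div_iff₀ hSR] at hm
      linarith
    have h8 := mul_le_mul_of_nonneg_right h7 hN
    show _ ≤ (I.card : ℝ)
    nlinarith

end Pool.Agent.P.MP_548a57_lc
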