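import Pool.Agent.P.MP_548a57_lc.Blue

/-!
The walk blueprint: locality of the link rule and the two safety properties.
-/

namespace Pool.Agent.P.MP_548a57_lc

variable {D M S : ℕ}

theorem Fr_congr (a b : WL D M S) (i : ℕ)
    (h : ∀ i' : Fin (D * M), i'.val < i → (a.2 i').2.2 = (b.2 i').2.2) : Fr a i = Fr b i :=
  prodFrom_congr a b 0 i fun n _ hn => del_congr a b n fun hn' => h ⟨n, hn'⟩ (by simpa using hn)

theorem Tl_congr (a b : WL D M S) (i : ℕ)
    (h : ∀ i' : Fin (D * M), i ≤ i'.val → (a.2 i').2.2 = (b.2 i').2.2) : Tl a i = Tl b i :=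
  prodFrom_congr a b i _ fun n hn _ => del_congr a b n fun hn' => h ⟨n, hn'⟩ hn

theorem linkW_local (K : ℤ) (i : Fin (D * M)) (a b a' b' : WL D M S) (ha : Past i a a')
    (hb : Past i b b') (h : linkW K i a b) : linkW K i a' b' := by
  have h1 : Fr a i = Fr a' i := Fr_congr a a' i fun i' hi' => by rw [ha.2.1 i' hi']
  have h2 : Fr b i = Fr b' i := Fr_congr b b' i fun i' hi' => by rw [hb.2.1 i' hi']
  unfold linkW psi xs at h ⊢
  rw [← ha.1, ← hb.1, ← ha.2.2, ← hb.2.2, ← h1, ← h2]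
  exact h

/-- The walk up to time `t` only reads the first `t` letters. -/
theorem aliveW_congr {K : ℤ} {s t : ℕ} {x y : Str D} {u : ℤ}
    (h : ∀ n : Fin D, n.val < t → x n = y n) (hx : AliveW K s x t u) : AliveW K s y t u := by
  obtain ⟨h1, h2, h3⟩ := hx
  have key : ∀ n, n ≤ t - s → lev K s y n = lev K s x n := by
    intro n hn
    unfold lev
    rw [wk_congr y x s n fun m _ hm => (h m (by omega)).symm]
  exact ⟨h1, by rw [key _ le_rfl, h2], fun n hn => by rw [key n hn]; exact h3 n hn⟩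

theorem newMin_congr {K : ℤ} {s t : ℕ} {x y : Str D} {u : ℤ}
    (h : ∀ n : Fin D, n.val < t → x n = y n) (hx : NewMin K s x t u) : NewMin K s y t u := by
  obtain ⟨h1, h2, h3⟩ := hx
  have key : ∀ n, n ≤ t - s → lev K s y n = lev K s x n := by
    intro n hn
    unfold lev
    rw [wk_congr y x s n fun m _ hm => (h m (by omega)).symm]
  exact ⟨h1, by rw [key _ le_rfl, h2], fun n hn => by rw [key n hn.le]; exact h3 n hn⟩

/-- The steps from the round of phase `i` on, in terms of the frame, the modification and the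
shared future. -/
theorem wk_sig (a : WL D M S) (i : Fin (D * M)) (r g : Ad D 0) (hr : r.1 ∈ Ad D (i / M))
    (ha : (a.2 i).2.2 = r * g) (n : ℕ) :
    wk (sig a) (i / M) n =
      wk ((psi a i).1 (r.1 ((secA (i / M) g * Tl a (i + 1)).1 (zw D)))) (i / M) n := by
  refine wk_congr _ _ _ _ fun m hm _ => ?_
  rw [sig_suf a i i.2.le m hm, Tl_succ a i i.2]
  have h1 : del a i = r * secA (i / M) g := by
    unfold del
    rw [dif_pos i.2, ← secA_mul_left _ _ _ hr]
    exact congrArg _ ha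
  rw [h1, mul_assoc]
  rfl

theorem linkW_safe {K : ℤ} (hK : 0 < K) (i : Fin (D * M)) (a b : WL D M S) (r r' g : Ad D 0)
    (h : linkW K i a b) (hf : Fut i a b) (hr : r.1 ∈ Ad D (i / M)) (hr' : r'.1 ∈ Ad D (i / M))
    (ha : (a.2 i).2.2 = r * g) (hb : (b.2 i).2.2 = r' * g)
    (hrr : ∀ y n, wk (r.1 y) (i / M) n ≤ wk (r'.1 y) (i / M) n + 2) :
    ¬ (goodL K a ∧ goodL K b) := by
  obtain ⟨_, _, _, h4, h5, u, v, h6, h7, h8⟩ := h
  have hT : Tl a (i + 1) = Tl b (i + 1) :=
    Tl_congr a b _ fun i' hi' => by rw [hf i' hi']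
  refine not_both_good hK (t := i / M) (a := u) (b := v)
    (aliveW_congr (fun n hn => (sig_pre a i i.2.le n hn).symm) h6)
    (aliveW_congr (fun n hn => (sig_pre b i i.2.le n hn).symm) h7) fun n => ?_
  rw [wk_sig a i r g hr ha, wk_sig b i r' g hr' hb, h4, h5, ← hT, wk_mir]
  have := hrr ((secA (i / M) g * Tl a (i + 1)).1 (zw D)) n
  simp only [OneMemClass.coe_one, Equiv.Perm.coe_one, id_eq]
  linarith

theorem linkW_ban {K : ℤ} (hK : 0 < K) (i : Fin (D * M)) (a b : WL D M S) (c : Cl D)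
    (X X' : Bool) (h : linkW K i a b) (hf : Fut i a b)
    (ha : (a.2 i).2 = effW D (i / M) (a.2 i).1 X c)
    (hb : (b.2 i).2 = effW D (i / M) (b.2 i).1 X' c) : ¬ (goodL K a ∧ goodL K b) := by
  rw [h.2.1] at ha
  rw [h.2.2.1] at hb
  refine linkW_safe hK i a b (rr D (i / M) false (c.1.map (xor X)))
    (rr D (i / M) true (c.1.map (xor X'))) c.2 h hf (rr_mem _ _ _ _) (rr_mem _ _ _ _)
    (by rw [ha]; rfl) (by rw [hb]; rfl) fun y n => ?_
  have hk := kap_le (i / M) y n
  rcases c with ⟨_ | o, g⟩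
  · simp [rr]
  · simp only [Option.map_some]
    rcases hx : xor X' o with _ | _
    · simp [rr]
    · simpa [rr] using hk

theorem linkW_no {K : ℤ} (hK : 0 < K) (i : Fin (D * M)) (a b : WL D M S) (c c' : Cl D)
    (X X' : Bool) (h : linkW K i a b) (hf : Fut i a b) (hX : X ≠ X') (hc : crW X' c c')
    (ha : (a.2 i).2 = effW D (i / M) (a.2 i).1 X c)
    (hb : (b.2 i).2 = effW D (i / M) (b.2 i).1 X c') : ¬ (goodL K a ∧ goodL K b) := by
  rw [h.2.1] at ha
  rw [h.2.2.1] at hb
  obtain ⟨h1, h2, h3⟩ := hc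
  have hx : xor X X' = true := by
    revert hX
    cases X <;> cases X' <;> simp
  refine linkW_safe hK i a b 1 1 c.2 h hf (Subgroup.one_mem _) (Subgroup.one_mem _) ?_ ?_
    fun y n => by simp
  · rw [ha]
    show rr D (i / M) false (c.1.map (xor X)) * c.2 = _
    rw [h1]; rfl
  · rw [hb]
    show rr D (i / M) true (c'.1.map (xor X)) * c'.2 = _
    rw [h2, Option.map_some, hx, h3]; rfl

end Pool.Agent.P.MP_548a57_lc
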