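import Mathlib

/-!
The adaptive adversary: two streams, built phase by phase, that end in the same memory state.
-/

namespace Pool.Agent.P.MP_548a57_lc

theorem fool {α St : Type} (step : St → α → St) (init : St) (k : ℕ) (Ch H : Fin k → Type)
    (E : (i : Fin k) → ((i' : Fin k) → Ch i') → H i → List α)
    (hE : ∀ (i : Fin k) (ch ch' : (i' : Fin k) → Ch i') (X : H i),
      (∀ i', i' < i → ch i' = ch' i') → E i ch X = E i ch' X)
    (Rel : (i : Fin k) → Ch i → H i → H i → Prop)
    (hRel : ∀ (i : Fin k) (f : H i → St), ∃ c X X', f X = f X' ∧ Rel i c X X') :
    ∃ (ch : (i : Fin k) → Ch i) (X X' : (i : Fin k) → H i),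
      (∀ i, Rel i (ch i) (X i) (X' i)) ∧
      ((List.finRange k).flatMap fun i => E i ch (X i)).foldl step init =
        ((List.finRange k).flatMap fun i => E i ch (X' i)).foldl step init := by
  classical
  have key : ∀ m : ℕ, m ≤ k → ∃ (ch : (i : Fin k) → Ch i) (X X' : (i : Fin k) → H i),
      (∀ i, Rel i (ch i) (X i) (X' i)) ∧
      (((List.finRange k).take m).flatMap fun i => E i ch (X i)).foldl step init =
        (((List.finRange k).take m).flatMap fun i => E i ch (X' i)).foldl step init := by
    intro m
    induction m with
    | zero =>
      intro _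
      choose c X X' _ h using fun i => hRel i (fun _ => init)
      exact ⟨c, X, X', h, by simp⟩
    | succ m ih =>
      intro hm
      obtain ⟨ch, X, X', h1, h2⟩ := ih (by omega)
      let i₀ : Fin k := ⟨m, hm⟩
      obtain ⟨c, Y, Y', h3, h4⟩ := hRel i₀ fun Y => (E i₀ ch Y).foldl step
        ((((List.finRange k).take m).flatMap fun i => E i ch (X i)).foldl step init)
      have hmem : ∀ i ∈ (List.finRange k).take m, i < i₀ := by
        intro i hi
        obtain ⟨n, hn, rfl⟩ := List.mem_iff_getElem.1 hi
        have hn' : n < m := by
          rw [List.length_take] at hn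
          omega
        simp only [List.getElem_take, List.getElem_finRange]
        exact hn'
      have hch : ∀ i : Fin k, i ≤ i₀ → ∀ Z, E i (Function.update ch i₀ c) Z = E i ch Z := by
        intro i hi Z
        refine hE i _ _ Z fun i' hi' => ?_
        rw [Function.update_of_ne (ne_of_lt (lt_of_lt_of_le hi' hi))]
      have htake : (List.finRange k).take (m + 1) = (List.finRange k).take m ++ [i₀] := by
        rw [List.take_add_one, List.getElem?_eq_getElem (by simpa using hm)]
        simp [i₀]
      have hpre : ∀ (Z : (i : Fin k) → H i) (W : H i₀),
          (((List.finRange k).take m).flatMap fun i =>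
            E i (Function.update ch i₀ c) (Function.update Z i₀ W i)) =
          (((List.finRange k).take m).flatMap fun i => E i ch (Z i)) := by
        intro Z W
        refine List.flatMap_congr fun i hi => ?_
        rw [hch i (hmem i hi).le, Function.update_of_ne (ne_of_lt (hmem i hi))]
      refine ⟨Function.update ch i₀ c, Function.update X i₀ Y, Function.update X' i₀ Y', ?_, ?_⟩
      · intro i
        by_cases hi : i = i₀
        · subst hi
          simpa using h4
        · rw [Function.update_of_ne hi, Function.update_of_ne hi, Function.update_of_ne hi]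
          exact h1 i
      · rw [htake, List.flatMap_append, List.flatMap_append, List.foldl_append,
          List.foldl_append, hpre, hpre, ← h2]
        simp only [List.flatMap_cons, List.flatMap_nil, List.append_nil, Function.update_self]
        rw [hch i₀ le_rfl, hch i₀ le_rfl]
        exact h3
  obtain ⟨ch, X, X', h1, h2⟩ := key k le_rfl
  refine ⟨ch, X, X', h1, ?_⟩
  rwa [List.take_of_length_le (by simp)] at h2

end Pool.Agent.P.MP_548a57_lc
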