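import Pool.Agent.P.MP_548a57_lc.Defs

/-!
Two bounds on the matching number, and the greedy algorithm.
-/

namespace Pool.Agent.P.MP_548a57_lc

/-- A set of ordered pairs of which no two share a point. -/
def DisjPairs {V : Type} (M : Finset (V × V)) : Prop :=
  ∀ p ∈ M, ∀ p' ∈ M, p ≠ p' → p.1 ≠ p'.1 ∧ p.1 ≠ p'.2 ∧ p.2 ≠ p'.1 ∧ p.2 ≠ p'.2

theorem card_le_matchNum {V : Type} [Fintype V] (G : SimpleGraph V) (M : Finset (V × V))
    (hadj : ∀ p ∈ M, G.Adj p.1 p.2) (hM : DisjPairs M) : M.card ≤ matchNum G := by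
  classical
  have key : ∀ p ∈ M, ∀ p' ∈ M, ∀ x, (x = p.1 ∨ x = p.2) → (x = p'.1 ∨ x = p'.2) → p = p' := by
    intro p hp p' hp' x h h'
    by_contra hne
    obtain ⟨a, b, c, d⟩ := hM p hp p' hp' hne
    rcases h with h | h <;> rcases h' with h' | h'
    · exact a (h.symm.trans h')
    · exact b (h.symm.trans h')
    · exact c (h.symm.trans h')
    · exact d (h.symm.trans h')
  let H : G.Subgraph :=
    { verts := {x | ∃ p ∈ M, x = p.1 ∨ x = p.2}
      Adj := fun u v => (u, v) ∈ M ∨ (v, u) ∈ M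
      adj_sub := fun h => h.elim (fun h => hadj _ h) fun h => (hadj _ h).symm
      edge_vert := fun h => h.elim (fun h => ⟨_, h, Or.inl rfl⟩) fun h => ⟨_, h, Or.inr rfl⟩
      symm := ⟨fun _ _ h => h.symm⟩ }
  have hH : H.IsMatching := by
    rintro x ⟨⟨a, b⟩, hp, h⟩
    have hne : a ≠ b := (hadj _ hp).ne
    rcases h with rfl | rfl
    · refine ⟨b, Or.inl hp, ?_⟩
      rintro y (hy | hy)
      · exact congrArg Prod.snd (key _ hy _ hp x (Or.inl rfl) (Or.inl rfl))
      · exact absurd (congrArg Prod.snd (key _ hy _ hp x (Or.inr rfl) (Or.inl rfl))) hne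
    · refine ⟨a, Or.inr hp, ?_⟩
      rintro y (hy | hy)
      · exact absurd (congrArg Prod.fst (key _ hy _ hp x (Or.inl rfl) (Or.inr rfl))).symm hne
      · exact congrArg Prod.fst (key _ hy _ hp x (Or.inr rfl) (Or.inr rfl))
  have hE : H.edgeSet = (fun p : V × V => s(p.1, p.2)) '' (M : Set (V × V)) := by
    ext e
    induction e using Sym2.ind with
    | h u v =>
      rw [SimpleGraph.Subgraph.mem_edgeSet]
      constructor
      · rintro (h | h)
        · exact ⟨_, h, rfl⟩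
        · exact ⟨_, h, Sym2.eq_swap⟩
      · rintro ⟨⟨a, b⟩, hp, h⟩
        rcases Sym2.eq_iff.1 h with ⟨rfl, rfl⟩ | ⟨rfl, rfl⟩
        · exact Or.inl hp
        · exact Or.inr hp
  refine le_csSup ⟨Nat.card (Sym2 V), ?_⟩ ⟨H, hH, ?_⟩
  · rintro m ⟨N, -, rfl⟩
    exact Set.ncard_le_card _
  · rw [hE, Set.InjOn.ncard_image, Set.ncard_coe_finset]
    intro p hp p' hp' h
    refine key p hp p' hp' p.1 (Or.inl rfl) ?_
    rcases Sym2.eq_iff.1 h with h | h
    · exact Or.inl h.1
    · exact Or.inr h.1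

theorem matchNum_le_cover {V : Type} [Fintype V] (G : SimpleGraph V) (C : Finset V)
    (hC : ∀ u v, G.Adj u v → u ∈ C ∨ v ∈ C) : matchNum G ≤ C.card := by
  refine csSup_le' ?_
  rintro m ⟨N, hN, rfl⟩
  have h : ∀ e : Sym2 V, e ∈ N.edgeSet → ∃ x ∈ C, x ∈ e := by
    intro e
    induction e using Sym2.ind with
    | h u v =>
      intro he
      rcases hC u v (N.adj_sub (SimpleGraph.Subgraph.mem_edgeSet.1 he)) with h | h
      · exact ⟨u, h, by simp⟩
      · exact ⟨v, h, by simp⟩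
  rcases isEmpty_or_nonempty V with hV | hV
  · have : N.edgeSet = ∅ := Set.eq_empty_of_forall_notMem fun e he =>
      (h e he).elim fun x _ => hV.elim x
    simp [this]
  choose! f hf using h
  rw [← Set.ncard_coe_finset]
  refine Set.ncard_le_ncard_of_injOn f (fun e he => (hf e he).1) fun e he e' he' hee => ?_
  have h₁ := (hf e he).2
  have h₂ := (hf e' he').2
  rw [← hee] at h₂
  generalize f e = x at h₁ h₂
  obtain ⟨a, rfl⟩ := Sym2.mem_iff_exists.1 h₁
  obtain ⟨b, rfl⟩ := Sym2.mem_iff_exists.1 h₂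
  rw [SimpleGraph.Subgraph.mem_edgeSet] at he he'
  rw [(hN (N.edge_vert he)).unique he he']

end Pool.Agent.P.MP_548a57_lc
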