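import Pool.Agent.P.MP_548a57_lc.CompileA
import Pool.Agent.P.MP_548a57_lc.Match
import Pool.Agent.P.MP_548a57_lc.Blow
import Pool.Agent.P.MP_548a57_lc.Fool

/-!
From a blueprint and gadgets to a fooling pair of streams.
-/

namespace Pool.Agent.P.MP_548a57_lc

open Finset

section

variable {k : ℕ} {Init Col : Type} {η : ℝ} {G : Fin k → Gadget Col η}

open Classical in
/-- The list of edges of phase `i`. -/
noncomputable def edgeList [Fintype Init] (B : Blueprint k Init Col) (i : Fin k)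
    (ch : (i : Fin k) → Chc G i) (X : Hid G i) : List (Sym2 (Vtx Init G ⊕ Vtx Init G)) :=
  ((univ.filter fun p : Vtx Init G × Vtx Init G => EdgeRel B i ch X p.1 p.2).image
    fun p => s(Sum.inl p.1, Sum.inl p.2)).toList

theorem mem_edgeList [Fintype Init] {B : Blueprint k Init Col} {i : Fin k}
    {ch : (i : Fin k) → Chc G i} {X : Hid G i} {e : Sym2 (Vtx Init G ⊕ Vtx Init G)} :
    e ∈ edgeList B i ch X ↔ ∃ v w, EdgeRel B i ch X v w ∧ e = s(Sum.inl v, Sum.inl w) := by
  classical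
  unfold edgeList
  rw [mem_toList, mem_image]
  constructor
  · rintro ⟨p, hp, rfl⟩
    exact ⟨p.1, p.2, (mem_filter.1 hp).2, rfl⟩
  · rintro ⟨v, w, h, rfl⟩
    exact ⟨(v, w), mem_filter.2 ⟨mem_univ _, h⟩, rfl⟩

theorem edgeList_local [Fintype Init] (B : Blueprint k Init Col) (i : Fin k)
    (ch ch' : (i : Fin k) → Chc G i) (X : Hid G i) (h : ∀ i', i' < i → ch i' = ch' i') :
    edgeList B i ch X = edgeList B i ch' X := by
  have : EdgeRel B i ch X = EdgeRel B i ch' X := by
    funext v w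
    exact propext ⟨edgeRel_local B i ch ch' X h v w,
      edgeRel_local B i ch' ch X (fun i' hi' => (h i' hi').symm) v w⟩
  unfold edgeList
  rw [this]

open Classical in
/-- The pendant edges at the vertices of `C`. -/
noncomputable def pendList {V : Type} (C : Finset V) : List (Sym2 (V ⊕ V)) :=
  (C.image fun v => s(Sum.inl v, Sum.inr v)).toList

theorem mem_pendList {V : Type} {C : Finset V} {e : Sym2 (V ⊕ V)} :
    e ∈ pendList C ↔ ∃ v ∈ C, e = s(Sum.inl v, Sum.inr v) := by
  classical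
  unfold pendList
  rw [mem_toList, mem_image]
  constructor
  · rintro ⟨v, hv, rfl⟩
    exact ⟨v, hv, rfl⟩
  · rintro ⟨v, hv, rfl⟩
    exact ⟨v, hv, rfl⟩

/-- The whole stream. -/
noncomputable def stream [Fintype Init] (B : Blueprint k Init Col) (ch : (i : Fin k) → Chc G i)
    (X : (i : Fin k) → Hid G i) (C : Finset (Vtx Init G)) :
    List (Sym2 (Vtx Init G ⊕ Vtx Init G)) :=
  ((List.finRange k).flatMap fun i => edgeList B i ch (X i)) ++ pendList C

theorem mem_stream [Fintype Init] {B : Blueprint k Init Col} {ch : (i : Fin k) → Chc G i}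
    {X : (i : Fin k) → Hid G i} {C : Finset (Vtx Init G)}
    {e : Sym2 (Vtx Init G ⊕ Vtx Init G)} :
    e ∈ stream B ch X C ↔ (∃ i v w, EdgeRel B i ch (X i) v w ∧ e = s(Sum.inl v, Sum.inl w)) ∨
      ∃ v ∈ C, e = s(Sum.inl v, Sum.inr v) := by
  unfold stream
  rw [List.mem_append, List.mem_flatMap, mem_pendList]
  simp only [List.mem_finRange, true_and, mem_edgeList]

theorem stream_nodup [Fintype Init] (B : Blueprint k Init Col) (ch : (i : Fin k) → Chc G i)
    (X : (i : Fin k) → Hid G i) (C : Finset (Vtx Init G)) : (stream B ch X C).Nodup := by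
  unfold stream
  have hlt : ∀ i i' : Fin k, i < i' → ∀ e, e ∈ edgeList B i ch (X i) →
      e ∈ edgeList B i' ch (X i') → False := by
    intro i i' hi e he he'
    obtain ⟨v, w, h1, rfl⟩ := mem_edgeList.1 he
    obtain ⟨v', w', h2, h3⟩ := mem_edgeList.1 he'
    have h4 := edgeRel_suf h1 i' hi
    have h5 := edgeRel_ne h2
    rcases Sym2.eq_iff.1 h3 with ⟨h6, h7⟩ | ⟨h6, h7⟩
    · rw [← Sum.inl_injective h6, ← Sum.inl_injective h7] at h5
      exact h5 h4
    · rw [← Sum.inl_injective h6, ← Sum.inl_injective h7] at h5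
      exact h5 h4.symm
  refine List.Nodup.append ?_ (nodup_toList _) ?_
  · rw [List.nodup_flatMap]
    refine ⟨fun i _ => nodup_toList _, ?_⟩
    refine (List.nodup_finRange k).pairwise_of_forall_ne ?_
    intro i _ i' _ hne e he he'
    rcases lt_or_gt_of_ne hne with h | h
    · exact hlt i i' h e he he'
    · exact hlt i' i h e he' he
  · intro e he he'
    obtain ⟨i, _, hi⟩ := List.mem_flatMap.1 he
    obtain ⟨v, w, _, rfl⟩ := mem_edgeList.1 hi
    obtain ⟨u, _, h3⟩ := mem_pendList.1 he'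
    rcases Sym2.eq_iff.1 h3 with ⟨_, h7⟩ | ⟨h6, _⟩
    · exact Sum.inl_ne_inr h7
    · exact Sum.inl_ne_inr h6

/-- The two sides. -/
def sideOf (B : Blueprint k Init Col) : Vtx Init G ⊕ Vtx Init G → Bool
  | Sum.inl v => B.side v.1
  | Sum.inr v => !(B.side v.1)

theorem stream_side [Fintype Init] (B : Blueprint k Init Col) (ch : (i : Fin k) → Chc G i)
    (X : (i : Fin k) → Hid G i) (C : Finset (Vtx Init G)) (a b : Vtx Init G ⊕ Vtx Init G)
    (h : s(a, b) ∈ stream B ch X C) : sideOf B a ≠ sideOf B b := by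
  rcases mem_stream.1 h with ⟨i, v, w, h1, h2⟩ | ⟨v, _, h2⟩
  · have h3 : B.side v.1 ≠ B.side w.1 := B.P_side i _ _ h1.1
    rcases Sym2.eq_iff.1 h2 with ⟨rfl, rfl⟩ | ⟨rfl, rfl⟩
    · exact h3
    · exact h3.symm
  · rcases Sym2.eq_iff.1 h2 with ⟨rfl, rfl⟩ | ⟨rfl, rfl⟩ <;> simp [sideOf]

end

open Classical in
theorem compile {k : ℕ} {Init Col : Type} [Fintype Init] [Fintype Col] [Nonempty Init]
    [Nonempty Col] (B : Blueprint k Init Col) {η : ℝ} (hη : 0 ≤ η) (G : Fin k → Gadget Col η)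
    (hG : ∀ i, 0 < (G i).nz) (δ : ℝ) (hδ : 0 < δ) (β γ : ℝ)
    (hβ : ((univ.filter fun a => ¬ B.Good a).card : ℝ) ≤ β * Fintype.card (Lab k Init Col))
    (hγ : γ * Fintype.card (Lab k Init Col) ≤ B.I.card)
    {St : Type} [Fintype St] (step : St → Sym2 (Vtx Init G ⊕ Vtx Init G) → St) (init : St)
    (s : ℕ) (hSt : Fintype.card St ≤ 2 ^ s)
    (hs : ∀ i : Fin k, 2 * (s : ℝ) *
        ((Fintype.card Init * (∏ i' ∈ univ.filter (fun i' => i' < i), (2 * (G i').nz)) *
          (2 * Fintype.card Col) : ℕ) : ℝ)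
        < δ ^ 2 * Fintype.card (Vtx Init G) * (G i).nd) :
    ∃ (l l' : List (Sym2 (Vtx Init G ⊕ Vtx Init G))) (col : Vtx Init G ⊕ Vtx Init G → Bool)
      (C : Finset (Vtx Init G ⊕ Vtx Init G))
      (M : Finset ((Vtx Init G ⊕ Vtx Init G) × (Vtx Init G ⊕ Vtx Init G))),
      l.Nodup ∧ l'.Nodup ∧
      (∀ u v, s(u, v) ∈ l → col u ≠ col v) ∧ (∀ u v, s(u, v) ∈ l' → col u ≠ col v) ∧
      l.foldl step init = l'.foldl step init ∧
      (∀ u v, s(u, v) ∈ l' → u ∈ C ∨ v ∈ C) ∧
      (∀ p ∈ M, s(p.1, p.2) ∈ l) ∧ DisjPairs M ∧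
      (C.card : ℝ) ≤ (β + k * (η + δ)) * Fintype.card (Vtx Init G) ∧
      (C.card : ℝ) + (γ - 2 * (k * (η + δ))) * Fintype.card (Vtx Init G) ≤ M.card := by
  -- the pigeonhole step in each phase
  have hRel : ∀ (i : Fin k) (f : Hid G i → St), ∃ (c : Chc G i) (X X' : Hid G i), f X = f X' ∧
      (c.2 = X c.1 ∧ ((univ.filter fun p => c.2 p = X' c.1 p).card : ℝ) ≤
        δ * Fintype.card (Idx G i)) := by
    intro i f
    have hnd : 0 < (G i).nd := by
      by_contra h0
      have h1 : (G i).nd = 0 := by omega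
      have h2 := hs i
      rw [h1] at h2
      simp only [Nat.cast_zero, mul_zero] at h2
      exact absurd h2 (not_lt.2 (by positivity))
    have hc := (card_fiber_of_bij _ _ (idx_bij (Init := Init) hG i ⟨0, hnd⟩) (fun _ => True)).2
    have hR : (0 : ℝ) < Fintype.card (Init × Pre G i × Bool × Col) := by
      have : Nonempty (Pre G i) := ⟨fun i' => (false, ⟨0, hG i'.1⟩)⟩
      exact_mod_cast Fintype.card_pos
    have h3 := hs i
    rw [← card_rest, hc] at h3
    push_cast at h3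
    have h4 : 2 * (s : ℝ) < δ ^ 2 * Fintype.card (Idx G i) * Fintype.card (Fin (G i).nd) := by
      rw [Fintype.card_fin]
      refine lt_of_mul_lt_mul_right (a := (Fintype.card (Init × Pre G i × Bool × Col) : ℝ))
        ?_ hR.le
      calc _ < _ := h3
        _ = _ := by ring
    obtain ⟨j, X, X', h5, h6⟩ := pigeon f δ hδ s hSt h4
    exact ⟨(j, X j), X, X', h5, rfl, by convert h6⟩
  obtain ⟨ch, X, X', hrel, hrun⟩ := fool step init k (Chc G) (Hid G) (edgeList B)
    (edgeList_local B) _ hRel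
  -- bad vertices and the cover
  have hbad := bad_card (Init := Init) hG ch X' δ fun i => (hrel i).2
  set Bd : Finset (Vtx Init G) := univ.filter fun v => BadV ch X' v with hBd
  set C₀ : Finset (Vtx Init G) := univ.filter fun v => ¬ B.Good (lab B ch v) ∨ BadV ch X' v
    with hC₀
  have hbij := lab_bij B ch
  let Ψ := Equiv.ofBijective _ hbij
  let mate : Vtx Init G → Vtx Init G := fun v => Ψ.symm (lns ch v, B.J (lab B ch v))
  have hmate : ∀ v, lns ch (mate v) = lns ch v ∧ lab B ch (mate v) = B.J (lab B ch v) := by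
    intro v
    have := Ψ.apply_symm_apply (lns ch v, B.J (lab B ch v))
    exact ⟨congrArg Prod.fst this, congrArg Prod.snd this⟩
  have hmate_inj : ∀ v w, lab B ch v ∈ B.I → lab B ch w ∈ B.I → mate v = mate w → v = w := by
    intro v w hv hw h
    apply hbij.1
    have h1 : lns ch v = lns ch w := by rw [← (hmate v).1, h, (hmate w).1]
    have h2 : B.J (lab B ch v) = B.J (lab B ch w) := by rw [← (hmate v).2, h, (hmate w).2]
    exact Prod.ext h1 (B.J_inj hv hw h2)
  set U : Finset (Vtx Init G) := univ.filter fun v => lab B ch v ∈ B.I ∧ ¬ BadV ch X' v ∧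
    ¬ BadV ch X' (mate v) with hU
  have hUC : ∀ v ∈ U, v ∉ C₀ ∧ mate v ∉ C₀ := by
    intro v hv
    obtain ⟨h1, h2, h3⟩ := (mem_filter.1 hv).2
    have h4 := B.good_I _ h1
    constructor
    · intro h
      rcases (mem_filter.1 h).2 with h | h
      · exact h h4.1
      · exact h2 h
    · intro h
      rcases (mem_filter.1 h).2 with h | h
      · exact h (by rw [(hmate v).2]; exact h4.2)
      · exact h3 h
  have hUU : ∀ v ∈ U, ∀ w ∈ U, v ≠ mate w := by
    intro v hv w hw h
    have h1 := ((mem_filter.1 hv).2).1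
    rw [h, (hmate w).2] at h1
    exact B.J_notMem _ ((mem_filter.1 hw).2).1 h1
  let f₁ : Vtx Init G ↪ (Vtx Init G ⊕ Vtx Init G) × (Vtx Init G ⊕ Vtx Init G) :=
    ⟨fun v => (Sum.inl v, Sum.inl (mate v)), fun v w h => Sum.inl_injective (congrArg Prod.fst h)⟩
  let f₂ : Vtx Init G ↪ (Vtx Init G ⊕ Vtx Init G) × (Vtx Init G ⊕ Vtx Init G) :=
    ⟨fun v => (Sum.inl v, Sum.inr v), fun v w h => Sum.inl_injective (congrArg Prod.fst h)⟩
  have hdisj : Disjoint (U.map f₁) (C₀.map f₂) := by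
    rw [disjoint_left]
    intro p hp hp'
    obtain ⟨v, _, rfl⟩ := mem_map.1 hp
    obtain ⟨w, _, h⟩ := mem_map.1 hp'
    exact Sum.inr_ne_inl (congrArg Prod.snd h)
  refine ⟨stream B ch X C₀, stream B ch X' C₀, sideOf B, C₀.map Function.Embedding.inl,
    (U.map f₁).disjUnion (C₀.map f₂) hdisj, stream_nodup _ _ _ _, stream_nodup _ _ _ _,
    stream_side B ch X C₀, stream_side B ch X' C₀, ?_, ?_, ?_, ?_, ?_, ?_⟩
  · unfold stream
    rw [List.foldl_append, List.foldl_append, hrun]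
  · have hin : ∀ v, v ∈ C₀ → (Sum.inl v : Vtx Init G ⊕ Vtx Init G) ∈
        C₀.map Function.Embedding.inl := fun v hv => mem_map.2 ⟨v, hv, rfl⟩
    intro a b hab
    rcases mem_stream.1 hab with ⟨i, v, w, h1, h2⟩ | ⟨v, hv, h2⟩
    · have h3 : v ∈ C₀ ∨ w ∈ C₀ := by
        by_cases hv : BadV ch X' v
        · exact Or.inl (mem_filter.2 ⟨mem_univ _, Or.inr hv⟩)
        · have h4 := no_edge_safe B ch X' i v w h1 hv
          by_cases hg : B.Good (lab B ch v)
          · exact Or.inr (mem_filter.2 ⟨mem_univ _, Or.inl fun h => h4 ⟨hg, h⟩⟩)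
          · exact Or.inl (mem_filter.2 ⟨mem_univ _, Or.inl hg⟩)
      rcases Sym2.eq_iff.1 h2 with ⟨rfl, rfl⟩ | ⟨rfl, rfl⟩
      · exact h3.imp (hin v) (hin w)
      · exact h3.symm.imp (hin w) (hin v)
    · rcases Sym2.eq_iff.1 h2 with ⟨rfl, rfl⟩ | ⟨rfl, rfl⟩
      · exact Or.inl (hin v hv)
      · exact Or.inr (hin v hv)
  · intro p hp
    rcases mem_disjUnion.1 hp with hp | hp
    · obtain ⟨v, hv, rfl⟩ := mem_map.1 hp
      obtain ⟨i, hi⟩ := yes_edge B ch X (fun i => (hrel i).1) v (mate v)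
        ((mem_filter.1 hv).2).1 (hmate v).2 (hmate v).1
      exact mem_stream.2 (Or.inl ⟨i, v, mate v, hi, rfl⟩)
    · obtain ⟨v, hv, rfl⟩ := mem_map.1 hp
      exact mem_stream.2 (Or.inr ⟨v, hv, rfl⟩)
  · intro p hp p' hp' hne
    rcases mem_disjUnion.1 hp with hp | hp <;> rcases mem_disjUnion.1 hp' with hp' | hp'
    · obtain ⟨v, hv, rfl⟩ := mem_map.1 hp
      obtain ⟨w, hw, rfl⟩ := mem_map.1 hp'
      have hvw : v ≠ w := fun h => hne (by rw [h])
      refine ⟨fun h => hvw (Sum.inl_injective h), fun h => hUU v hv w hw (Sum.inl_injective h),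
        fun h => hUU w hw v hv (Sum.inl_injective h).symm, fun h => hvw ?_⟩
      exact hmate_inj v w ((mem_filter.1 hv).2).1 ((mem_filter.1 hw).2).1 (Sum.inl_injective h)
    · obtain ⟨v, hv, rfl⟩ := mem_map.1 hp
      obtain ⟨w, hw, rfl⟩ := mem_map.1 hp'
      refine ⟨fun h => (hUC v hv).1 ?_, Sum.inl_ne_inr, fun h => (hUC v hv).2 ?_, Sum.inl_ne_inr⟩
      · have : v = w := Sum.inl_injective h
        rwa [this]
      · have : mate v = w := Sum.inl_injective h
        rwa [this]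
    · obtain ⟨v, hv, rfl⟩ := mem_map.1 hp
      obtain ⟨w, hw, rfl⟩ := mem_map.1 hp'
      refine ⟨fun h => (hUC w hw).1 ?_, fun h => (hUC w hw).2 ?_, Sum.inr_ne_inl, Sum.inr_ne_inl⟩
      · have : v = w := Sum.inl_injective h
        rwa [← this]
      · have : v = mate w := Sum.inl_injective h
        rwa [← this]
    · obtain ⟨v, hv, rfl⟩ := mem_map.1 hp
      obtain ⟨w, hw, rfl⟩ := mem_map.1 hp'
      have hvw : v ≠ w := fun h => hne (by rw [h])
      exact ⟨fun h => hvw (Sum.inl_injective h), Sum.inl_ne_inr, Sum.inr_ne_inl,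
        fun h => hvw (Sum.inr_injective h)⟩
  · rw [card_map]
    have h1 := dens_of_bij _ _ hbij (fun a => ¬ B.Good a) β hβ
    have h2 : C₀ ⊆ (univ.filter fun v => ¬ B.Good (lab B ch v)) ∪ Bd := by
      intro v hv
      rcases (mem_filter.1 hv).2 with h | h
      · exact mem_union_left _ (mem_filter.2 ⟨mem_univ _, h⟩)
      · exact mem_union_right _ (mem_filter.2 ⟨mem_univ _, h⟩)
    have h3 := (Nat.cast_le (α := ℝ)).2 ((card_le_card h2).trans (card_union_le _ _))
    push_cast at h3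
    linarith
  · rw [card_map, card_disjUnion, card_map, card_map]
    have h1 := dens_ge_of_bij _ _ hbij (fun a => a ∈ B.I) γ (by simpa using hγ)
    set T : Finset (Vtx Init G) := univ.filter fun v => lab B ch v ∈ B.I ∧ BadV ch X' (mate v)
      with hT
    have h2 : (univ.filter fun v => lab B ch v ∈ B.I) ⊆ U ∪ (Bd ∪ T) := by
      intro v hv
      have hv' := (mem_filter.1 hv).2
      by_cases h3 : BadV ch X' v
      · exact mem_union_right _ (mem_union_left _ (mem_filter.2 ⟨mem_univ _, h3⟩))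
      · by_cases h4 : BadV ch X' (mate v)
        · exact mem_union_right _ (mem_union_right _ (mem_filter.2 ⟨mem_univ _, hv', h4⟩))
        · exact mem_union_left _ (mem_filter.2 ⟨mem_univ _, hv', h3, h4⟩)
    have h3 : T.card ≤ Bd.card := by
      refine card_le_card_of_injOn mate ?_ ?_
      · intro v hv
        exact mem_filter.2 ⟨mem_univ _, ((mem_filter.1 hv).2).2⟩
      · intro v hv w hw h
        exact hmate_inj v w ((mem_filter.1 hv).2).1 ((mem_filter.1 hw).2).1 h
    have h4 := (card_le_card h2).trans ((card_union_le _ _).trans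
      (Nat.add_le_add_left ((card_union_le _ _).trans (Nat.add_le_add_left h3 _)) _))
    have h5 := (Nat.cast_le (α := ℝ)).2 h4
    push_cast at h5 ⊢
    linarith

end Pool.Agent.P.MP_548a57_lc
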