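import Mathlib

/-!
The geometric gadget: many directions, each cutting the point set into lines that carry every
colour once, such that moving along a line of one direction keeps the colour for every other
direction, apart from a small bad set.
-/

namespace Pool.Agent.P.MP_548a57_lc

/-- Points `Fin nz`, directions `Fin nd`; `φ j z` is the pair (line, colour) of `z` for the
direction `j`. -/
structure Gadget (Col : Type) (η : ℝ) where
  nz : ℕ
  nl : ℕ
  nd : ℕ
  φ : Fin nd → (Fin nz ≃ Fin nl × Col)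
  bad : Fin nd → Finset (Fin nz)
  bad_card : ∀ j, ((bad j).card : ℝ) ≤ η * nz
  keep : ∀ j j' z z', j ≠ j' → (φ j' z).1 = (φ j' z').1 → z ∉ bad j → (φ j z).2 = (φ j z').2

theorem gad_val_lt {Q q : ℕ} (hQ : 0 < Q) (hq : 0 < q) (x : ZMod (Q * q)) : x.val < Q * q := by
  have : NeZero (Q * q) := ⟨(Nat.mul_pos hQ hq).ne'⟩
  exact ZMod.val_lt x

theorem gad_div_lt {Q q : ℕ} (hQ : 0 < Q) (hq : 0 < q) (x : ZMod (Q * q)) : x.val / q < Q :=
  Nat.div_lt_of_lt_mul (by rw [mul_comm q]; exact gad_val_lt hQ hq x)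

theorem gad_val_cast {Q q a s : ℕ} (ha : a < Q) (hs : s < q) :
    ((a * q + s : ℕ) : ZMod (Q * q)).val = a * q + s := by
  refine ZMod.val_cast_of_lt ?_
  have : (a + 1) * q ≤ Q * q := Nat.mul_le_mul_right q ha
  nlinarith

theorem gad_eq_cast {Q q : ℕ} (hQ : 0 < Q) (hq : 0 < q) (x : ZMod (Q * q)) :
    x = ((x.val / q * q + x.val % q : ℕ) : ZMod (Q * q)) := by
  have : NeZero (Q * q) := ⟨(Nat.mul_pos hQ hq).ne'⟩
  rw [Nat.div_add_mod', ZMod.natCast_zmod_val]

/-- Lines of one direction: base point and colour. -/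
def gadEquiv {Z : Type} [AddCommGroup Z] {Q q : ℕ} (hQ : 0 < Q) (hq : 0 < q)
    (ip : Z →+ ZMod (Q * q)) (u : Z) (hu : ip u = q) : Z ≃ {z // (ip z).val < q} × Fin Q where
  toFun z := (⟨z - ((ip z).val / q) • u, by
      have e : ip (z - ((ip z).val / q) • u) = ((0 * q + (ip z).val % q : ℕ) : ZMod (Q * q)) := by
        rw [map_sub, map_nsmul, hu, sub_eq_iff_eq_add]
        refine (gad_eq_cast hQ hq _).trans ?_
        push_cast
        ring
      rw [e, gad_val_cast hQ (Nat.mod_lt _ hq), zero_mul, zero_add]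
      exact Nat.mod_lt _ hq⟩, ⟨(ip z).val / q, gad_div_lt hQ hq _⟩)
  invFun p := p.1.1 + (p.2 : ℕ) • u
  left_inv z := sub_add_cancel _ _
  right_inv p := by
    have : NeZero (Q * q) := ⟨(Nat.mul_pos hQ hq).ne'⟩
    have e : ip (p.1.1 + (p.2 : ℕ) • u) = ((p.2 * q + (ip p.1.1).val : ℕ) : ZMod (Q * q)) := by
      rw [map_add, map_nsmul, hu]
      push_cast
      rw [ZMod.natCast_zmod_val]
      ring
    have e' : (ip (p.1.1 + (p.2 : ℕ) • u)).val / q = p.2 := by
      rw [e, gad_val_cast p.2.2 p.1.2, mul_comm, Nat.mul_add_div hq, Nat.div_eq_of_lt p.1.2,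
        add_zero]
    refine Prod.ext (Subtype.ext ?_) (Fin.ext e')
    change p.1.1 + (p.2 : ℕ) • u - ((ip (p.1.1 + (p.2 : ℕ) • u)).val / q) • u = p.1.1
    rw [e', add_sub_cancel_right]

theorem gad_keep {Q q r : ℕ} (hQ : 0 < Q) (hq : 0 < q) {x y : ZMod (Q * q)} {c c' k : ℕ}
    (hc : c < Q) (hc' : c' < Q) (hk : k ≤ r) (h : x - (c * k : ℕ) = y - (c' * k : ℕ))
    (h1 : Q * r ≤ x.val % q) (h2 : x.val % q + Q * r < q) : x.val / q = y.val / q := by
  have e1 : c * k ≤ Q * r := Nat.mul_le_mul hc.le hk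
  have e2 : c' * k ≤ Q * r := Nat.mul_le_mul hc'.le hk
  have e3 : x.val % q + c' * k - c * k < q := by omega
  have e : y = ((x.val / q * q + (x.val % q + c' * k - c * k) : ℕ) : ZMod (Q * q)) := by
    rw [Nat.cast_add, Nat.cast_sub (by omega), Nat.cast_add]
    have := gad_eq_cast hQ hq x
    rw [Nat.cast_add] at this
    linear_combination this - h
  rw [e, gad_val_cast (gad_div_lt hQ hq x) e3, mul_comm (x.val / q) q, Nat.mul_add_div hq, Nat.div_eq_of_lt e3,
    add_zero]

theorem gad_bad_card {Z : Type} [AddCommGroup Z] [Fintype Z] {Q q : ℕ} (hQ : 0 < Q) (hq : 0 < q)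
    (ip : Z →+ ZMod (Q * q)) (hs : Function.Surjective ip) (s : ℕ) :
    (Finset.univ.filter fun z => (ip z).val % q < s ∨ q ≤ (ip z).val % q + s).card * q ≤
      2 * s * Fintype.card Z := by
  classical
  have : NeZero (Q * q) := ⟨(Nat.mul_pos hQ hq).ne'⟩
  set κ := (Finset.univ.filter fun z => ip z = 0).card with hκ
  have hfib : ∀ x, (Finset.univ.filter fun z => ip z = x).card = κ := fun x =>
    AddMonoidHom.card_fiber_eq_of_mem_range ip (hs x) (hs 0)
  have hcount : ∀ B : Finset (ZMod (Q * q)),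
      (Finset.univ.filter fun z => ip z ∈ B).card = B.card * κ := by
    intro B
    rw [Finset.card_eq_sum_card_fiberwise (f := ip) (s := Finset.univ.filter fun z => ip z ∈ B)
      (t := B) (fun z hz => (Finset.mem_filter.1 hz).2)]
    refine Finset.sum_const_nat fun x hx => ?_
    rw [← hfib x]
    congr 1
    ext z
    simp only [Finset.mem_filter, Finset.mem_univ, true_and]
    exact ⟨fun h => h.2, fun h => ⟨h ▸ hx, h⟩⟩
  have hZ : Fintype.card Z = Q * q * κ := by
    have := hcount Finset.univ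
    simpa [ZMod.card] using this
  set B : Finset (ZMod (Q * q)) :=
    Finset.univ.filter fun x => x.val % q < s ∨ q ≤ x.val % q + s with hB
  have hB1 : B.card ≤ Q * (2 * s) := by
    have h1 : B.card ≤ (Finset.range Q ×ˢ (Finset.range s ∪ Finset.Ico (q - s) q)).card := by
      refine Finset.card_le_card_of_injOn (fun x => (x.val / q, x.val % q)) (fun x hx => ?_)
        fun x _ y _ e => ?_
      · have h2 := (Finset.mem_filter.1 hx).2
        have h3 := Nat.mod_lt x.val hq
        simp only [Finset.coe_product, Set.mem_prod, Finset.mem_coe, Finset.mem_range,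
          Finset.mem_union, Finset.mem_Ico]
        exact ⟨gad_div_lt hQ hq x, by omega⟩
      · rw [gad_eq_cast hQ hq x, gad_eq_cast hQ hq y, (Prod.mk.inj e).1, (Prod.mk.inj e).2]
    refine h1.trans ?_
    rw [Finset.card_product, Finset.card_range]
    refine Nat.mul_le_mul_left Q ((Finset.card_union_le _ _).trans ?_)
    rw [Finset.card_range, Nat.card_Ico]
    omega
  have h2 : (Finset.univ.filter fun z => (ip z).val % q < s ∨ q ≤ (ip z).val % q + s) =
      Finset.univ.filter fun z => ip z ∈ B := by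
    ext z
    simp [hB]
  rw [h2, hcount, hZ]
  calc B.card * κ * q ≤ Q * (2 * s) * κ * q := by gcongr
    _ = 2 * s * (Q * q * κ) := by ring

/-- The gadget from a family of nearly orthogonal directions. -/
theorem gad_core (Col : Type) [Fintype Col] [Nonempty Col] (η : ℝ) {q r : ℕ} (hq : 0 < q)
    (hη : 2 * ((Fintype.card Col : ℝ) * r) ≤ η * q) {Z D : Type} [AddCommGroup Z] [Fintype Z]
    [Fintype D] (ip : D → Z →+ ZMod (Fintype.card Col * q)) (u : D → Z)
    (hs : ∀ f, Function.Surjective (ip f)) (hu : ∀ f, ip f (u f) = q)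
    (hk : ∀ f f', f ≠ f' → ∃ k ≤ r, ip f (u f') = (k : ℕ)) :
    ∃ G : Gadget Col η, G.nz = Fintype.card Z ∧ G.nd = Fintype.card D := by
  classical
  have hQ : 0 < Fintype.card Col := Fintype.card_pos
  have hL : ∀ f, Fintype.card {z // (ip f z).val < q} = Fintype.card Z / Fintype.card Col := by
    intro f
    rw [Fintype.card_congr (gadEquiv hQ hq (ip f) (u f) (hu f)), Fintype.card_prod,
      Fintype.card_fin, Nat.mul_div_cancel _ hQ]
  let eZ := (Fintype.equivFin Z).symm
  let eD := (Fintype.equivFin D).symm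
  refine ⟨⟨Fintype.card Z, Fintype.card Z / Fintype.card Col, Fintype.card D,
    fun j => (eZ.trans (gadEquiv hQ hq (ip (eD j)) (u (eD j)) (hu _))).trans
      (Equiv.prodCongr (Fintype.equivFinOfCardEq (hL _)) (Fintype.equivFin Col).symm),
    fun j => (Finset.univ.filter fun z => (ip (eD j) z).val % q < Fintype.card Col * r ∨
      q ≤ (ip (eD j) z).val % q + Fintype.card Col * r).map eZ.symm.toEmbedding, ?_, ?_⟩,
    rfl, rfl⟩
  · intro j
    rw [Finset.card_map]
    have h1 := gad_bad_card hQ hq (ip (eD j)) (hs _) (Fintype.card Col * r)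
    have hq' : (0 : ℝ) < q := by exact_mod_cast hq
    refine le_of_mul_le_mul_right ?_ hq'
    have h2 := (Nat.cast_le (α := ℝ)).2 h1
    push_cast at h2
    refine h2.trans ?_
    calc 2 * ((Fintype.card Col : ℝ) * r) * Fintype.card Z ≤ η * q * Fintype.card Z :=
          mul_le_mul_of_nonneg_right hη (Nat.cast_nonneg _)
      _ = _ := by ring
  · intro j j' z z' hj h hb
    have h2 : eZ z - ((ip (eD j') (eZ z)).val / q) • u (eD j') =
        eZ z' - ((ip (eD j') (eZ z')).val / q) • u (eD j') :=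
      congrArg Subtype.val ((Fintype.equivFinOfCardEq (hL (eD j'))).injective h)
    obtain ⟨k, hkr, hk'⟩ := hk (eD j) (eD j') (eD.injective.ne hj)
    have h3 := congrArg (ip (eD j)) h2
    rw [map_sub, map_sub, map_nsmul, map_nsmul, hk', nsmul_eq_mul, nsmul_eq_mul,
      ← Nat.cast_mul, ← Nat.cast_mul] at h3
    have h4 : ¬ ((ip (eD j) (eZ z)).val % q < Fintype.card Col * r ∨
        q ≤ (ip (eD j) (eZ z)).val % q + Fintype.card Col * r) := fun hc =>
      hb (Finset.mem_map.2 ⟨eZ z, Finset.mem_filter.2 ⟨Finset.mem_univ _, hc⟩,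
        eZ.symm_apply_apply z⟩)
    have h5 := gad_keep hQ hq (gad_div_lt hQ hq _) (gad_div_lt hQ hq _) hkr h3 (by omega)
      (by omega)
    exact congrArg (Fintype.equivFin Col).symm (Fin.ext h5)

theorem gad_agree {F : Type} [Field F] [Fintype F] [DecidableEq F] {r : ℕ}
    {p p' : Polynomial.degreeLT F r} (h : p ≠ p') :
    (Finset.univ.filter fun a : F => p.1.eval a = p'.1.eval a).card ≤ r := by
  have h0 : (p - p').1 ≠ 0 := fun e => h (sub_eq_zero.1 (Subtype.ext e))
  have h1 : (p - p').1.natDegree ≤ r :=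
    Polynomial.natDegree_le_iff_degree_le.2 (Polynomial.mem_degreeLT.1 (p - p').2).le
  refine le_trans ?_ h1
  refine Polynomial.card_le_degree_of_subset_roots fun a ha => ?_
  rw [Polynomial.mem_roots h0, Polynomial.IsRoot.def, Submodule.coe_sub, Polynomial.eval_sub,
    sub_eq_zero]
  exact (Finset.mem_filter.1 ha).2

theorem gadget_exists (Col : Type) [Fintype Col] [Nonempty Col] (η : ℝ) (R : ℕ) (hR : 0 < R)
    (hη : 2 * (Fintype.card Col : ℝ) ≤ η * R) (m : ℕ) (hm : 2 ≤ m)
    (hq : Fintype.card Col ≤ 2 ^ m) :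
    ∃ G : Gadget Col η, 2 ^ m ≤ G.nz ∧ G.nz ≤ 2 ^ ((2 ^ m) ^ 3) ∧ 2 ^ (2 ^ m / R) ≤ G.nd := by
  classical
  have hQ : 0 < Fintype.card Col := Fintype.card_pos
  have hq0 : 0 < 2 ^ m := by positivity
  have : NeZero (Fintype.card Col * 2 ^ m) := ⟨(Nat.mul_pos hQ hq0).ne'⟩
  let F := GaloisField 2 m
  let _ : Fintype F := Fintype.ofFinite F
  have hF : Fintype.card F = 2 ^ m := by
    rw [← Nat.card_eq_fintype_card]
    exact GaloisField.card 2 m (by omega)
  let P : (Fin (2 ^ m / R) → F) → Polynomial.degreeLT F (2 ^ m / R) :=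
    (Polynomial.degreeLTEquiv F _).symm
  have hP : Function.Injective P := (Polynomial.degreeLTEquiv F _).symm.injective
  let ip : (Fin (2 ^ m / R) → F) → (F × F → ZMod (Fintype.card Col * 2 ^ m)) →+
      ZMod (Fintype.card Col * 2 ^ m) := fun f =>
    { toFun := fun z => ∑ a, z (a, (P f).1.eval a)
      map_zero' := by simp
      map_add' := fun z z' => by simp [Finset.sum_add_distrib] }
  let u : (Fin (2 ^ m / R) → F) → F × F → ZMod (Fintype.card Col * 2 ^ m) := fun f p =>
    if p.2 = (P f).1.eval p.1 then 1 else 0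
  have hip : ∀ f f', ip f (u f') =
      ((Finset.univ.filter fun a : F => (P f).1.eval a = (P f').1.eval a).card : ℕ) := by
    intro f f'
    change ∑ a, (if (P f).1.eval a = (P f').1.eval a then (1 : ZMod _) else 0) = _
    rw [Finset.sum_boole]
  have hη' : 2 * ((Fintype.card Col : ℝ) * (2 ^ m / R : ℕ)) ≤ η * (2 ^ m : ℕ) := by
    have h1 : ((2 ^ m / R : ℕ) : ℝ) * R ≤ (2 ^ m : ℕ) := by
      exact_mod_cast Nat.div_mul_le_self _ _
    have h2 : (0 : ℝ) < R := by exact_mod_cast hR
    have h3 : 0 ≤ η := by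
      by_contra hc
      have h4 := mul_neg_of_neg_of_pos (not_le.1 hc) h2
      have h5 : (0 : ℝ) ≤ Fintype.card Col := Nat.cast_nonneg _
      linarith
    calc 2 * ((Fintype.card Col : ℝ) * (2 ^ m / R : ℕ))
        = 2 * (Fintype.card Col : ℝ) * (2 ^ m / R : ℕ) := by ring
      _ ≤ η * R * (2 ^ m / R : ℕ) := mul_le_mul_of_nonneg_right hη (Nat.cast_nonneg _)
      _ = η * ((2 ^ m / R : ℕ) * R) := by ring
      _ ≤ _ := mul_le_mul_of_nonneg_left h1 h3
  have hs : ∀ f, Function.Surjective (ip f) := by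
    intro f x
    refine ⟨fun p => if p.1 = 0 then x else 0, ?_⟩
    change ∑ a : F, (if a = 0 then x else 0) = x
    simp
  have hu : ∀ f, ip f (u f) = (2 ^ m : ℕ) := by
    intro f
    rw [hip]
    simp [hF]
  obtain ⟨G, h1, h2⟩ := gad_core Col η hq0 hη' ip u hs hu
    (fun f f' h => ⟨_, gad_agree (hP.ne h), hip f f'⟩)
  · rw [Fintype.card_fun, ZMod.card, Fintype.card_prod, hF] at h1
    rw [Fintype.card_fun, Fintype.card_fin, hF] at h2
    refine ⟨G, ?_, ?_, ?_⟩
    · rw [h1]
      exact (Nat.le_mul_of_pos_left _ hQ).trans (Nat.le_self_pow (by positivity) _)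
    · rw [h1]
      have h3 : Fintype.card Col * 2 ^ m ≤ 2 ^ 2 ^ m := by
        refine (Nat.mul_le_mul_right _ hq).trans ?_
        rw [← pow_add, ← two_mul]
        exact Nat.pow_le_pow_right (by norm_num) (Nat.mul_le_pow (by norm_num) m)
      refine (Nat.pow_le_pow_left h3 _).trans (le_of_eq ?_)
      rw [← pow_mul]
      congr 1
      ring
    · rw [h2]
      exact Nat.pow_le_pow_left (Nat.le_self_pow (by omega) 2) _

end Pool.Agent.P.MP_548a57_lc
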