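import Pool.Agent.P.MP_548a57_lc.Blueprint
import Pool.Agent.P.MP_548a57_lc.Gadget

/-!
Vertices, labels and edges of the fooling pair; the counting lemmas.
-/

namespace Pool.Agent.P.MP_548a57_lc

open Finset

/-- The old vertices. -/
abbrev Vtx {k : ℕ} (Init : Type) {Col : Type} {η : ℝ} (G : Fin k → Gadget Col η) : Type :=
  Init × ((i : Fin k) → Bool × Fin (G i).nz)

theorem card_fiber_of_bij {V A Y : Type} [Fintype V] [Fintype A] [Fintype Y] (g : V → A)
    (f : V → Y) (h : Function.Bijective fun v => (g v, f v)) (p : Y → Prop) [DecidablePred p] :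
    (univ.filter fun v => p (f v)).card = Fintype.card A * (univ.filter p).card ∧
      Fintype.card V = Fintype.card A * Fintype.card Y := by
  refine ⟨?_, by rw [Fintype.card_of_bijective h, Fintype.card_prod]⟩
  rw [← card_univ, ← card_product]
  refine card_bij (fun v _ => (g v, f v)) ?_ ?_ ?_
  · intro v hv
    simpa using hv
  · intro v _ w _ hvw
    exact h.1 hvw
  · rintro ⟨a, y⟩ hy
    obtain ⟨v, hv⟩ := h.2 (a, y)
    refine ⟨v, ?_, hv⟩
    have h2 : f v = y := congrArg Prod.snd hv
    simpa [h2] using hy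

theorem dens_of_bij {V A Y : Type} [Fintype V] [Fintype A] [Fintype Y] (g : V → A)
    (f : V → Y) (h : Function.Bijective fun v => (g v, f v)) (p : Y → Prop) [DecidablePred p]
    (θ : ℝ) (hp : ((univ.filter p).card : ℝ) ≤ θ * Fintype.card Y) :
    ((univ.filter fun v => p (f v)).card : ℝ) ≤ θ * Fintype.card V := by
  obtain ⟨h1, h2⟩ := card_fiber_of_bij g f h p
  rw [h1, h2]
  push_cast
  calc (Fintype.card A : ℝ) * (univ.filter p).card
      ≤ Fintype.card A * (θ * Fintype.card Y) := mul_le_mul_of_nonneg_left hp (Nat.cast_nonneg _)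
    _ = _ := by ring

theorem dens_ge_of_bij {V A Y : Type} [Fintype V] [Fintype A] [Fintype Y] (g : V → A)
    (f : V → Y) (h : Function.Bijective fun v => (g v, f v)) (p : Y → Prop) [DecidablePred p]
    (θ : ℝ) (hp : θ * Fintype.card Y ≤ ((univ.filter p).card : ℝ)) :
    θ * Fintype.card V ≤ ((univ.filter fun v => p (f v)).card : ℝ) := by
  obtain ⟨h1, h2⟩ := card_fiber_of_bij g f h p
  rw [h1, h2]
  push_cast
  calc θ * ((Fintype.card A : ℝ) * Fintype.card Y)
      = Fintype.card A * (θ * Fintype.card Y) := by ring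
    _ ≤ _ := mul_le_mul_of_nonneg_left hp (Nat.cast_nonneg _)

section

variable {k : ℕ} {Init Col : Type} {η : ℝ}

/-- The coordinates after phase `i`. -/
abbrev Suf (G : Fin k → Gadget Col η) (i : Fin k) : Type :=
  (i' : {i' : Fin k // i < i'}) → Bool × Fin (G i'.1).nz

/-- The coordinates before phase `i`. -/
abbrev Pre (G : Fin k → Gadget Col η) (i : Fin k) : Type :=
  (i' : {i' : Fin k // i' < i}) → Bool × Fin (G i'.1).nz

/-- The places of the hidden bits of one direction of phase `i`. -/
abbrev Idx (G : Fin k → Gadget Col η) (i : Fin k) : Type := Fin (G i).nl × Suf G i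

/-- The hidden data of phase `i`. -/
abbrev Hid (G : Fin k → Gadget Col η) (i : Fin k) : Type := Fin (G i).nd → Idx G i → Bool

/-- The declared direction and bits of phase `i`. -/
abbrev Chc (G : Fin k → Gadget Col η) (i : Fin k) : Type := Fin (G i).nd × (Idx G i → Bool)

variable {G : Fin k → Gadget Col η}

/-- The place of the hidden bit that governs the line of `v`. -/
def idx (i : Fin k) (j : Fin (G i).nd) (v : Vtx Init G) : Idx G i :=
  (((G i).φ j (v.2 i).2).1, fun i' => v.2 i'.1)

/-- The raw colour of `v`. -/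
def rcl (i : Fin k) (j : Fin (G i).nd) (v : Vtx Init G) : Col := ((G i).φ j (v.2 i).2).2

/-- The label of a vertex. -/
def lab (B : Blueprint k Init Col) (ch : (i : Fin k) → Chc G i) (v : Vtx Init G) :
    Lab k Init Col :=
  (v.1, fun i => ((v.2 i).1,
    B.Eff i (v.2 i).1 ((ch i).2 (idx i (ch i).1 v)) (rcl i (ch i).1 v)))

/-- The lines of a vertex in the declared directions. -/
def lns (ch : (i : Fin k) → Chc G i) (v : Vtx Init G) : (i : Fin k) → Fin (G i).nl :=
  fun i => ((G i).φ (ch i).1 (v.2 i).2).1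

theorem idx_bij (hG : ∀ i, 0 < (G i).nz) (i : Fin k) (j : Fin (G i).nd) :
    Function.Bijective fun v : Vtx Init G =>
      (((v.1, (fun i' => v.2 i'.1 : Pre G i), (v.2 i).1, rcl i j v) :
        Init × Pre G i × Bool × Col), idx i j v) := by
  classical
  constructor
  · intro v w h
    simp only [Prod.mk.injEq, idx, rcl] at h
    obtain ⟨⟨h1, h2, h3, h4⟩, h5, h6⟩ := h
    refine Prod.ext h1 (funext fun i' => ?_)
    rcases lt_trichotomy i' i with hl | rfl | hl
    · exact congrFun h2 ⟨i', hl⟩
    · exact Prod.ext h3 (((G i').φ j).injective (Prod.ext h5 h4))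
    · exact congrFun h6 ⟨i', hl⟩
  · rintro ⟨⟨a, p, τ, c⟩, l, sf⟩
    let base : (i' : Fin k) → Bool × Fin (G i').nz := fun i' =>
      if h : i' < i then p ⟨i', h⟩ else if h2 : i < i' then sf ⟨i', h2⟩ else (false, ⟨0, hG i'⟩)
    refine ⟨(a, Function.update base i (τ, ((G i).φ j).symm (l, c))), ?_⟩
    simp only [Prod.mk.injEq, idx, rcl, Function.update_self, Equiv.apply_symm_apply, true_and,
      and_true]
    constructor
    · funext i'
      rw [Function.update_of_ne (ne_of_lt i'.2)]
      simp only [base, dif_pos i'.2]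
    · funext i'
      rw [Function.update_of_ne (ne_of_gt i'.2)]
      simp only [base, dif_neg (not_lt_of_gt i'.2), dif_pos i'.2]

theorem pt_bij (hG : ∀ i, 0 < (G i).nz) (i : Fin k) :
    Function.Bijective fun v : Vtx Init G =>
      (((v.1, (v.2 i).1, fun i' : {i' : Fin k // i' ≠ i} => v.2 i'.1) :
        Init × Bool × ((i' : {i' : Fin k // i' ≠ i}) → Bool × Fin (G i'.1).nz)), (v.2 i).2) := by
  classical
  constructor
  · intro v w h
    simp only [Prod.mk.injEq] at h
    obtain ⟨⟨h1, h2, h3⟩, h4⟩ := h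
    refine Prod.ext h1 (funext fun i' => ?_)
    by_cases hi : i' = i
    · subst hi
      exact Prod.ext h2 h4
    · exact congrFun h3 ⟨i', hi⟩
  · rintro ⟨⟨a, τ, r⟩, z⟩
    let base : (i' : Fin k) → Bool × Fin (G i').nz := fun i' =>
      if h : i' ≠ i then r ⟨i', h⟩ else (false, ⟨0, hG i'⟩)
    refine ⟨(a, Function.update base i (τ, z)), ?_⟩
    simp only [Prod.mk.injEq, Function.update_self, true_and, and_true]
    funext i'
    rw [Function.update_of_ne i'.2]
    simp only [base, dif_pos i'.2]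

theorem card_rest [Fintype Init] [Fintype Col] (i : Fin k) :
    Fintype.card (Init × Pre G i × Bool × Col) =
      Fintype.card Init * (∏ i' ∈ univ.filter (fun i' => i' < i), (2 * (G i').nz)) *
        (2 * Fintype.card Col) := by
  classical
  rw [Fintype.card_prod, Fintype.card_prod, Fintype.card_prod, Fintype.card_pi, Fintype.card_bool,
    prod_subtype (univ.filter (fun i' => i' < i)) (p := fun i' => i' < i) (by simp)]
  simp only [Fintype.card_prod, Fintype.card_bool, Fintype.card_fin]
  ring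

/-- Labels and lines from some phase on determine the coordinates from that phase on. -/
theorem suffix_eq (B : Blueprint k Init Col) (ch : (i : Fin k) → Chc G i) (v w : Vtx Init G)
    (m : ℕ) (h : ∀ i : Fin k, m ≤ i.val → (lab B ch v).2 i = (lab B ch w).2 i ∧
      lns ch v i = lns ch w i) : ∀ i : Fin k, m ≤ i.val → v.2 i = w.2 i := by
  have key : ∀ d : ℕ, ∀ i : Fin k, k - i.val ≤ d → m ≤ i.val → v.2 i = w.2 i := by
    intro d
    induction d with
    | zero => intro i hi _; have := i.2; omega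
    | succ d ih =>
      intro i hi hm
      obtain ⟨h1, h2⟩ := h i hm
      have hidx : idx i (ch i).1 v = idx i (ch i).1 w := by
        refine Prod.ext h2 (funext fun i' => ?_)
        have h3 : i.val < i'.1.val := i'.2
        exact ih i'.1 (by omega) (by omega)
      have h4 : (v.2 i).1 = (w.2 i).1 := (congrArg Prod.fst h1 :)
      have h5 : B.Eff i (v.2 i).1 ((ch i).2 (idx i (ch i).1 v)) (rcl i (ch i).1 v) =
          B.Eff i (w.2 i).1 ((ch i).2 (idx i (ch i).1 w)) (rcl i (ch i).1 w) :=
        congrArg Prod.snd h1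
      rw [← h4, ← hidx] at h5
      have h6 := (B.Eff i _ _).injective h5
      exact Prod.ext h4 (((G i).φ (ch i).1).injective (Prod.ext h2 h6))
  intro i hi
  exact key _ i le_rfl hi

theorem lab_bij [Fintype Init] [Fintype Col] (B : Blueprint k Init Col)
    (ch : (i : Fin k) → Chc G i) :
    Function.Bijective fun v : Vtx Init G => (lns ch v, lab B ch v) := by
  classical
  rw [Fintype.bijective_iff_injective_and_card]
  constructor
  · intro v w h
    simp only [Prod.mk.injEq] at h
    obtain ⟨h1, h2⟩ := h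
    refine Prod.ext (congrArg Prod.fst h2 :) (funext fun i => ?_)
    exact suffix_eq B ch v w 0 (fun i _ => ⟨by rw [h2], by rw [h1]⟩) i (Nat.zero_le _)
  · have hz : ∀ i, (G i).nz = (G i).nl * Fintype.card Col := by
      intro i
      have := Fintype.card_congr ((G i).φ (ch i).1)
      simpa using this
    simp only [Fintype.card_prod, Fintype.card_pi, Fintype.card_bool, Fintype.card_fin, hz,
      prod_mul_distrib, prod_const, card_univ]
    ring

/-- Equal coordinates after phase `i` give equal label entries after phase `i`. -/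
theorem fut_of_suf (B : Blueprint k Init Col) (ch : (i : Fin k) → Chc G i) (v w : Vtx Init G)
    (i : Fin k) (h : ∀ i', i < i' → v.2 i' = w.2 i') : Fut i (lab B ch v) (lab B ch w) := by
  intro i' hi'
  have h1 : idx i' (ch i').1 v = idx i' (ch i').1 w := by
    refine Prod.ext ?_ (funext fun i'' => h _ (lt_trans hi' i''.2))
    simp only [idx, h i' hi']
  simp only [lab, h1, rcl, h i' hi']

theorem past_of_ch (B : Blueprint k Init Col) (ch ch' : (i : Fin k) → Chc G i) (v : Vtx Init G)
    (i : Fin k) (h : ∀ i', i' < i → ch i' = ch' i') : Past i (lab B ch v) (lab B ch' v) := by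
  refine ⟨rfl, fun i' hi' => ?_, rfl⟩
  simp only [lab, h i' hi']

/-- The edges of phase `i` for the hidden data `X`. -/
def EdgeRel (B : Blueprint k Init Col) (i : Fin k) (ch : (i : Fin k) → Chc G i) (X : Hid G i)
    (v w : Vtx Init G) : Prop :=
  B.P i (lab B ch v) (lab B ch w) ∧ ∃ j, idx i j v = idx i j w ∧
    B.CR (X j (idx i j v)) (rcl i j v) (rcl i j w)

theorem edgeRel_local (B : Blueprint k Init Col) (i : Fin k) (ch ch' : (i : Fin k) → Chc G i)
    (X : Hid G i) (h : ∀ i', i' < i → ch i' = ch' i') (v w : Vtx Init G)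
    (he : EdgeRel B i ch X v w) : EdgeRel B i ch' X v w :=
  ⟨B.P_local i _ _ _ _ (past_of_ch B ch ch' v i h) (past_of_ch B ch ch' w i h) he.1, he.2⟩

theorem edgeRel_suf {B : Blueprint k Init Col} {i : Fin k} {ch : (i : Fin k) → Chc G i}
    {X : Hid G i} {v w : Vtx Init G} (he : EdgeRel B i ch X v w) (i' : Fin k) (hi : i < i') :
    v.2 i' = w.2 i' := by
  obtain ⟨_, j, h1, _⟩ := he
  exact congrFun (congrArg Prod.snd h1) ⟨i', hi⟩

theorem edgeRel_ne {B : Blueprint k Init Col} {i : Fin k} {ch : (i : Fin k) → Chc G i}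
    {X : Hid G i} {v w : Vtx Init G} (he : EdgeRel B i ch X v w) : v.2 i ≠ w.2 i := by
  obtain ⟨_, j, _, h2⟩ := he
  intro h
  apply B.CR_ne _ _ _ h2
  simp only [rcl, h]

/-- Bad vertices: on the margin of the declared direction, or on a line where the two hidden bits
agree. -/
def BadV (ch : (i : Fin k) → Chc G i) (X' : (i : Fin k) → Hid G i) (v : Vtx Init G) : Prop :=
  ∃ i, (v.2 i).2 ∈ (G i).bad (ch i).1 ∨
    (ch i).2 (idx i (ch i).1 v) = X' i (ch i).1 (idx i (ch i).1 v)

/-- Every edge of the second stream has an end that is bad or not good. -/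
theorem no_edge_safe (B : Blueprint k Init Col) (ch : (i : Fin k) → Chc G i)
    (X' : (i : Fin k) → Hid G i) (i : Fin k) (v w : Vtx Init G)
    (he : EdgeRel B i ch (X' i) v w) (hv : ¬ BadV ch X' v) :
    ¬ (B.Good (lab B ch v) ∧ B.Good (lab B ch w)) := by
  have hf := fut_of_suf B ch v w i (edgeRel_suf he)
  obtain ⟨hP, j, h1, h2⟩ := he
  by_cases hj : (ch i).1 = j
  · subst hj
    refine B.no i _ _ _ _ ((ch i).2 (idx i (ch i).1 v)) _ hP hf
      (fun h => hv ⟨i, Or.inr h⟩) h2 rfl ?_
    rw [h1]; rfl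
  · have h3 : rcl i (ch i).1 v = rcl i (ch i).1 w :=
      (G i).keep _ _ _ _ hj (congrArg Prod.fst h1 :) (fun h => hv ⟨i, Or.inl h⟩)
    refine B.ban i _ _ (rcl i (ch i).1 v) ((ch i).2 (idx i (ch i).1 v))
      ((ch i).2 (idx i (ch i).1 w)) hP hf rfl ?_
    rw [h3]; rfl

/-- A linked pair of labels on the same lines is an edge of the first stream. -/
theorem yes_edge (B : Blueprint k Init Col) (ch : (i : Fin k) → Chc G i)
    (X : (i : Fin k) → Hid G i) (hX : ∀ i, (ch i).2 = X i (ch i).1) (v w : Vtx Init G)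
    (hv : lab B ch v ∈ B.I) (hw : lab B ch w = B.J (lab B ch v)) (hl : lns ch w = lns ch v) :
    ∃ i, EdgeRel B i ch (X i) v w := by
  obtain ⟨i, h1, h2, h3⟩ := B.link _ hv
  rw [← hw] at h1 h2 h3
  have hs : ∀ i' : Fin k, i.val + 1 ≤ i'.val → v.2 i' = w.2 i' :=
    suffix_eq B ch v w (i.val + 1) fun i' hi' => ⟨h2 i' hi', by rw [hl]⟩
  have hidx : idx i (ch i).1 v = idx i (ch i).1 w :=
    Prod.ext (congrFun hl i).symm (funext fun i' => hs i'.1 i'.2)
  refine ⟨i, h1, (ch i).1, hidx, ?_⟩
  have h4 := h3 ((ch i).2 (idx i (ch i).1 v))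
  have h5 : ((lab B ch v).2 i).2 = B.Eff i ((lab B ch v).2 i).1 ((ch i).2 (idx i (ch i).1 v))
      (rcl i (ch i).1 v) := rfl
  have h6 : ((lab B ch w).2 i).2 = B.Eff i ((lab B ch w).2 i).1 ((ch i).2 (idx i (ch i).1 v))
      (rcl i (ch i).1 w) := by rw [hidx]; rfl
  rw [h5, h6, Equiv.symm_apply_apply, Equiv.symm_apply_apply, hX] at h4
  exact h4

open Classical in
theorem bad_card [Fintype Init] [Fintype Col] (hG : ∀ i, 0 < (G i).nz)
    (ch : (i : Fin k) → Chc G i) (X' : (i : Fin k) → Hid G i) (δ : ℝ)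
    (h : ∀ i, ((univ.filter fun p => (ch i).2 p = X' i (ch i).1 p).card : ℝ) ≤
      δ * Fintype.card (Idx G i)) :
    ((univ.filter fun v : Vtx Init G => BadV ch X' v).card : ℝ) ≤
      k * (η + δ) * Fintype.card (Vtx Init G) := by
  have h1 : (univ.filter fun v : Vtx Init G => BadV ch X' v) ⊆
      univ.biUnion fun i : Fin k =>
        (univ.filter fun v : Vtx Init G => (v.2 i).2 ∈ (G i).bad (ch i).1) ∪
        (univ.filter fun v : Vtx Init G =>
          (ch i).2 (idx i (ch i).1 v) = X' i (ch i).1 (idx i (ch i).1 v)) := by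
    intro v hv
    obtain ⟨i, hi⟩ := (mem_filter.1 hv).2
    refine mem_biUnion.2 ⟨i, mem_univ _, ?_⟩
    rcases hi with hi | hi
    · exact mem_union_left _ (mem_filter.2 ⟨mem_univ _, hi⟩)
    · exact mem_union_right _ (mem_filter.2 ⟨mem_univ _, hi⟩)
  have h2 := (card_le_card h1).trans card_biUnion_le
  have h3 : ∀ i : Fin k,
      (((univ.filter fun v : Vtx Init G => (v.2 i).2 ∈ (G i).bad (ch i).1) ∪
        (univ.filter fun v : Vtx Init G =>
          (ch i).2 (idx i (ch i).1 v) = X' i (ch i).1 (idx i (ch i).1 v))).card : ℝ) ≤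
        (η + δ) * Fintype.card (Vtx Init G) := by
    intro i
    have h4 := dens_of_bij _ _ (pt_bij (Init := Init) hG i) (fun z => z ∈ (G i).bad (ch i).1) η
      (by simpa using (G i).bad_card (ch i).1)
    have h5 := dens_of_bij _ _ (idx_bij (Init := Init) hG i (ch i).1)
      (fun p => (ch i).2 p = X' i (ch i).1 p) δ (h i)
    have h6 := card_union_le (univ.filter fun v : Vtx Init G => (v.2 i).2 ∈ (G i).bad (ch i).1)
      (univ.filter fun v : Vtx Init G =>
          (ch i).2 (idx i (ch i).1 v) = X' i (ch i).1 (idx i (ch i).1 v))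
    have h7 := (Nat.cast_le (α := ℝ)).2 h6
    push_cast at h7
    linarith
  have h8 := (Nat.cast_le (α := ℝ)).2 h2
  rw [Nat.cast_sum] at h8
  refine h8.trans ((sum_le_sum fun i _ => h3 i).trans ?_)
  simp only [sum_const, card_univ, Fintype.card_fin, nsmul_eq_mul]
  exact le_of_eq (by ring)

end

end Pool.Agent.P.MP_548a57_lc
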