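import Mathlib

/-!
Deterministic one-pass streaming algorithms for the size of a maximum matching.
-/

namespace Pool.Agent.P.MP_548a57_lc

/-- The matching number: the largest number of edges of a matching of `G`. -/
noncomputable def matchNum {V : Type} (G : SimpleGraph V) : ℕ :=
  sSup {m : ℕ | ∃ M : G.Subgraph, M.IsMatching ∧ M.edgeSet.ncard = m}

/-- A deterministic one-pass streaming algorithm for graphs on the vertex set `Fin n`:
its memory is a word of `bits` bits, it starts from `init`, every arriving edge changes the
memory by an arbitrary rule `step`, and the answer is read off the final memory by `out`. -/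
structure DetAlg (n : ℕ) where
  bits : ℕ
  init : Fin bits → Bool
  step : (Fin bits → Bool) → Sym2 (Fin n) → (Fin bits → Bool)
  out : (Fin bits → Bool) → ℝ

/-- The number the algorithm outputs after reading the stream `l`. -/
def DetAlg.run {n : ℕ} (A : DetAlg n) (l : List (Sym2 (Fin n))) : ℝ :=
  A.out (l.foldl A.step A.init)

/-- The list `l` presents every edge of `G` exactly once, in some order. -/
def IsStream {n : ℕ} (G : SimpleGraph (Fin n)) (l : List (Sym2 (Fin n))) : Prop :=
  l.Nodup ∧ ∀ e, e ∈ l ↔ e ∈ G.edgeSet

/-- A family of algorithms, one for each `n`, whose memory is `O(n polylog n)` bits. -/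
def SemiStreaming (A : (n : ℕ) → DetAlg n) : Prop :=
  ∃ c C n₀ : ℕ, ∀ n, n₀ ≤ n → (A n).bits ≤ c * n * (Nat.log 2 n) ^ C

/-- On the graph `G`, for every edge order, the output `X` satisfies `α ν(G) ≤ X ≤ ν(G)`. -/
def ApproxOn {n : ℕ} (α : ℝ) (A : DetAlg n) (G : SimpleGraph (Fin n)) : Prop :=
  ∀ l, IsStream G l → α * matchNum G ≤ A.run l ∧ A.run l ≤ matchNum G

end Pool.Agent.P.MP_548a57_lc
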