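import Pool.Agent.P.MP_548a57_lc.Match

/-!
The greedy algorithm gives ratio one half.
-/

namespace Pool.Agent.P.MP_548a57_lc

open Classical in
/-- One step of the greedy algorithm. -/
noncomputable def greedyStep {n : ℕ} (s : Fin n → Bool) (e : Sym2 (Fin n)) : Fin n → Bool :=
  if ∀ x ∈ e, s x = false then fun x => s x || decide (x ∈ e) else s

/-- The greedy algorithm; its memory is the set of matched vertices. -/
noncomputable def greedyAlg (n : ℕ) : DetAlg n where
  bits := n
  init := fun _ => false
  step := greedyStep
  out s := ((Finset.univ.filter fun x => s x = true).card : ℝ) / 2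

theorem greedy_inv {n : ℕ} (G : SimpleGraph (Fin n)) (l : List (Sym2 (Fin n)))
    (hl : ∀ e ∈ l, e ∈ G.edgeSet) : ∃ M : Finset (Fin n × Fin n), (∀ p ∈ M, G.Adj p.1 p.2) ∧
      DisjPairs M ∧
      (∀ p ∈ M, l.foldl greedyStep (fun _ => false) p.1 = true ∧
        l.foldl greedyStep (fun _ => false) p.2 = true) ∧
      (Finset.univ.filter fun x : Fin n =>
        l.foldl greedyStep (fun _ => false) x = true).card = 2 * M.card ∧
      ∀ e ∈ l, ∃ x ∈ e, l.foldl greedyStep (fun _ => false) x = true := by
  classical
  induction l using List.reverseRecOn with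
  | nil => exact ⟨∅, by simp, by simp [DisjPairs], by simp, by simp, by simp⟩
  | append_singleton l e ih =>
    obtain ⟨M, h₁, h₂, h₃, h₄, h₅⟩ := ih fun e he => hl e (by simp [he])
    rw [List.foldl_append, List.foldl_cons, List.foldl_nil]
    generalize l.foldl greedyStep (fun _ => false) = s at *
    by_cases h : ∀ x ∈ e, s x = false
    · have hs : ∀ x : Fin n, greedyStep s e x = true ↔ s x = true ∨ x ∈ e := fun x => by
        simp only [greedyStep]
        rw [if_pos h]
        simp
      have he := hl e (by simp)
      induction e using Sym2.ind with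
      | h u v =>
        have huv : G.Adj u v := he
        have hu : s u = false := h u (by simp)
        have hv : s v = false := h v (by simp)
        have hd : ∀ p ∈ M, u ≠ p.1 ∧ u ≠ p.2 ∧ v ≠ p.1 ∧ v ≠ p.2 := fun p hp => by
          obtain ⟨a, b⟩ := h₃ p hp
          refine ⟨?_, ?_, ?_, ?_⟩ <;> rintro rfl <;> simp_all
        have hn : (u, v) ∉ M := fun hp => (hd _ hp).1 rfl
        refine ⟨insert (u, v) M, ?_, ?_, ?_, ?_, ?_⟩
        · intro p hp
          rcases Finset.mem_insert.1 hp with rfl | hp
          · exact huv
          · exact h₁ p hp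
        · intro p hp p' hp' hne
          rcases Finset.mem_insert.1 hp with rfl | hp <;>
            rcases Finset.mem_insert.1 hp' with rfl | hp'
          · exact absurd rfl hne
          · exact hd p' hp'
          · obtain ⟨a, b, c, d⟩ := hd p hp
            exact ⟨a.symm, c.symm, b.symm, d.symm⟩
          · exact h₂ p hp p' hp' hne
        · intro p hp
          rw [hs, hs]
          rcases Finset.mem_insert.1 hp with rfl | hp
          · simp
          · exact ⟨Or.inl (h₃ p hp).1, Or.inl (h₃ p hp).2⟩
        · have e₁ : (Finset.univ.filter fun x : Fin n => greedyStep s s(u, v) x = true) =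
              insert u (insert v (Finset.univ.filter fun x => s x = true)) := by
            ext x
            simp only [Finset.mem_filter, Finset.mem_univ, true_and, hs, Finset.mem_insert,
              Sym2.mem_iff]
            tauto
          rw [e₁, Finset.card_insert_of_notMem (by simp [hu, huv.ne]),
            Finset.card_insert_of_notMem (by simp [hv]), Finset.card_insert_of_notMem hn, h₄]
          ring
        · intro e' he'
          rcases List.mem_append.1 he' with he' | he'
          · obtain ⟨x, hx, hx'⟩ := h₅ e' he'
            exact ⟨x, hx, (hs x).2 (Or.inl hx')⟩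
          · rw [List.mem_singleton.1 he']
            exact ⟨u, by simp, (hs u).2 (Or.inr (by simp))⟩
    · have hs : greedyStep s e = s := by
        simp only [greedyStep]
        rw [if_neg h]
      rw [hs]
      refine ⟨M, h₁, h₂, h₃, h₄, fun e' he' => ?_⟩
      rcases List.mem_append.1 he' with he' | he'
      · exact h₅ e' he'
      · rw [List.mem_singleton.1 he']
        simpa using h

theorem greedy_half : ∃ A : (n : ℕ) → DetAlg n, SemiStreaming A ∧
    ∀ (n : ℕ) (G : SimpleGraph (Fin n)), ApproxOn (1 / 2) (A n) G := by
  classical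
  refine ⟨greedyAlg, ⟨1, 0, 0, fun n _ => by simp [greedyAlg]⟩, fun n G l hl => ?_⟩
  obtain ⟨M, h₁, h₂, -, h₄, h₅⟩ := greedy_inv G l fun e he => (hl.2 e).1 he
  have a₁ := card_le_matchNum G M h₁ h₂
  have a₂ := matchNum_le_cover G (Finset.univ.filter fun x : Fin n =>
    l.foldl greedyStep (fun _ => false) x = true) fun u v huv => by
      obtain ⟨x, hx, hx'⟩ := h₅ s(u, v) ((hl.2 _).2 huv)
      rcases Sym2.mem_iff.1 hx with rfl | rfl
      · exact Or.inl (by simpa using hx')
      · exact Or.inr (by simpa using hx')
  have e : (greedyAlg n).run l = M.card := by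
    change (((Finset.univ.filter fun x : Fin n =>
      l.foldl greedyStep (fun _ => false) x = true).card : ℕ) : ℝ) / 2 = _
    rw [h₄]; push_cast; ring
  rw [h₄] at a₂
  rw [e]
  have a₂' : (matchNum G : ℝ) ≤ 2 * M.card := by exact_mod_cast a₂
  exact ⟨by linarith, by exact_mod_cast a₁⟩

end Pool.Agent.P.MP_548a57_lc
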