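import Pool.Agent.P.MP_548a57_lc.Gadget

/-!
Choice of the sizes of the gadgets.
-/

namespace Pool.Agent.P.MP_548a57_lc

open Finset

theorem params_exp (a b : ℕ) : ∃ m : ℕ, 2 ≤ m ∧ a + b * m ≤ 2 ^ m := by
  refine ⟨2 * (a + 2 * b + 1), by omega, ?_⟩
  have h1 : a + 2 * b + 1 ≤ 2 ^ (a + 2 * b + 1) := Nat.lt_two_pow_self.le
  calc a + b * (2 * (a + 2 * b + 1)) ≤ (a + 2 * b + 1) * (a + 2 * b + 1) := by nlinarith
    _ ≤ 2 ^ (a + 2 * b + 1) * 2 ^ (a + 2 * b + 1) := Nat.mul_le_mul h1 h1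
    _ = 2 ^ (2 * (a + 2 * b + 1)) := by rw [← pow_add, two_mul (a + 2 * b + 1)]

theorem params_prod {ι : Type} (s : Finset ι) (f g : ι → ℕ) (h : ∀ i, f i ≤ 2 ^ g i) :
    ∏ i ∈ s, (2 * f i) ≤ 2 ^ ∑ i ∈ s, (1 + g i) := by
  rw [← Finset.prod_pow_eq_pow_sum]
  refine Finset.prod_le_prod' fun i _ => ?_
  rw [pow_add, pow_one]
  exact Nat.mul_le_mul_left 2 (h i)

theorem params_step {m i j : ℕ} (h : i < j) :
    2 ^ m * (1 + (2 ^ (m * 4 ^ i)) ^ 3) ≤ 2 * 2 ^ (m * 4 ^ j) := by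
  have h1 : 1 ≤ 4 ^ i := Nat.one_le_pow _ _ (by norm_num)
  have h2 : 4 ^ i * 4 ≤ 4 ^ j := by
    rw [← pow_succ]
    exact Nat.pow_le_pow_right (by norm_num) h
  have h3 : m + m * 4 ^ i * 3 ≤ m * 4 ^ j := by
    have := Nat.mul_le_mul_left m h2
    have := Nat.mul_le_mul_left m h1
    nlinarith
  have h4 : 2 ^ m * (2 ^ (m * 4 ^ i)) ^ 3 ≤ 2 ^ (m * 4 ^ j) := by
    rw [← pow_mul, ← pow_add]
    exact Nat.pow_le_pow_right (by norm_num) h3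
  have h5 : 2 ^ m ≤ 2 ^ (m * 4 ^ j) := Nat.pow_le_pow_right (by norm_num) (by omega)
  rw [mul_add, mul_one]
  omega

theorem params (Col : Type) [Fintype Col] [Nonempty Col] (k : ℕ) (hk : 0 < k) (cI : ℕ)
    (hcI : 0 < cI) (η δ : ℝ) (hη : 0 < η) (hδ : 0 < δ) (c C n₀ : ℕ) :
    ∃ G : Fin k → Gadget Col η, (∀ i, 0 < (G i).nz) ∧
      n₀ ≤ 2 * (cI * ∏ i, (2 * (G i).nz)) ∧
      ∀ i : Fin k,
        4 * (c : ℝ) * ((Nat.log 2 (2 * (cI * ∏ i, (2 * (G i).nz))) : ℕ) : ℝ) ^ C *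
            ((cI * (∏ i' ∈ univ.filter (fun i' => i' < i), (2 * (G i').nz)) *
              (2 * Fintype.card Col) : ℕ) : ℝ)
          < δ ^ 2 * (G i).nd := by
  obtain ⟨R, hR⟩ := exists_nat_gt (2 * (Fintype.card Col : ℝ) / η)
  have hR0 : 0 < R := by
    have h0 : (0 : ℝ) ≤ 2 * (Fintype.card Col : ℝ) / η := by positivity
    exact_mod_cast h0.trans_lt hR
  have hηR : 2 * (Fintype.card Col : ℝ) ≤ η * R := by
    rw [div_lt_iff₀ hη] at hR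
    linarith
  obtain ⟨A0, hA0⟩ := exists_nat_gt (4 * (c : ℝ) * (cI * (2 * Fintype.card Col)) / δ ^ 2)
  have hδ2 : 0 < δ ^ 2 := by positivity
  set A := A0 + cI with hA
  have hA1 : cI ≤ 2 ^ A := (Nat.le_add_left cI A0).trans Nat.lt_two_pow_self.le
  have hA2 : 4 * (c : ℝ) * (cI * (2 * Fintype.card Col)) < δ ^ 2 * 2 ^ A := by
    rw [div_lt_iff₀ hδ2] at hA0
    have h1 : A0 ≤ 2 ^ A := (Nat.le_add_right A0 cI).trans Nat.lt_two_pow_self.le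
    have h2 : (A0 : ℝ) ≤ 2 ^ A := by exact_mod_cast h1
    nlinarith
  set C' := C * (4 ^ k + 1) with hC'
  obtain ⟨m, hm2, hm⟩ := params_exp
    (Fintype.card Col + n₀ + (1 + A + 2 * k) + 4 * k * R + 2 * R * A) (2 * R * C')
  have hpow : ∀ i : ℕ, m ≤ m * 4 ^ i := fun i =>
    Nat.le_mul_of_pos_right m (Nat.pow_pos (by norm_num))
  have hy : ∀ i : ℕ, 2 ^ m ≤ 2 ^ (m * 4 ^ i) := fun i =>
    Nat.pow_le_pow_right (by norm_num) (hpow i)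
  choose G hG1 hG2 hG3 using fun i : Fin k => gadget_exists Col η R hR0 hηR (m * 4 ^ i.val)
    (hm2.trans (hpow i)) (le_trans (by omega) (hy i))
  have hpos : ∀ i, 0 < (G i).nz := fun i => (Nat.pow_pos (by norm_num)).trans_le (hG1 i)
  refine ⟨G, hpos, ?_, fun i => ?_⟩
  · have h1 : 2 * (G ⟨0, hk⟩).nz ≤ ∏ i, (2 * (G i).nz) :=
      Finset.single_le_prod' (f := fun i => 2 * (G i).nz)
        (fun i _ => by have := hpos i; omega) (mem_univ _)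
    have h2 := (hy 0).trans (hG1 ⟨0, hk⟩)
    have h3 : ∏ i, (2 * (G i).nz) ≤ cI * ∏ i, (2 * (G i).nz) := Nat.le_mul_of_pos_left _ hcI
    omega
  have hT : 1 ≤ 2 ^ (m * 4 ^ k) := Nat.one_le_two_pow
  have hy1 : 1 ≤ 2 ^ m := Nat.one_le_two_pow
  have hlog : Nat.log 2 (2 * (cI * ∏ i, (2 * (G i).nz))) ≤ 2 ^ (m * (4 ^ k + 1)) := by
    have h1 := params_prod univ (fun i => (G i).nz) (fun i => (2 ^ (m * 4 ^ i.val)) ^ 3) hG2
    have h2 : ∑ i : Fin k, (1 + (2 ^ (m * 4 ^ i.val)) ^ 3) ≤ k * (2 * 2 ^ (m * 4 ^ k)) := by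
      have h := Finset.sum_le_card_nsmul (univ : Finset (Fin k))
        (fun i => 1 + (2 ^ (m * 4 ^ i.val)) ^ 3) (2 * 2 ^ (m * 4 ^ k))
        (fun i _ => (Nat.le_mul_of_pos_left _ hy1).trans (params_step i.2))
      simpa using h
    have h3 : 2 * (cI * ∏ i, (2 * (G i).nz)) ≤ 2 ^ (1 + A + k * (2 * 2 ^ (m * 4 ^ k))) := by
      rw [pow_add, pow_add, pow_one, mul_assoc]
      exact Nat.mul_le_mul_left 2 (Nat.mul_le_mul hA1
        (h1.trans (Nat.pow_le_pow_right (by norm_num) h2)))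
    calc Nat.log 2 (2 * (cI * ∏ i, (2 * (G i).nz)))
        ≤ Nat.log 2 (2 ^ (1 + A + k * (2 * 2 ^ (m * 4 ^ k)))) := Nat.log_mono_right h3
      _ = 1 + A + k * (2 * 2 ^ (m * 4 ^ k)) := Nat.log_pow (by norm_num) _
      _ ≤ (1 + A + 2 * k) * 2 ^ (m * 4 ^ k) := by nlinarith
      _ ≤ 2 ^ m * 2 ^ (m * 4 ^ k) := Nat.mul_le_mul_right _ (by omega)
      _ = 2 ^ (m * (4 ^ k + 1)) := by rw [← pow_add]; congr 1; ring
  have hlogC : Nat.log 2 (2 * (cI * ∏ i, (2 * (G i).nz))) ^ C ≤ 2 ^ (C' * m) := by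
    refine (Nat.pow_le_pow_left hlog C).trans (le_of_eq ?_)
    rw [← pow_mul]
    congr 1
    rw [hC']
    ring
  set Sg := ∑ i' ∈ univ.filter (fun i' => i' < i), (1 + (2 ^ (m * 4 ^ i'.val)) ^ 3) with hSg
  have hprod : ∏ i' ∈ univ.filter (fun i' => i' < i), (2 * (G i').nz) ≤ 2 ^ Sg :=
    params_prod _ (fun i => (G i).nz) (fun i => (2 ^ (m * 4 ^ i.val)) ^ 3) hG2
  have hS1 : 2 ^ m * Sg ≤ k * (2 * 2 ^ (m * 4 ^ i.val)) := by
    rw [hSg, Finset.mul_sum]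
    have h := Finset.sum_le_card_nsmul (univ.filter (fun i' => i' < i))
      (fun i' : Fin k => 2 ^ m * (1 + (2 ^ (m * 4 ^ i'.val)) ^ 3)) (2 * 2 ^ (m * 4 ^ i.val))
      (fun i' hi' => params_step (mem_filter.1 hi').2)
    refine h.trans ?_
    rw [smul_eq_mul]
    refine Nat.mul_le_mul_right _ ?_
    simpa using Finset.card_le_univ (univ.filter (fun i' => i' < i))
  have hS2 : 2 * R * Sg ≤ 2 ^ (m * 4 ^ i.val) := by
    have h1 : 4 * k * R * Sg ≤ 2 ^ m * Sg := Nat.mul_le_mul_right _ (by omega)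
    refine Nat.le_of_mul_le_mul_left (c := 2 * k) ?_ (by omega)
    nlinarith
  have hS3 : A + (C' * m + Sg) ≤ 2 ^ (m * 4 ^ i.val) / R := by
    rw [Nat.le_div_iff_mul_le hR0]
    have h1 : 2 * R * A + 2 * R * C' * m ≤ 2 ^ (m * 4 ^ i.val) := le_trans (by omega) (hy i)
    nlinarith
  have hnd : 2 ^ A * (2 ^ (C' * m) * 2 ^ Sg) ≤ (G i).nd := by
    rw [← pow_add, ← pow_add]
    exact (Nat.pow_le_pow_right (by norm_num) hS3).trans (hG3 i)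
  have hnd' : (2 : ℝ) ^ A * (2 ^ (C' * m) * 2 ^ Sg) ≤ (G i).nd := by exact_mod_cast hnd
  have hmul : ((Nat.log 2 (2 * (cI * ∏ i, (2 * (G i).nz))) : ℕ) : ℝ) ^ C *
      ((∏ i' ∈ univ.filter (fun i' => i' < i), (2 * (G i').nz) : ℕ) : ℝ) ≤
        2 ^ (C' * m) * 2 ^ Sg := by
    exact_mod_cast Nat.mul_le_mul hlogC hprod
  calc 4 * (c : ℝ) * ((Nat.log 2 (2 * (cI * ∏ i, (2 * (G i).nz))) : ℕ) : ℝ) ^ C *
            ((cI * (∏ i' ∈ univ.filter (fun i' => i' < i), (2 * (G i').nz)) *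
              (2 * Fintype.card Col) : ℕ) : ℝ)
      = 4 * (c : ℝ) * (cI * (2 * Fintype.card Col)) *
          (((Nat.log 2 (2 * (cI * ∏ i, (2 * (G i).nz))) : ℕ) : ℝ) ^ C *
            ((∏ i' ∈ univ.filter (fun i' => i' < i), (2 * (G i').nz) : ℕ) : ℝ)) := by
        rw [Nat.cast_mul, Nat.cast_mul, Nat.cast_mul, Nat.cast_ofNat]
        ring
    _ ≤ 4 * (c : ℝ) * (cI * (2 * Fintype.card Col)) * (2 ^ (C' * m) * 2 ^ Sg) := by gcongr
    _ < δ ^ 2 * 2 ^ A * (2 ^ (C' * m) * 2 ^ Sg) := by gcongr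
    _ ≤ δ ^ 2 * (G i).nd := by
        rw [mul_assoc]
        gcongr

end Pool.Agent.P.MP_548a57_lc
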