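import Pool.Agent.P.MP_548a57_lc.BlueMain
import Pool.Agent.P.MP_548a57_lc.Compile
import Pool.Agent.P.MP_548a57_lc.Params
import Pool.Agent.P.MP_548a57_lc.Greedy

/-!
No deterministic semi-streaming algorithm beats one half.
-/

namespace Pool.Agent.P.MP_548a57_lc

open Finset

theorem no_better (α : ℝ) (hα : 1 / 2 < α) (A : (n : ℕ) → DetAlg n) (hA : SemiStreaming A) :
    ¬ ∀ (n : ℕ) (G : SimpleGraph (Fin n)), G.IsBipartite → ApproxOn α (A n) G := by
  classical
  intro happ
  obtain ⟨c, C, n₀, hmem⟩ := hA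
  set α' : ℝ := min α 1 with hα'
  have hα1 : 1 / 2 < α' := lt_min hα (by norm_num)
  have hα2 : α' ≤ 1 := min_le_right _ _
  have hα3 : α' ≤ α := min_le_left _ _
  set ε : ℝ := (α' - 1 / 2) / 2 with hεdef
  have hε : 0 < ε := by rw [hεdef]; linarith
  obtain ⟨D, M, S, B, β, hk, hS, hβ, hbad, hI⟩ := blueprint_exists ε hε
  have : Nonempty (Fin S) := ⟨⟨0, hS⟩⟩
  have hkR : (0 : ℝ) < (D * M : ℕ) := by exact_mod_cast hk
  set θ : ℝ := ε * β / (2 * (D * M : ℕ)) with hθ
  have hθpos : 0 < θ := by positivity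
  have hcI : 0 < Fintype.card (Bool × Fin S) := Fintype.card_pos
  obtain ⟨G, hG, hn₀, hpar⟩ := params (Cl D) (D * M) hk (Fintype.card (Bool × Fin S)) hcI θ θ
    hθpos hθpos c C n₀
  set W : Type := Vtx (Bool × Fin S) G ⊕ Vtx (Bool × Fin S) G with hW
  have hV : Fintype.card (Vtx (Bool × Fin S) G) =
      Fintype.card (Bool × Fin S) * ∏ i, (2 * (G i).nz) := by
    simp [Vtx, Fintype.card_prod, Fintype.card_pi]
  set n : ℕ := 2 * (Fintype.card (Bool × Fin S) * ∏ i, (2 * (G i).nz)) with hn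
  have hWn : Fintype.card W = n := by
    simp only [hW, Fintype.card_sum, hV, hn]; ring
  let e : W ≃ Fin n := Fintype.equivFinOfCardEq hWn
  have hVpos : (0 : ℝ) < Fintype.card (Vtx (Bool × Fin S) G) := by
    rw [hV]
    have : 0 < ∏ i, (2 * (G i).nz) := prod_pos fun i _ => by have := hG i; omega
    exact_mod_cast Nat.mul_pos hcI this
  have hs : ∀ i : Fin (D * M), 2 * ((c * n * (Nat.log 2 n) ^ C : ℕ) : ℝ) *
      ((Fintype.card (Bool × Fin S) * (∏ i' ∈ univ.filter (fun i' => i' < i), (2 * (G i').nz)) *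
        (2 * Fintype.card (Cl D)) : ℕ) : ℝ)
      < θ ^ 2 * Fintype.card (Vtx (Bool × Fin S) G) * (G i).nd := by
    intro i
    have h1 := mul_lt_mul_of_pos_left (hpar i) hVpos
    have h2 : (n : ℝ) = 2 * Fintype.card (Vtx (Bool × Fin S) G) := by
      rw [hV, hn]; push_cast; ring
    calc _ = (Fintype.card (Vtx (Bool × Fin S) G) : ℝ) *
          (4 * (c : ℝ) * ((Nat.log 2 n : ℕ) : ℝ) ^ C *
          ((Fintype.card (Bool × Fin S) *
            (∏ i' ∈ univ.filter (fun i' => i' < i), (2 * (G i').nz)) *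
              (2 * Fintype.card (Cl D)) : ℕ) : ℝ)) := by
            rw [Nat.cast_mul, Nat.cast_mul, Nat.cast_pow, h2]; ring
      _ < _ := h1
      _ = _ := by ring
  have hSt : Fintype.card (Fin (A n).bits → Bool) ≤ 2 ^ (c * n * (Nat.log 2 n) ^ C) := by
    rw [Fintype.card_fun, Fintype.card_bool, Fintype.card_fin]
    exact Nat.pow_le_pow_right (by norm_num) (hmem n hn₀)
  obtain ⟨l, l', col, Cv, Mt, hnd, hnd', hcol, hcol', hrun, hcov, hMl, hMd, hC1, hC2⟩ :=
    compile B hθpos.le G hG θ hθpos β ((1 - ε) * β) hbad hI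
      (fun st (ed : Sym2 W) => (A n).step st (ed.map e)) (A n).init _ hSt hs
  have hinj : Function.Injective (Sym2.map e : Sym2 W → Sym2 (Fin n)) :=
    Sym2.map.injective e.injective
  -- the graph of a list of edges
  have key : ∀ L : List (Sym2 W), L.Nodup → (∀ u v, s(u, v) ∈ L → col u ≠ col v) →
      ∃ H : SimpleGraph (Fin n), H.IsBipartite ∧ IsStream H (L.map (Sym2.map e)) ∧
        ∀ u v, H.Adj (e u) (e v) ↔ s(u, v) ∈ L := by
    intro L hL hc
    let H : SimpleGraph (Fin n) :=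
      { Adj := fun x y => s(e.symm x, e.symm y) ∈ L
        symm := ⟨fun x y h => by rwa [Sym2.eq_swap]⟩
        loopless := ⟨fun x h => hc _ _ h rfl⟩ }
    refine ⟨H, ?_, ⟨hL.map hinj, ?_⟩, fun u v => by simp [H]⟩
    · refine ⟨SimpleGraph.Coloring.mk (fun x => if col (e.symm x) then 0 else 1) ?_⟩
      intro x y hxy
      have := hc _ _ hxy
      revert this
      cases col (e.symm x) <;> cases col (e.symm y) <;> simp
    · intro ed
      induction ed using Sym2.ind with
      | _ x y =>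
        rw [SimpleGraph.mem_edgeSet, List.mem_map]
        constructor
        · rintro ⟨ed', hed', he⟩
          have : ed' = s(e.symm x, e.symm y) := by
            apply hinj
            rw [he]; simp
          show s(e.symm x, e.symm y) ∈ L
          rwa [← this]
        · intro h
          exact ⟨_, h, by simp⟩
  obtain ⟨H, hHb, hHs, hHa⟩ := key l hnd hcol
  obtain ⟨H', hHb', hHs', hHa'⟩ := key l' hnd' hcol'
  have h1 := (happ n H hHb _ hHs).1
  have h2 := (happ n H' hHb' _ hHs').2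
  have hsame : (A n).run (l.map (Sym2.map e)) = (A n).run (l'.map (Sym2.map e)) := by
    unfold DetAlg.run
    rw [List.foldl_map, List.foldl_map, hrun]
  have h3 : Mt.card ≤ matchNum H := by
    have := card_le_matchNum H (Mt.map ⟨fun p => (e p.1, e p.2), fun p q h => by
      simp only [Prod.mk.injEq, e.injective.eq_iff] at h
      exact Prod.ext h.1 h.2⟩) ?_ ?_
    · simpa using this
    · intro p hp
      obtain ⟨q, hq, rfl⟩ := mem_map.1 hp
      exact (hHa _ _).2 (hMl q hq)
    · intro p hp p' hp' hne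
      obtain ⟨q, hq, rfl⟩ := mem_map.1 hp
      obtain ⟨q', hq', rfl⟩ := mem_map.1 hp'
      have := hMd q hq q' hq' (fun h => hne (by rw [h]))
      simpa [e.injective.ne_iff] using this
  have h4 : matchNum H' ≤ Cv.card := by
    have := matchNum_le_cover H' (Cv.map e.toEmbedding) ?_
    · simpa using this
    · intro u v huv
      have h5 : H'.Adj (e (e.symm u)) (e (e.symm v)) := by simpa using huv
      rcases hcov _ _ ((hHa' _ _).1 h5) with h | h
      · left; exact mem_map.2 ⟨_, h, by simp⟩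
      · right; exact mem_map.2 ⟨_, h, by simp⟩
  have h3' : (Mt.card : ℝ) ≤ matchNum H := by exact_mod_cast h3
  have h4' : (matchNum H' : ℝ) ≤ Cv.card := by exact_mod_cast h4
  have hθ2 : ((D * M : ℕ) : ℝ) * (θ + θ) = ε * β := by
    rw [hθ]; field_simp; ring
  rw [hθ2] at hC1 hC2
  have h5 : α' * Mt.card ≤ Cv.card := by
    have h6 : α' * (Mt.card : ℝ) ≤ α * matchNum H :=
      mul_le_mul hα3 h3' (Nat.cast_nonneg _) (by linarith)
    linarith
  set N : ℝ := ((Fintype.card (Vtx (Bool × Fin S) G) : ℕ) : ℝ) with hN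
  set x : ℝ := ((Cv.card : ℕ) : ℝ)
  have h7 : α' * (x + ((1 - ε) * β - 2 * (ε * β)) * N) ≤ x :=
    le_trans (mul_le_mul_of_nonneg_left hC2 (by linarith)) h5
  have h8 : (1 - α') * x ≤ (1 - α') * ((β + ε * β) * N) :=
    mul_le_mul_of_nonneg_left hC1 (by linarith)
  have h9 : α' * (1 - 3 * ε) * (β * N) ≤ (1 - α') * (1 + ε) * (β * N) := by nlinarith
  have h10 : α' * (1 - 3 * ε) ≤ (1 - α') * (1 + ε) :=
    le_of_mul_le_mul_right h9 (by positivity)
  have h11 : α' = 1 / 2 + 2 * ε := by rw [hεdef]; ring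
  rw [h11] at h10 hα2
  nlinarith

end Pool.Agent.P.MP_548a57_lc
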