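import Pool.Agent.P.MP_548a57_lc.Walk

/-!
Adapted bijections of binary words.
-/

namespace Pool.Agent.P.MP_548a57_lc

open Finset

/-- The words agree on the places `t ≤ n < N`. -/
def Agree {D : ℕ} (t N : ℕ) (y y' : Str D) : Prop :=
  ∀ n : Fin D, t ≤ n.val → n.val < N → y n = y' n

/-- Bijections that fix the first `t` places and act on the rest as an automorphism of the
binary tree, without looking at the first `t` places. -/
def Ad (D t : ℕ) : Subgroup (Equiv.Perm (Str D)) where
  carrier := {φ | (∀ (y : Str D) (n : Fin D), n.val < t → φ y n = y n) ∧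
    ∀ (y y' : Str D) (N : ℕ), Agree t N y y' ↔ Agree t N (φ y) (φ y')}
  one_mem' := ⟨fun _ _ _ => rfl, fun _ _ _ => Iff.rfl⟩
  mul_mem' := by
    rintro φ ψ ⟨h1, h2⟩ ⟨h3, h4⟩
    exact ⟨fun y n hn => by rw [Equiv.Perm.mul_apply, h1 _ _ hn, h3 _ _ hn],
      fun y y' N => (h4 y y' N).trans (h2 _ _ N)⟩
  inv_mem' := by
    rintro φ ⟨h1, h2⟩
    refine ⟨fun y n hn => ?_, fun y y' N => ?_⟩
    · have := h1 (φ⁻¹ y) n hn
      simpa using this.symm
    · have := h2 (φ⁻¹ y) (φ⁻¹ y') N
      simpa using this.symm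

theorem Ad_anti {D t t' : ℕ} (h : t ≤ t') : Ad D t' ≤ Ad D t := by
  rintro φ ⟨h1, h2⟩
  refine ⟨fun y n hn => h1 y n (hn.trans_le h), fun y y' N => ⟨fun H n hn hN => ?_,
    fun H n hn hN => ?_⟩⟩
  · by_cases hc : n.val < t'
    · rw [h1 y n hc, h1 y' n hc]
      exact H n hn hN
    · exact (h2 y y' N).1 (fun m hm hmN => H m (h.trans hm) hmN) n (not_lt.1 hc) hN
  · by_cases hc : n.val < t'
    · rw [← h1 y n hc, ← h1 y' n hc]
      exact H n hn hN
    · exact (h2 y y' N).2 (fun m hm hmN => H m (h.trans hm) hmN) n (not_lt.1 hc) hN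

/-- The word with its first `t` letters erased. -/
def zer {D : ℕ} (t : ℕ) (y : Str D) : Str D := fun n => if n.val < t then false else y n

/-- The action of `g` on the places from `t` on, when the first `t` input letters are `false`. -/
def secFun {D : ℕ} (t : ℕ) (g : Equiv.Perm (Str D)) (y : Str D) : Str D :=
  fun n => if n.val < t then y n else g (zer t y) n

theorem Tree_agree_zer {D : ℕ} (t N : ℕ) (y y' : Str D) :
    Agree t N y y' ↔ Agree 0 N (zer t y) (zer t y') := by
  refine ⟨fun H n _ hN => ?_, fun H n hn hN => ?_⟩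
  · unfold zer
    split_ifs with hc
    · rfl
    · exact H n (not_lt.1 hc) hN
  · have := H n (Nat.zero_le _) hN
    unfold zer at this
    rwa [if_neg (not_lt.2 hn), if_neg (not_lt.2 hn)] at this

theorem Tree_agree_sec {D : ℕ} (t : ℕ) (g : Ad D 0) (y y' : Str D) (N : ℕ) :
    Agree t N y y' ↔ Agree t N (secFun t g.1 y) (secFun t g.1 y') := by
  rw [Tree_agree_zer, g.2.2]
  refine ⟨fun H n hn hN => ?_, fun H n _ hN => ?_⟩
  · unfold secFun
    rw [if_neg (not_lt.2 hn), if_neg (not_lt.2 hn)]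
    exact H n (Nat.zero_le _) hN
  · by_cases hc : n.val < t
    · refine (g.2.2 (zer t y) (zer t y') t).1 (fun m _ hm => ?_) n (Nat.zero_le _) hc
      unfold zer
      rw [if_pos hm, if_pos hm]
    · have := H n (not_lt.1 hc) hN
      unfold secFun at this
      rwa [if_neg hc, if_neg hc] at this

theorem secFun_bij {D : ℕ} (t : ℕ) (g : Ad D 0) : Function.Bijective (secFun t g.1) := by
  refine Finite.injective_iff_bijective.1 fun y y' h => funext fun n => ?_
  by_cases hc : n.val < t
  · have := congrFun h n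
    unfold secFun at this
    rwa [if_pos hc, if_pos hc] at this
  · exact (Tree_agree_sec t g y y' D).2 (fun m _ _ => congrFun h m) n (not_lt.1 hc) n.2

/-- The section of `g` at time `t`, as a permutation. -/
noncomputable def sec {D : ℕ} (t : ℕ) (g : Ad D 0) : Equiv.Perm (Str D) :=
  Equiv.ofBijective _ (secFun_bij t g)

theorem sec_apply {D : ℕ} (t : ℕ) (g : Ad D 0) (y : Str D) : sec t g y = secFun t g.1 y := rfl

theorem sec_mem {D : ℕ} (t : ℕ) (g : Ad D 0) : sec t g ∈ Ad D t := by
  refine ⟨fun y n hn => ?_, fun y y' N => Tree_agree_sec t g y y' N⟩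
  rw [sec_apply]
  unfold secFun
  rw [if_pos hn]

theorem sec_zero {D : ℕ} (g : Ad D 0) : sec 0 g = g.1 := by
  refine Equiv.ext fun y => funext fun n => ?_
  rw [sec_apply]
  have : zer 0 y = y := funext fun m => if_neg (Nat.not_lt_zero _)
  unfold secFun
  rw [if_neg (Nat.not_lt_zero _), this]

theorem sec_mul_left {D : ℕ} (t : ℕ) (h g : Ad D 0) (hh : h.1 ∈ Ad D t) :
    sec t (h * g) = h.1 * sec t g := by
  refine Equiv.ext fun y => funext fun n => ?_
  rw [Equiv.Perm.mul_apply, sec_apply, sec_apply]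
  by_cases hc : n.val < t
  · rw [hh.1 _ n hc]
    unfold secFun
    rw [if_pos hc, if_pos hc]
  · have h1 : Agree t D (g.1 (zer t y)) (secFun t g.1 y) := fun m hm _ => by
      unfold secFun
      rw [if_neg (not_lt.2 hm)]
    rw [← (hh.2 _ _ D).1 h1 n (not_lt.1 hc) n.2]
    unfold secFun
    rw [if_neg hc]
    rfl

theorem sec_mul_right {D : ℕ} (t : ℕ) (g h : Ad D 0) (hh : h.1 ∈ Ad D t) :
    sec t (g * h) = sec t g * h.1 := by
  refine Equiv.ext fun y => funext fun n => ?_
  rw [Equiv.Perm.mul_apply, sec_apply, sec_apply]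
  have h1 : h.1 (zer t y) = zer t (h.1 y) := by
    funext m
    by_cases hm : m.val < t
    · rw [hh.1 _ m hm]
      unfold zer
      rw [if_pos hm, if_pos hm]
    · have h2 : Agree t D (zer t y) y := fun k hk _ => if_neg (not_lt.2 hk)
      rw [(hh.2 _ _ D).1 h2 m (not_lt.1 hm) m.2]
      unfold zer
      rw [if_neg hm]
  unfold secFun
  split_ifs with hc
  · exact (hh.1 y n hc).symm
  · rw [← h1]
    rfl

/-- A triangular map: letter `n` is flipped according to a rule that reads earlier letters. -/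
def triFun {D : ℕ} (f : Str D → Fin D → Bool) (y : Str D) : Str D := fun n => xor (y n) (f y n)

/-- The flip rule is idle before `t` and reads, for place `n`, only the places `t ≤ m < n`. -/
def TriRule {D : ℕ} (t : ℕ) (f : Str D → Fin D → Bool) : Prop :=
  (∀ y (n : Fin D), n.val < t → f y n = false) ∧
    ∀ y y' (n : Fin D), Agree t n.val y y' → f y n = f y' n

theorem tri_exists {D : ℕ} (t : ℕ) (f : Str D → Fin D → Bool) (hf : TriRule t f) :
    ∃ φ : Equiv.Perm (Str D), φ ∈ Ad D t ∧ ∀ y, φ y = triFun f y := by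
  have hlow : ∀ (y : Str D) (n : Fin D), n.val < t → triFun f y n = y n := fun y n hn => by
    unfold triFun
    rw [hf.1 y n hn, Bool.xor_false]
  have hag : ∀ (y y' : Str D) (N : ℕ), Agree t N y y' ↔ Agree t N (triFun f y) (triFun f y') := by
    intro y y' N
    refine ⟨fun H n hn hN => ?_, fun H => ?_⟩
    · unfold triFun
      rw [H n hn hN, hf.2 y y' n fun m hm hmn => H m hm (hmn.trans hN)]
    · have key : ∀ k, k ≤ N → Agree t k y y' := by
        intro k
        induction k with
        | zero => exact fun _ n _ hn => absurd hn (Nat.not_lt_zero _)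
        | succ k ih =>
          intro hk n hn hnk
          rcases Nat.lt_succ_iff_lt_or_eq.1 hnk with h1 | h1
          · exact ih (by omega) n hn h1
          · have h2 := H n hn (by omega)
            unfold triFun at h2
            rw [hf.2 y y' n (h1 ▸ ih (by omega))] at h2
            simpa using h2
      exact key N le_rfl
  have hb : Function.Bijective (triFun f) := by
    refine Finite.injective_iff_bijective.1 fun y y' h => funext fun n => ?_
    by_cases hc : n.val < t
    · rw [← hlow y n hc, ← hlow y' n hc, h]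
    · exact (hag y y' D).2 (fun m _ _ => congrFun h m) n (not_lt.1 hc) n.2
  exact ⟨Equiv.ofBijective _ hb, ⟨hlow, hag⟩, fun _ => rfl⟩

/-- The mirror: flip every letter from `t` on. -/
theorem mir_exists (D t : ℕ) : ∃ φ : Ad D 0, φ.1 ∈ Ad D t ∧
    ∀ (y : Str D) (n : Fin D), t ≤ n.val → φ.1 y n = !(y n) := by
  obtain ⟨φ, h1, h2⟩ := tri_exists (D := D) t (fun _ n => decide (t ≤ n.val))
    ⟨fun _ n hn => by simpa using hn, fun _ _ _ _ => rfl⟩
  refine ⟨⟨φ, Ad_anti (Nat.zero_le t) h1⟩, h1, fun y n hn => ?_⟩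
  show φ y n = _
  rw [h2]
  simp [triFun, hn]

/-- Translation by a fixed word. -/
theorem tra_exists {D : ℕ} (v : Str D) : ∃ φ : Ad D 0, ∀ (y : Str D) (n : Fin D),
    φ.1 y n = xor (y n) (v n) := by
  obtain ⟨φ, h1, h2⟩ := tri_exists (D := D) 0 (fun _ n => v n)
    ⟨fun _ n hn => absurd hn (Nat.not_lt_zero _), fun _ _ _ _ => rfl⟩
  refine ⟨⟨φ, h1⟩, fun y n => ?_⟩
  show φ y n = _
  rw [h2]
  rfl

/-- Flip the letters from `t` on until the walk from `t` first hits `-1`. -/
theorem kap_exists (D t : ℕ) : ∃ φ : Ad D 0, φ.1 ∈ Ad D t ∧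
    (∀ (y : Str D) (n : ℕ), wk (φ.1 y) t n ≤ wk y t n + 2) ∧
    ∀ (y : Str D) (n : ℕ), (∀ n', n' ≤ n → 0 ≤ wk y t n') → ∀ n', n' ≤ n →
      wk (φ.1 y) t n' = - wk y t n' := by
  obtain ⟨φ, h1, h2⟩ := tri_exists (D := D) t
    (fun y n => decide (t ≤ n.val ∧ ∀ m, m ≤ n.val - t → 0 ≤ wk y t m))
    ⟨fun _ n hn => by simp [not_le.2 hn], fun y y' n H => by
      refine decide_eq_decide.2 (and_congr_right fun ht => forall_congr' fun m =>
        imp_congr_right fun hm => ?_)
      rw [wk_congr y y' t m fun k hk hk' => H k hk (by omega)]⟩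
  have hpos : ∀ (y : Str D) (n : ℕ), (∀ m, m ≤ n → 0 ≤ wk y t m) →
      stepv (φ y) (t + n) = - stepv y (t + n) := by
    intro y n H
    unfold stepv
    by_cases hD : t + n < D
    · rw [dif_pos hD, dif_pos hD, h2]
      have : decide (t ≤ t + n ∧ ∀ m, m ≤ t + n - t → 0 ≤ wk y t m) = true :=
        decide_eq_true ⟨by omega, fun m hm => H m (by omega)⟩
      unfold triFun
      simp only [this]
      cases y ⟨t + n, hD⟩ <;> simp
    · rw [dif_neg hD, dif_neg hD, neg_zero]
  have hneg : ∀ (y : Str D) (n : ℕ), ¬ (∀ m, m ≤ n → 0 ≤ wk y t m) →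
      stepv (φ y) (t + n) = stepv y (t + n) := by
    intro y n H
    unfold stepv
    by_cases hD : t + n < D
    · rw [dif_pos hD, dif_pos hD, h2]
      have : decide (t ≤ t + n ∧ ∀ m, m ≤ t + n - t → 0 ≤ wk y t m) = false :=
        decide_eq_false fun h => H fun m hm => h.2 m (by omega)
      unfold triFun
      simp only [this]
      cases y ⟨t + n, hD⟩ <;> simp
    · rw [dif_neg hD, dif_neg hD]
  have hA : ∀ (y : Str D) (n : ℕ), (∀ m, m < n → 0 ≤ wk y t m) →
      wk (φ y) t n = - wk y t n := by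
    intro y n
    induction n with
    | zero => intro _; rw [wk_zero, wk_zero, neg_zero]
    | succ n ih =>
      intro H
      rw [wk_succ, wk_succ, ih fun m hm => H m (by omega), hpos y n fun m hm => H m (by omega)]
      ring
  refine ⟨⟨φ, Ad_anti (Nat.zero_le t) h1⟩, h1, fun y n => ?_,
    fun y n H n' hn => hA y n' fun m hm => H m (by omega)⟩
  show wk (φ y) t n ≤ _
  induction n with
  | zero => rw [wk_zero, wk_zero]; norm_num
  | succ n ih =>
    by_cases H : ∀ m, m ≤ n → 0 ≤ wk y t m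
    · rw [hA y (n + 1) fun m hm => H m (by omega), wk_succ]
      have h3 := H n le_rfl
      have h4 := le_stepv y (t + n)
      omega
    · rw [wk_succ, wk_succ, hneg y n H]
      omega

/-- The mirror at time `t`. -/
noncomputable def mir (D t : ℕ) : Ad D 0 := (mir_exists D t).choose

/-- The translation by `v`. -/
noncomputable def tra {D : ℕ} (v : Str D) : Ad D 0 := (tra_exists v).choose

/-- The excursion flip at time `t`. -/
noncomputable def kap (D t : ℕ) : Ad D 0 := (kap_exists D t).choose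

theorem mir_mem (D t : ℕ) : (mir D t).1 ∈ Ad D t := (mir_exists D t).choose_spec.1

theorem mir_apply {D : ℕ} (t : ℕ) (y : Str D) (n : Fin D) (h : t ≤ n.val) :
    (mir D t).1 y n = !(y n) := (mir_exists D t).choose_spec.2 y n h

theorem tra_apply {D : ℕ} (v y : Str D) (n : Fin D) : (tra v).1 y n = xor (y n) (v n) :=
  (tra_exists v).choose_spec y n

theorem kap_mem (D t : ℕ) : (kap D t).1 ∈ Ad D t := (kap_exists D t).choose_spec.1

theorem kap_le {D : ℕ} (t : ℕ) (y : Str D) (n : ℕ) : wk ((kap D t).1 y) t n ≤ wk y t n + 2 :=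
  (kap_exists D t).choose_spec.2.1 y n

theorem kap_eq {D : ℕ} (t : ℕ) (y : Str D) (n : ℕ) (h : ∀ n', n' ≤ n → 0 ≤ wk y t n') (n' : ℕ)
    (hn : n' ≤ n) : wk ((kap D t).1 y) t n' = - wk y t n' :=
  (kap_exists D t).choose_spec.2.2 y n h n' hn

theorem wk_mir {D : ℕ} (t : ℕ) (y : Str D) (n : ℕ) : wk ((mir D t).1 y) t n = - wk y t n := by
  induction n with
  | zero => rw [wk_zero, wk_zero, neg_zero]
  | succ n ih =>
    rw [wk_succ, wk_succ, ih]
    have : stepv ((mir D t).1 y) (t + n) = - stepv y (t + n) := by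
      unfold stepv
      by_cases hD : t + n < D
      · rw [dif_pos hD, dif_pos hD, mir_apply t y ⟨t + n, hD⟩ (Nat.le_add_right t n)]
        cases y ⟨t + n, hD⟩ <;> simp
      · rw [dif_neg hD, dif_neg hD, neg_zero]
    rw [this]
    ring

theorem mir_mul_self (D t : ℕ) : mir D t * mir D t = 1 := by
  refine Subtype.ext (Equiv.ext fun y => funext fun n => ?_)
  show (mir D t).1 ((mir D t).1 y) n = y n
  by_cases hc : n.val < t
  · rw [(mir_mem D t).1 _ n hc, (mir_mem D t).1 _ n hc]
  · rw [mir_apply t _ n (not_lt.1 hc), mir_apply t _ n (not_lt.1 hc), Bool.not_not]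

end Pool.Agent.P.MP_548a57_lc
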