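import Mathlib

/-!
The simple random walk read off a binary word.
-/

namespace Pool.Agent.P.MP_548a57_lc

open Finset

/-- Binary words of length `D`. -/
abbrev Str (D : ℕ) : Type := Fin D → Bool

/-- The step number `n` of the walk: `+1`, `-1`, or `0` past the end of the word. -/
def stepv {D : ℕ} (x : Str D) (n : ℕ) : ℤ :=
  if h : n < D then (if x ⟨n, h⟩ then 1 else -1) else 0

/-- The sum of `n` steps from time `s` on. -/
def wk {D : ℕ} (x : Str D) (s n : ℕ) : ℤ := ∑ m ∈ range n, stepv x (s + m)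

/-- The level `n` steps after the start at time `s` on level `K - 1`. -/
def lev {D : ℕ} (K : ℤ) (s : ℕ) (x : Str D) (n : ℕ) : ℤ := K - 1 + wk x s n

/-- The walk reaches `K` before `0`. -/
def GoodW {D : ℕ} (K : ℤ) (s : ℕ) (x : Str D) : Prop :=
  ∃ n, lev K s x n = K ∧ ∀ n', n' < n → 0 < lev K s x n'

/-- At time `t` the walk has started, is on level `a`, and has not yet reached `K`. -/
def AliveW {D : ℕ} (K : ℤ) (s : ℕ) (x : Str D) (t : ℕ) (a : ℤ) : Prop :=
  s ≤ t ∧ lev K s x (t - s) = a ∧ ∀ n, n ≤ t - s → lev K s x n < K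

/-- At time `t` the walk is on level `a` for the first time, and has not yet reached `K`. -/
def NewMin {D : ℕ} (K : ℤ) (s : ℕ) (x : Str D) (t : ℕ) (a : ℤ) : Prop :=
  s ≤ t ∧ lev K s x (t - s) = a ∧ ∀ n, n < t - s → a < lev K s x n ∧ lev K s x n < K

/-- From time `t` on the walk climbs by `K - a` before it falls below its position at time `t`. -/
def Useful {D : ℕ} (K : ℤ) (x : Str D) (t : ℕ) (a : ℤ) : Prop :=
  ∃ n, wk x t n = K - a ∧ ∀ n', n' ≤ n → 0 ≤ wk x t n'

/-- The walk has its minimum `a` at time `t` and then reaches `K`. -/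
def Key {D : ℕ} (K : ℤ) (s : ℕ) (x : Str D) (t : ℕ) (a : ℤ) : Prop :=
  NewMin K s x t a ∧ Useful K x t a

/-- The minimum is low and is attained before time `S`. -/
def KeyLow {D : ℕ} (K a₁ : ℤ) (S : ℕ) (s : ℕ) (x : Str D) : Prop :=
  ∃ (t : ℕ) (a : ℤ), t < S ∧ 1 ≤ a ∧ a ≤ a₁ ∧ Key K s x t a

theorem wk_zero {D : ℕ} (x : Str D) (s : ℕ) : wk x s 0 = 0 := by simp [wk]

theorem wk_succ {D : ℕ} (x : Str D) (s n : ℕ) : wk x s (n + 1) = wk x s n + stepv x (s + n) := by
  simp [wk, sum_range_succ]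

theorem wk_add {D : ℕ} (x : Str D) (s n m : ℕ) :
    wk x s (n + m) = wk x s n + wk x (s + n) m := by
  induction m with
  | zero => simp [wk]
  | succ m ih => rw [← add_assoc, wk_succ, ih, wk_succ, add_assoc s n m]; ring

theorem stepv_le {D : ℕ} (x : Str D) (n : ℕ) : stepv x n ≤ 1 := by
  unfold stepv; split_ifs <;> norm_num

theorem le_stepv {D : ℕ} (x : Str D) (n : ℕ) : -1 ≤ stepv x n := by
  unfold stepv; split_ifs <;> norm_num

/-- The walk only depends on the letters it reads. -/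
theorem wk_congr {D : ℕ} (x y : Str D) (s n : ℕ)
    (h : ∀ m : Fin D, s ≤ m.val → m.val < s + n → x m = y m) : wk x s n = wk y s n := by
  unfold wk
  refine sum_congr rfl fun m hm => ?_
  unfold stepv
  by_cases hD : s + m < D
  · rw [dif_pos hD, dif_pos hD, h ⟨s + m, hD⟩ (by simp) (by simpa using mem_range.1 hm)]
  · rw [dif_neg hD, dif_neg hD]

/-- Discrete intermediate value property, upwards. -/
theorem wk_ivt_up {D : ℕ} (x : Str D) (s n : ℕ) (v : ℤ) (h0 : 0 ≤ v) (hv : v ≤ wk x s n) :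
    ∃ m, m ≤ n ∧ wk x s m = v := by
  induction n with
  | zero => exact ⟨0, le_rfl, by rw [wk_zero] at hv ⊢; omega⟩
  | succ n ih =>
    by_cases h : v ≤ wk x s n
    · obtain ⟨m, hm, e⟩ := ih h
      exact ⟨m, by omega, e⟩
    · refine ⟨n + 1, le_rfl, ?_⟩
      have := stepv_le x (s + n)
      rw [wk_succ] at hv ⊢
      omega

theorem lev_add {D : ℕ} (K : ℤ) {s t : ℕ} (x : Str D) (h : s ≤ t) (n : ℕ) :
    lev K s x (t - s + n) = lev K s x (t - s) + wk x t n := by
  unfold lev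
  rw [wk_add, Nat.add_sub_cancel' h]
  ring

theorem key_not_lt {D : ℕ} {K : ℤ} {s : ℕ} {x : Str D} {t t' : ℕ} {a a' : ℤ}
    (h : Key K s x t a) (h' : Key K s x t' a') : ¬ t < t' := by
  intro hlt
  obtain ⟨⟨h1, h2, -⟩, n, h4, h5⟩ := h
  obtain ⟨⟨-, h7, h8⟩, -⟩ := h'
  by_cases hn : t + n < t'
  · have h9 := (h8 (t - s + n) (by omega)).2
    rw [lev_add K x h1] at h9
    omega
  · have h9 := (h8 (t - s) (by omega)).1
    have h10 := h5 (t' - t) (by omega)
    have h11 := lev_add K x h1 (t' - t)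
    rw [show t - s + (t' - t) = t' - s by omega] at h11
    omega

theorem key_unique {D : ℕ} {K : ℤ} {s : ℕ} {x : Str D} {t t' : ℕ} {a a' : ℤ}
    (h : Key K s x t a) (h' : Key K s x t' a') : t = t' ∧ a = a' := by
  have h1 := key_not_lt h h'
  have h2 := key_not_lt h' h
  obtain rfl : t = t' := by omega
  exact ⟨rfl, h.1.2.1.symm.trans h'.1.2.1⟩

theorem key_good {D : ℕ} {K : ℤ} {s : ℕ} {x : Str D} {t : ℕ} {a : ℤ} (ha : 1 ≤ a)
    (h : Key K s x t a) : GoodW K s x := by
  obtain ⟨⟨h1, h2, h3⟩, n, h4, h5⟩ := h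
  refine ⟨t - s + n, by rw [lev_add K x h1]; omega, fun n' hn' => ?_⟩
  by_cases h6 : n' < t - s
  · have := (h3 n' h6).1
    omega
  · have h7 := lev_add K x h1 (n' - (t - s))
    have h8 := h5 (n' - (t - s)) (by omega)
    rw [show t - s + (n' - (t - s)) = n' by omega] at h7
    omega

theorem newMin_alive {D : ℕ} {K : ℤ} {s : ℕ} {x : Str D} {t : ℕ} {a : ℤ} (ha : a < K)
    (h : NewMin K s x t a) : AliveW K s x t a := by
  obtain ⟨h1, h2, h3⟩ := h
  refine ⟨h1, h2, fun n hn => ?_⟩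
  rcases hn.lt_or_eq with h4 | rfl
  · exact (h3 n h4).2
  · omega

theorem alive_good {D : ℕ} {K : ℤ} {s t : ℕ} {x : Str D} {a : ℤ} (h : AliveW K s x t a)
    (hg : GoodW K s x) : ∃ m, a + wk x t m = K ∧ ∀ m', m' < m → 0 < a + wk x t m' := by
  obtain ⟨h1, h2, h3⟩ := h
  obtain ⟨n, h4, h5⟩ := hg
  have h6 : ¬ n ≤ t - s := fun h => absurd h4 (h3 n h).ne
  refine ⟨n - (t - s), ?_, fun m' hm' => ?_⟩
  · have h7 := lev_add K x h1 (n - (t - s))
    rw [show t - s + (n - (t - s)) = n by omega] at h7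
    omega
  · have h7 := lev_add K x h1 m'
    have h8 := h5 (t - s + m') (by omega)
    omega

/-- Two walks whose levels add up to at most `K` from time `t` on cannot both be good. -/
theorem not_both_good {D : ℕ} {K : ℤ} (hK : 0 < K) {s s' t : ℕ} {x x' : Str D} {a b : ℤ}
    (h : AliveW K s x t a) (h' : AliveW K s' x' t b)
    (hsum : ∀ n, a + wk x t n + (b + wk x' t n) ≤ K) : ¬ (GoodW K s x ∧ GoodW K s' x') := by
  rintro ⟨hg, hg'⟩
  obtain ⟨m, h1, h2⟩ := alive_good h hg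
  obtain ⟨m', h3, h4⟩ := alive_good h' hg'
  rcases lt_trichotomy m m' with h5 | rfl | h5
  · have := h4 m h5
    have := hsum m
    omega
  · have := hsum m
    omega
  · have := h2 m' h5
    have := hsum m'
    omega

end Pool.Agent.P.MP_548a57_lc
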